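import Pool.Agent.LibJes95.Defs
namespace Jes95

private theorem h1_aux {a b c : ℕ} {m n : ℤ} (ha : 0 < a) (hb : 0 < b)
    (h1 : (a : ℤ) = m ^ 2 - n ^ 2) (h2 : (b : ℤ) = 2 * m * n) (h3 : (c : ℤ) = m ^ 2 + n ^ 2)
    (hg : Int.gcd m n = 1) (hp : m % 2 = 0 ∧ n % 2 = 1 ∨ m % 2 = 1 ∧ n % 2 = 0) :
    Adm m.natAbs n.natAbs ∧ c = m.natAbs ^ 2 + n.natAbs ^ 2 ∧
      a = m.natAbs ^ 2 - n.natAbs ^ 2 ∧ b = 2 * m.natAbs * n.natAbs := by
  have ha' : (0 : ℤ) < m ^ 2 - n ^ 2 := by rw [← h1]; exact_mod_cast ha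
  have hb' : (0 : ℤ) < 2 * m * n := by rw [← h2]; exact_mod_cast hb
  have hn0 : n ≠ 0 := by
    rintro rfl
    simp at hb'
  have hN : 0 < n.natAbs := Int.natAbs_pos.2 hn0
  have hm2 : ((m.natAbs : ℤ)) ^ 2 = m ^ 2 := Int.natAbs_sq m
  have hn2 : ((n.natAbs : ℤ)) ^ 2 = n ^ 2 := Int.natAbs_sq n
  have hlt : n.natAbs < m.natAbs := by
    have : ((n.natAbs : ℤ)) ^ 2 < ((m.natAbs : ℤ)) ^ 2 := by rw [hm2, hn2]; linarith
    have h4 : n.natAbs ^ 2 < m.natAbs ^ 2 := by exact_mod_cast this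
    exact lt_of_pow_lt_pow_left₀ 2 (Nat.zero_le _) h4
  refine ⟨⟨hN, hlt, hg, ?_⟩, ?_, ?_, ?_⟩
  · omega
  · have : (c : ℤ) = ((m.natAbs : ℤ)) ^ 2 + ((n.natAbs : ℤ)) ^ 2 := by rw [hm2, hn2, h3]
    exact_mod_cast this
  · have h5 : (a : ℤ) + ((n.natAbs : ℤ)) ^ 2 = ((m.natAbs : ℤ)) ^ 2 := by
      rw [hm2, hn2, h1]
      ring
    have h6 : a + n.natAbs ^ 2 = m.natAbs ^ 2 := by exact_mod_cast h5
    omega
  · have h7 : (b : ℤ) = 2 * (m.natAbs : ℤ) * (n.natAbs : ℤ) := by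
      have h8 : (m.natAbs : ℤ) * (n.natAbs : ℤ) = |m * n| := by
        rw [Int.natCast_natAbs, Int.natCast_natAbs, abs_mul]
      have h9 : 0 < m * n := by nlinarith
      rw [mul_assoc, h8, abs_of_pos h9, h2]
      ring
    exact_mod_cast h7

/-- `PythagoreanTriple.coprime_classification` (integers; pass to natural numbers). -/
theorem prim_param {a b c : ℕ} (h : Prim a b c) : ∃ m n, Adm m n ∧ c = m ^ 2 + n ^ 2 ∧
    ((a = m ^ 2 - n ^ 2 ∧ b = 2 * m * n) ∨ (a = 2 * m * n ∧ b = m ^ 2 - n ^ 2)) := by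
  obtain ⟨ha, hb, hab, he⟩ := h
  have hc : 0 < c := by
    rcases Nat.eq_zero_or_pos c with h0 | h0
    · rw [h0] at he
      have : 0 < a ^ 2 := by positivity
      omega
    · exact h0
  have hP : PythagoreanTriple (a : ℤ) (b : ℤ) (c : ℤ) := by
    unfold PythagoreanTriple
    have : ((a ^ 2 + b ^ 2 : ℕ) : ℤ) = ((c ^ 2 : ℕ) : ℤ) := by rw [he]
    push_cast at this
    linarith
  have hgcd : Int.gcd (a : ℤ) (b : ℤ) = 1 := by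
    rw [Int.gcd_natCast_natCast]
    exact hab
  obtain ⟨m, n, h1, h2, h3, h4⟩ := PythagoreanTriple.coprime_classification.1 ⟨hP, hgcd⟩
  have hz : (c : ℤ) = m ^ 2 + n ^ 2 := by
    rcases h2 with h2 | h2
    · exact h2
    · exfalso
      have : (0 : ℤ) < c := by exact_mod_cast hc
      have h5 : (0 : ℤ) ≤ m ^ 2 + n ^ 2 := by positivity
      linarith
  rcases h1 with ⟨e1, e2⟩ | ⟨e1, e2⟩
  · obtain ⟨k1, k2, k3, k4⟩ := h1_aux ha hb e1 e2 hz h3 h4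
    exact ⟨_, _, k1, k2, Or.inl ⟨k3, k4⟩⟩
  · obtain ⟨k1, k2, k3, k4⟩ := h1_aux hb ha e2 e1 hz h3 h4
    exact ⟨_, _, k1, k2, Or.inr ⟨k4, k3⟩⟩

theorem jes_symm {a b c : ℕ} (h : Jes a b c) : Jes b a c := by
  intro x y z hx hy hz e
  obtain ⟨h1, h2, h3⟩ := h y x z hy hx hz (by rw [add_comm]; exact e)
  exact ⟨h2, h1, h3⟩

end Jes95
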