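import Pool.Agent.LibJes95.Defs
namespace Jes95

private theorem l6_dvd {j n t : ℕ} (hn : n ∈ Lan j) (ht : t ∣ n) : t ∈ Lan j :=
  ⟨Nat.pos_of_dvd_of_pos ht hn.1, fun p hp hpt => hn.2 p hp (hpt.trans ht)⟩

open Classical in
/-- `log x ∑_{n≤x} f(n) ≤ C x ∑_{n≤x} f(n)/n`, `f` the indicator of `Lan j`, `C = log 4 + 5`:
`∑ f(n) log n = ∑ f(n) ∑_{q ∣ n} Λ(q) = ∑_{t ≤ x} f(t) ∑_{q ≤ x/t, f(tq)=1} Λ(q) ≤ ∑ f(t) ψ(x/t)`
(`n ∈ Lan j`, `q ∣ n` imply `n/q ∈ Lan j`), `Chebyshev.psi_le_const_mul_self`, and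
`log (x/n) ≤ x/n`. -/
theorem log_mul_card_le (j x : ℕ) :
    Real.log x * (((Finset.Icc 1 x).filter (· ∈ Lan j)).card : ℝ)
      ≤ (Real.log 4 + 5) * x * ∑ n ∈ (Finset.Icc 1 x).filter (· ∈ Lan j), (1 : ℝ) / n := by
  rcases Nat.eq_zero_or_pos x with hx | hx
  · subst hx
    simp
  set A := (Finset.Icc 1 x).filter (· ∈ Lan j) with hA
  have hxpos : (0 : ℝ) < x := by exact_mod_cast hx
  have hAm : ∀ n ∈ A, 1 ≤ n ∧ n ≤ x ∧ n ∈ Lan j := by
    intro n hn
    rw [hA, Finset.mem_filter, Finset.mem_Icc] at hn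
    exact ⟨hn.1.1, hn.1.2, hn.2⟩
  have h1 : Real.log x * (A.card : ℝ) = ∑ n ∈ A, Real.log ((x : ℝ) / n) + ∑ n ∈ A, Real.log n := by
    rw [← Finset.sum_add_distrib]
    have : ∀ n ∈ A, Real.log ((x : ℝ) / n) + Real.log n = Real.log x := by
      intro n hn
      have hn0 : (0 : ℝ) < n := by exact_mod_cast (hAm n hn).1
      rw [Real.log_div hxpos.ne' hn0.ne']
      ring
    rw [Finset.sum_congr rfl this, Finset.sum_const, nsmul_eq_mul]
    ring
  have h2 : ∑ n ∈ A, Real.log ((x : ℝ) / n) ≤ ∑ n ∈ A, x * ((1 : ℝ) / n) := by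
    refine Finset.sum_le_sum fun n hn => ?_
    have hn0 : (0 : ℝ) < n := by exact_mod_cast (hAm n hn).1
    have := Real.log_le_sub_one_of_pos (show (0 : ℝ) < (x : ℝ) / n by positivity)
    have h3 : (x : ℝ) * (1 / n) = x / n := by ring
    rw [h3]
    linarith
  have h3 : ∑ n ∈ A, Real.log n = ∑ t ∈ A, ∑ n ∈ A.filter (fun n => t ∣ n),
      ArithmeticFunction.vonMangoldt (n / t) := by
    have e1 : ∀ n ∈ A, Real.log n = ∑ t ∈ n.divisors, ArithmeticFunction.vonMangoldt (n / t) := by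
      intro n _
      rw [← ArithmeticFunction.vonMangoldt_sum]
      exact (Nat.sum_div_divisors n _).symm
    rw [Finset.sum_congr rfl e1]
    apply Finset.sum_comm'
    intro n t
    constructor
    · rintro ⟨hn, htd⟩
      have htn := Nat.dvd_of_mem_divisors htd
      obtain ⟨a, b, c⟩ := hAm n hn
      refine ⟨Finset.mem_filter.mpr ⟨hn, htn⟩, ?_⟩
      rw [hA, Finset.mem_filter, Finset.mem_Icc]
      exact ⟨⟨Nat.pos_of_dvd_of_pos htn a, (Nat.le_of_dvd a htn).trans b⟩, l6_dvd c htn⟩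
    · rintro ⟨hn, ht⟩
      obtain ⟨hn1, htn⟩ := Finset.mem_filter.mp hn
      have := (hAm n hn1).1
      exact ⟨hn1, Nat.mem_divisors.mpr ⟨htn, by omega⟩⟩
  have h4 : ∀ t ∈ A, ∑ n ∈ A.filter (fun n => t ∣ n), ArithmeticFunction.vonMangoldt (n / t) ≤
      (Real.log 4 + 4) * (x * ((1 : ℝ) / t)) := by
    intro t ht
    have ht1 := (hAm t ht).1
    have htpos : (0 : ℝ) < t := by exact_mod_cast ht1
    have hinj : Set.InjOn (fun n => n / t) (A.filter (fun n => t ∣ n) : Finset ℕ) := by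
      intro n hn m hm hnm
      rw [Finset.mem_coe, Finset.mem_filter] at hn hm
      simp only at hnm
      rw [← Nat.div_mul_cancel hn.2, ← Nat.div_mul_cancel hm.2, hnm]
    have e1 : ∑ n ∈ A.filter (fun n => t ∣ n), ArithmeticFunction.vonMangoldt (n / t) =
        ∑ q ∈ (A.filter (fun n => t ∣ n)).image (fun n => n / t), ArithmeticFunction.vonMangoldt q :=
      (Finset.sum_image (f := fun q => ArithmeticFunction.vonMangoldt q) hinj).symm
    have e2 : (A.filter (fun n => t ∣ n)).image (fun n => n / t) ⊆ Finset.Ioc 0 ⌊(x : ℝ) / t⌋₊ := by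
      intro q hq
      rw [Finset.mem_image] at hq
      obtain ⟨n, hn, rfl⟩ := hq
      rw [Finset.mem_filter] at hn
      obtain ⟨a, b, _⟩ := hAm n hn.1
      rw [Finset.mem_Ioc]
      refine ⟨Nat.div_pos (Nat.le_of_dvd a hn.2) ht1, ?_⟩
      apply Nat.le_floor
      rw [le_div_iff₀ htpos]
      have : n / t * t = n := Nat.div_mul_cancel hn.2
      have h5 : ((n / t : ℕ) : ℝ) * t = n := by exact_mod_cast this
      rw [h5]
      exact_mod_cast b
    have e3 : ∑ q ∈ (A.filter (fun n => t ∣ n)).image (fun n => n / t),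
        ArithmeticFunction.vonMangoldt q ≤ Chebyshev.psi ((x : ℝ) / t) := by
      unfold Chebyshev.psi
      apply Finset.sum_le_sum_of_subset_of_nonneg e2
      intro q _ _
      exact ArithmeticFunction.vonMangoldt_nonneg
    have e4 := Chebyshev.psi_le_const_mul_self (x := (x : ℝ) / t) (by positivity)
    rw [e1]
    refine e3.trans (e4.trans (le_of_eq ?_))
    ring
  rw [h1, h3]
  have h5 := Finset.sum_le_sum h4
  rw [← Finset.mul_sum, ← Finset.mul_sum] at h5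
  rw [← Finset.mul_sum] at h2
  have h6 : (Real.log 4 + 5) * x * ∑ n ∈ A, (1 : ℝ) / n =
      x * ∑ n ∈ A, (1 : ℝ) / n + (Real.log 4 + 4) * (x * ∑ n ∈ A, (1 : ℝ) / n) := by ring
  rw [h6]
  exact add_le_add h2 h5

end Jes95
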