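import Pool.Agent.LibJes95.L5
import Pool.Agent.LibJes95.L6
namespace Jes95

/-- Landau type bound. -/
theorem lan_bound : ∃ K : ℝ, 0 < K ∧ ∀ j : ℕ, (j = 3 ∨ j = 5 ∨ j = 7) → ∀ x : ℕ, 2 ≤ x →
    (({s : ℕ | s ∈ Lan j ∧ s ≤ x}).ncard : ℝ) ≤ K * x / √(Real.log x) := by
  classical
  have hlog4 : 0 < Real.log 4 := Real.log_pos (by norm_num)
  refine ⟨8 * (Real.log 4 + 5), by positivity, fun j hj x hx => ?_⟩
  have hset : {s : ℕ | s ∈ Lan j ∧ s ≤ x} =
      (((Finset.Icc 1 x).filter (· ∈ Lan j) : Finset ℕ) : Set ℕ) := by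
    ext s
    simp only [Finset.coe_filter, Finset.mem_Icc]
    constructor
    · rintro ⟨h1, h2⟩
      exact ⟨⟨h1.1, h2⟩, h1⟩
    · rintro ⟨⟨_, h2⟩, h1⟩
      exact ⟨h1, h2⟩
  rw [hset, Set.ncard_coe_finset]
  have h5 := sum_inv_lan j hj x (by omega)
  have h6 := log_mul_card_le j x
  set S : ℝ := ∑ n ∈ (Finset.Icc 1 x).filter (· ∈ Lan j), (1 : ℝ) / n with hS
  have hx' : (2 : ℝ) ≤ x := by exact_mod_cast hx
  have hlogx : Real.log 2 ≤ Real.log x := Real.log_le_log (by norm_num) hx'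
  have hlog2 : (0.6931471803 : ℝ) < Real.log 2 := Real.log_two_gt_d9
  have hL : 0 < Real.log x := by linarith
  have hSq : S ^ 2 ≤ 64 * Real.log x := by nlinarith
  have hsq : √(Real.log x) ^ 2 = Real.log x := Real.sq_sqrt hL.le
  have hsp : 0 < √(Real.log x) := Real.sqrt_pos.2 hL
  have hS8 : S ≤ 8 * √(Real.log x) := by
    refine le_of_sq_le_sq ?_ (by positivity)
    rw [mul_pow, hsq]
    linarith
  rw [le_div_iff₀ hsp]
  have h7 : √(Real.log x) * (√(Real.log x) *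
      (((Finset.Icc 1 x).filter (· ∈ Lan j)).card : ℝ)) ≤
      √(Real.log x) * (8 * (Real.log 4 + 5) * x) := by
    calc √(Real.log x) * (√(Real.log x) * (((Finset.Icc 1 x).filter (· ∈ Lan j)).card : ℝ))
        = Real.log x * (((Finset.Icc 1 x).filter (· ∈ Lan j)).card : ℝ) := by
          rw [← mul_assoc, ← sq, hsq]
      _ ≤ (Real.log 4 + 5) * x * S := h6
      _ ≤ (Real.log 4 + 5) * x * (8 * √(Real.log x)) :=
          mul_le_mul_of_nonneg_left hS8 (by positivity)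
      _ = √(Real.log x) * (8 * (Real.log 4 + 5) * x) := by ring
  have h8 := le_of_mul_le_mul_left h7 hsp
  linarith

end Jes95
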