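import Pool.Agent.LibJes95.Defs
namespace Jes95

/-- If `ParCond` fails then all prime factors of `m + n` lie in two classes `{1, j}` mod 8. -/
theorem lan_of_not_parCond {m n : ℕ} (h : Adm m n) (hp : ¬ ParCond m n) :
    m + n ∈ Lan 3 ∨ m + n ∈ Lan 5 ∨ m + n ∈ Lan 7 := by
  obtain ⟨hn, hnm, hco, hpar⟩ := h
  have hpos : 0 < m + n := by omega
  have hodd : ∀ p : ℕ, p ∣ m + n → p % 2 = 1 := by
    intro p hpd
    by_contra hcon
    have h2 : 2 ∣ p := by omega
    have h3 := h2.trans hpd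
    omega
  by_cases hex : ∃ p : ℕ, p.Prime ∧ p ∣ m + n ∧ (p % 8 = 3 ∨ p % 8 = 7)
  · obtain ⟨p, hpp, hpd, hp8⟩ := hex
    have hall : ∀ e : ℕ, e ∣ m + n → e % 8 = 1 ∨ e % 8 = p % 8 := by
      intro e he
      by_contra hcon
      push Not at hcon
      exact hp ⟨p, hpd, by omega, Or.inr ⟨e, he, hcon⟩⟩
    rcases hp8 with h8 | h8
    · left
      refine ⟨hpos, fun q _ hqd => ?_⟩
      have := hall q hqd
      rwa [h8] at this
    · right; right
      refine ⟨hpos, fun q _ hqd => ?_⟩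
      have := hall q hqd
      rwa [h8] at this
  · right; left
    refine ⟨hpos, fun q hq hqd => ?_⟩
    have h1 := hodd q hqd
    by_contra hcon
    push Not at hcon
    exact hex ⟨q, hq, hqd, by omega⟩

end Jes95
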