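import Pool.Agent.LibJes95.S1
namespace Jes95

private theorem s2_tele (T n : ℕ) :
    ∑ k ∈ Finset.range n, (1 : ℝ) / ((T + 1 + k : ℕ) : ℝ) ^ 2 ≤
      2 / ((T : ℝ) + 1) - 2 / ((T : ℝ) + 1 + n) := by
  induction n with
  | zero => simp
  | succ n ih =>
    rw [Finset.sum_range_succ]
    have hT : (0 : ℝ) ≤ T := Nat.cast_nonneg T
    have hn : (0 : ℝ) ≤ n := Nat.cast_nonneg n
    have h1 : (1 : ℝ) / ((T + 1 + n : ℕ) : ℝ) ^ 2 ≤
        2 / ((T : ℝ) + 1 + n) - 2 / ((T : ℝ) + 1 + (n + 1 : ℕ)) := by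
      push_cast
      set x : ℝ := (T : ℝ) + 1 + n with hx
      have hx1 : 1 ≤ x := by rw [hx]; linarith
      have hx2 : (T : ℝ) + 1 + (n + 1) = x + 1 := by rw [hx]; ring
      rw [hx2, div_sub_div _ _ (by linarith) (by linarith),
        div_le_div_iff₀ (by positivity) (by positivity)]
      nlinarith
    linarith

private theorem s2_sum (T M : ℕ) :
    ∑ P ∈ Finset.Icc (T + 1) M, (1 : ℝ) / (P : ℝ) ^ 2 ≤ 2 / ((T : ℝ) + 1) := by
  have h : Finset.Icc (T + 1) M = (Finset.range (M - T)).image (fun k => T + 1 + k) := by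
    ext x
    simp only [Finset.mem_Icc, Finset.mem_image, Finset.mem_range]
    constructor
    · intro hx; exact ⟨x - (T + 1), by omega, by omega⟩
    · rintro ⟨k, hk, rfl⟩; omega
  rw [h, Finset.sum_image (fun x _ y _ hxy => by simpa using hxy)]
  have h1 := s2_tele T (M - T)
  have h2 : (0 : ℝ) ≤ 2 / ((T : ℝ) + 1 + (M - T : ℕ)) := by positivity
  linarith

/-- `∑_{T < P ≤ M} (M/P^2 + 1) ≤ 2M/(T+1) + π(M)`, `T + 1 ≥ (log M)/2`-ish and
`Chebyshev.pi_le_log4_mul_div`. -/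
theorem prime_sum_bound : ∃ K : ℝ, 0 < K ∧ ∀ M : ℕ, 2 ≤ M →
    ((∑ P ∈ (Finset.Icc (TT M + 1) M).filter Nat.Prime, (M / P ^ 2 + 1) : ℕ) : ℝ)
      ≤ K * M / √(Real.log M) := by
  refine ⟨15, by norm_num, fun M hM => ?_⟩
  have hM2 : (2 : ℝ) ≤ M := by exact_mod_cast hM
  have hM0 : (0 : ℝ) < M := by linarith
  have hlog2 : (1 : ℝ) / 4 ≤ Real.log M := by
    have h1 := Real.log_two_gt_d9
    have h2 := Real.log_le_log (by norm_num) hM2
    linarith
  have hlog0 : 0 < Real.log M := by linarith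
  set s := √(Real.log M) with hs
  have hs0 : 0 < s := Real.sqrt_pos.2 hlog0
  have hss : s * s = Real.log M := Real.mul_self_sqrt hlog0.le
  have hs2 : 1 / 2 ≤ s := by
    by_contra hcon
    push Not at hcon
    nlinarith
  -- the number of primes
  have hpi : ((((Finset.Icc (TT M + 1) M).filter Nat.Prime).card : ℕ) : ℝ) ≤
      (Nat.primeCounting M : ℝ) := by
    rw [Nat.primeCounting, Nat.primeCounting', Nat.count_eq_card_filter_range]
    refine Nat.cast_le.2 (Finset.card_le_card ?_)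
    intro x hx
    simp only [Finset.mem_filter, Finset.mem_Icc, Finset.mem_range] at hx ⊢
    exact ⟨by omega, hx.2⟩
  have hcheb := Chebyshev.pi_le_log4_mul_div (x := (M : ℝ)) (by linarith)
  rw [Nat.floor_natCast, Real.log_sqrt hM0.le] at hcheb
  have hlog4 : Real.log 4 ≤ 2 := by
    have h1 : Real.log 4 = 2 * Real.log 2 := by
      rw [show (4 : ℝ) = 2 ^ 2 by norm_num, Real.log_pow]; norm_num
    have h2 := Real.log_two_lt_d9
    rw [h1]; linarith
  have hA : Real.log 4 * M / (Real.log M / 2) ≤ 8 * M / s := by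
    rw [div_le_div_iff₀ (by positivity) hs0, ← hss]
    have h1 : Real.log 4 * M * s ≤ 2 * M * s := by gcongr
    have h2 : 2 * M * s ≤ 8 * M * (s * s / 2) := by
      have : 0 ≤ M * s * (s - 1 / 2) := by
        have : 0 ≤ s - 1 / 2 := by linarith
        positivity
      nlinarith
    linarith
  have hB : √(M : ℝ) ≤ 1 * M / s := by
    rw [le_div_iff₀ hs0, one_mul]
    have h1 : s ≤ √(M : ℝ) := Real.sqrt_le_sqrt (Real.log_le_self hM0.le)
    calc √(M : ℝ) * s ≤ √(M : ℝ) * √(M : ℝ) := by gcongr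
      _ = M := Real.mul_self_sqrt hM0.le
  -- the main sum
  have hT : Real.log M ≤ 3 / 2 * ((TT M : ℝ) + 1) := by
    have h1 : M ^ 2 ≤ 2 ^ (3 * (TT M + 1)) := TT_spec (Nat.lt_succ_self _)
    have h2 : ((M : ℝ)) ^ 2 ≤ 2 ^ (3 * (TT M + 1)) := by exact_mod_cast h1
    have h3 := Real.log_le_log (by positivity) h2
    rw [Real.log_pow, Real.log_pow] at h3
    push_cast at h3
    have h4 := Real.log_two_lt_d9
    have h5 : (0 : ℝ) ≤ (TT M : ℝ) + 1 := by positivity
    nlinarith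
  have hC : (M : ℝ) * (2 / ((TT M : ℝ) + 1)) ≤ 6 * M / s := by
    have hT1 : (0 : ℝ) < (TT M : ℝ) + 1 := by positivity
    rw [← mul_div_assoc, div_le_div_iff₀ hT1 hs0]
    have h1 : s * s ≤ 3 / 2 * ((TT M : ℝ) + 1) := hss ▸ hT
    have h2 : s ≤ 3 * ((TT M : ℝ) + 1) := by nlinarith
    calc (M : ℝ) * 2 * s ≤ (M : ℝ) * 2 * (3 * ((TT M : ℝ) + 1)) := by gcongr
      _ = 6 * M * ((TT M : ℝ) + 1) := by ring
  have hmain : ((∑ P ∈ (Finset.Icc (TT M + 1) M).filter Nat.Prime, (M / P ^ 2 + 1) : ℕ) : ℝ) ≤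
      M * (2 / ((TT M : ℝ) + 1)) +
        ((((Finset.Icc (TT M + 1) M).filter Nat.Prime).card : ℕ) : ℝ) := by
    rw [Finset.sum_add_distrib]
    push_cast
    rw [Finset.sum_const, nsmul_eq_mul, mul_one]
    refine add_le_add ?_ le_rfl
    calc ∑ P ∈ (Finset.Icc (TT M + 1) M).filter Nat.Prime, ((M / P ^ 2 : ℕ) : ℝ)
        ≤ ∑ P ∈ (Finset.Icc (TT M + 1) M).filter Nat.Prime, (M : ℝ) * (1 / (P : ℝ) ^ 2) := by
          refine Finset.sum_le_sum fun P _ => ?_
          refine (Nat.cast_div_le).trans (le_of_eq ?_)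
          push_cast
          ring
      _ ≤ ∑ P ∈ Finset.Icc (TT M + 1) M, (M : ℝ) * (1 / (P : ℝ) ^ 2) :=
          Finset.sum_le_sum_of_subset_of_nonneg (Finset.filter_subset _ _)
            fun _ _ _ => by positivity
      _ = M * ∑ P ∈ Finset.Icc (TT M + 1) M, 1 / (P : ℝ) ^ 2 := by rw [Finset.mul_sum]
      _ ≤ M * (2 / ((TT M : ℝ) + 1)) := by
          have := s2_sum (TT M) M
          gcongr
  calc _ ≤ M * (2 / ((TT M : ℝ) + 1)) +
        ((((Finset.Icc (TT M + 1) M).filter Nat.Prime).card : ℕ) : ℝ) := hmain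
    _ ≤ 6 * M / s + (8 * M / s + 1 * M / s) := by linarith
    _ = 15 * M / s := by ring

end Jes95
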