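import Pool.Agent.LibJes95.W2
namespace Jes95

private theorem w3_card (S : Set ℕ) (M Q : ℕ) (h1 : ∀ x ∈ S, x ≤ M)
    (h2 : ∀ x ∈ S, ∀ y ∈ S, x ≡ y [MOD Q]) : S.ncard ≤ M / Q + 1 := by
  have h3 : S.ncard ≤ ((Finset.range (M / Q + 1) : Finset ℕ) : Set ℕ).ncard := by
    refine Set.ncard_le_ncard_of_injOn (fun x => x / Q) ?_ ?_ (Finset.finite_toSet _)
    · intro x hx
      have h4 : x / Q ≤ M / Q := Nat.div_le_div_right (h1 x hx)
      simp only [Finset.coe_range, Set.mem_Iio]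
      omega
    · intro x hx y hy hxy
      have h4 : x / Q = y / Q := hxy
      have h5 : x % Q = y % Q := h2 x hx y hy
      rw [← Nat.div_add_mod x Q, ← Nat.div_add_mod y Q, h4, h5]
  rw [Set.ncard_coe_finset, Finset.card_range] at h3
  exact h3

/-- Row count: `n` fixed; all the `m` are congruent mod `P` (to `n`), so by `wief_unique`
(with the roles of `m` and `n` exchanged, `2*m*n = 2*n*m`) congruent mod `P^2`. -/
theorem wief_row {P n M : ℕ} (hP : P.Prime) (hP2 : P ≠ 2) (hn : 0 < n) (hPn : ¬ P ∣ n) :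
    ({m : ℕ | m ≤ M ∧ n < m ∧ P ∣ m - n ∧ P ^ 2 ∣ (2 * m * n) ^ (P - 1) - 1}).ncard
      ≤ M / P ^ 2 + 1 := by
  apply w3_card
  · intro x hx
    exact hx.1
  · rintro x ⟨_, hx2, hx3, hx4⟩ y ⟨_, hy2, hy3, hy4⟩
    have e1 : x ≡ n [MOD P] := ((Nat.modEq_iff_dvd' hx2.le).2 hx3).symm
    have e2 : y ≡ n [MOD P] := ((Nat.modEq_iff_dvd' hy2.le).2 hy3).symm
    have e3 : 2 * x * n = 2 * n * x := by ring
    have e4 : 2 * y * n = 2 * n * y := by ring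
    rw [e3] at hx4
    rw [e4] at hy4
    exact wief_unique hP hP2 hn (by omega) (by omega) hPn (e1.trans e2.symm) hx4 hy4

/-- Column count: `m` fixed. -/
theorem wief_col {P m : ℕ} (hP : P.Prime) (hP2 : P ≠ 2) (hPm : ¬ P ∣ m) :
    ({n : ℕ | 0 < n ∧ n < m ∧ P ∣ m - n ∧ P ^ 2 ∣ (2 * m * n) ^ (P - 1) - 1}).ncard
      ≤ m / P ^ 2 + 1 := by
  apply w3_card
  · intro x hx
    exact hx.2.1.le
  · rintro x ⟨hx1, hx2, hx3, hx4⟩ y ⟨hy1, hy2, hy3, hy4⟩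
    have e1 : x ≡ m [MOD P] := (Nat.modEq_iff_dvd' hx2.le).2 hx3
    have e2 : y ≡ m [MOD P] := (Nat.modEq_iff_dvd' hy2.le).2 hy3
    exact wief_unique hP hP2 (by omega) hx1 hy1 hPm (e1.trans e2.symm) hx4 hy4

end Jes95
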