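import Pool.Agent.LibJes95.Crit
import Pool.Agent.LibJes95.W3
import Pool.Agent.LibJes95.L7
import Pool.Agent.LibJes95.S2
import Pool.Agent.LibJes95.R1
namespace Jes95

private lemma col_lan (K : ℝ) (hK : 0 < K)
    (h : ∀ j : ℕ, (j = 3 ∨ j = 5 ∨ j = 7) → ∀ x : ℕ, 2 ≤ x →
      (({s : ℕ | s ∈ Lan j ∧ s ≤ x}).ncard : ℝ) ≤ K * x / √(Real.log x)) (j : ℕ)
    (hj : j = 3 ∨ j = 5 ∨ j = 7) (m : ℕ) (hm : 2 ≤ m) :
    (({n : ℕ | n < m ∧ m + n ∈ Lan j}).ncard : ℝ) ≤ 2 * K * m / √(Real.log m) := by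
  have h1 := h j hj (2 * m) (by omega)
  have hfin : ({s : ℕ | s ∈ Lan j ∧ s ≤ 2 * m}).Finite :=
    (Set.finite_Iic (2 * m)).subset (fun s hs => hs.2)
  have h2 : ({n : ℕ | n < m ∧ m + n ∈ Lan j}).ncard ≤ ({s : ℕ | s ∈ Lan j ∧ s ≤ 2 * m}).ncard := by
    apply Set.ncard_le_ncard_of_injOn (fun n => m + n) _ _ hfin
    · rintro n ⟨hn, hn2⟩
      exact ⟨hn2, by show m + n ≤ 2 * m; omega⟩
    · intro a _ b _ hab
      exact Nat.add_left_cancel hab
  have hm' : (2 : ℝ) ≤ (m : ℝ) := by exact_mod_cast hm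
  have hlog : 0 < Real.log m := Real.log_pos (by linarith)
  have h3 : √(Real.log m) ≤ √(Real.log ((2 * m : ℕ) : ℝ)) := by
    apply Real.sqrt_le_sqrt
    apply Real.log_le_log (by linarith)
    push_cast
    linarith
  have h4 : 0 < √(Real.log m) := Real.sqrt_pos.2 hlog
  calc (({n : ℕ | n < m ∧ m + n ∈ Lan j}).ncard : ℝ)
      ≤ (({s : ℕ | s ∈ Lan j ∧ s ≤ 2 * m}).ncard : ℝ) := by exact_mod_cast h2
    _ ≤ K * ((2 * m : ℕ) : ℝ) / √(Real.log ((2 * m : ℕ) : ℝ)) := h1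
    _ ≤ K * ((2 * m : ℕ) : ℝ) / √(Real.log m) := by
        apply div_le_div_of_nonneg_left _ h4 h3
        positivity
    _ = 2 * K * m / √(Real.log m) := by push_cast; ring

/-- Columns: as `row_bound`, with `m` fixed and `M = m`. -/
theorem col_bound : ∃ K : ℝ, 0 < K ∧ ∀ m : ℕ, 2 ≤ m →
    (({n : ℕ | Adm m n ∧ ¬ JesMN m n}).ncard : ℝ) ≤ K * m / √(Real.log m) := by
  obtain ⟨K1, hK1, H1⟩ := lan_bound
  obtain ⟨K2, hK2, H2⟩ := smooth_bound
  obtain ⟨K3, hK3, H3⟩ := prime_sum_bound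
  refine ⟨6 * K1 + K2 + K3, by positivity, fun m hm => ?_⟩
  set A : ℕ → Set ℕ := fun j => {n : ℕ | n < m ∧ m + n ∈ Lan j} with hA
  set B : Set ℕ := {n : ℕ | n < m ∧ ∀ p : ℕ, p.Prime → p ∣ m - n → p ≤ TT m} with hB
  set C : ℕ → Set ℕ := fun P => {n : ℕ | Adm m n ∧ P ∣ m - n ∧
    P ^ 2 ∣ (2 * m * n) ^ (P - 1) - 1} with hC
  set Q := (Finset.Icc (TT m + 1) m).filter Nat.Prime with hQ
  have hsub : {n : ℕ | Adm m n ∧ ¬ JesMN m n} ⊆
      (A 3 ∪ A 5 ∪ A 7) ∪ (B ∪ ⋃ P ∈ Q, C P) := by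
    rintro n ⟨hadm, hj⟩
    obtain ⟨hn0, hnm, hco, hodd⟩ := id hadm
    by_cases hp : ParCond m n
    · right
      by_cases hs : ∀ p : ℕ, p.Prime → p ∣ m - n → p ≤ TT m
      · left
        exact ⟨hnm, hs⟩
      · right
        push Not at hs
        obtain ⟨P, hP, hPd, hPT⟩ := hs
        rw [Set.mem_iUnion₂]
        have hPm : P ≤ m := (Nat.le_of_dvd (by omega) hPd).trans (Nat.sub_le _ _)
        refine ⟨P, ?_, hadm, hPd, ?_⟩
        · rw [hQ, Finset.mem_filter, Finset.mem_Icc]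
          exact ⟨⟨by omega, hPm⟩, hP⟩
        · by_contra hw
          exact hj (jes_of_prime hadm hp le_rfl hP hPd (TT_spec hPT) hw)
    · left
      rcases lan_of_not_parCond hadm hp with h | h | h
      · left; left; exact ⟨hnm, h⟩
      · left; right; exact ⟨hnm, h⟩
      · right; exact ⟨hnm, h⟩
  have hfinA : ∀ j, (A j).Finite := fun j => (Set.finite_Iio m).subset (fun n hn => hn.1)
  have hfinB : B.Finite := (Set.finite_Iio m).subset (fun n hn => hn.1)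
  have hfinC : ∀ P, (C P).Finite := fun P => (Set.finite_Iio m).subset (fun n hn => hn.1.2.1)
  have hfinU : ((A 3 ∪ A 5 ∪ A 7) ∪ (B ∪ ⋃ P ∈ Q, C P)).Finite := by
    refine (((hfinA 3).union (hfinA 5)).union (hfinA 7)).union (hfinB.union ?_)
    exact Set.Finite.biUnion Q.finite_toSet (fun P _ => hfinC P)
  have hBcard : (B.ncard : ℝ) ≤ K2 * m / √(Real.log m) := by
    refine le_trans ?_ (H2 m hm)
    have hfin : ({k : ℕ | 0 < k ∧ k ≤ m ∧ ∀ p : ℕ, p.Prime → p ∣ k → p ≤ TT m}).Finite :=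
      (Set.finite_Iic m).subset (fun s hs => hs.2.1)
    have : B.ncard ≤ ({k : ℕ | 0 < k ∧ k ≤ m ∧ ∀ p : ℕ, p.Prime → p ∣ k → p ≤ TT m}).ncard := by
      apply Set.ncard_le_ncard_of_injOn (fun n => m - n) _ _ hfin
      · rintro n ⟨hn, hn2⟩
        exact ⟨by show 0 < m - n; omega, by show m - n ≤ m; omega, hn2⟩
      · intro a ha b hb hab
        have h1 : a < m := ha.1
        have h2 : b < m := hb.1
        have h3 : m - a = m - b := hab
        omega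
    exact_mod_cast this
  have hCcard : ∀ P ∈ Q, (C P).ncard ≤ m / P ^ 2 + 1 := by
    intro P hP
    rw [hQ, Finset.mem_filter] at hP
    obtain ⟨-, hPp⟩ := hP
    by_cases hP2 : P = 2
    · have : C P = ∅ := by
        rw [Set.eq_empty_iff_forall_notMem]
        rintro n ⟨⟨hn0, hnm, hco, hodd⟩, hd, -⟩
        rw [hP2] at hd
        obtain ⟨t, ht⟩ := hd
        omega
      rw [this, Set.ncard_empty]
      exact Nat.zero_le _
    by_cases hPm : P ∣ m
    · have : C P = ∅ := by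
        rw [Set.eq_empty_iff_forall_notMem]
        rintro n ⟨⟨hn0, hnm, hco, hodd⟩, hd, -⟩
        have hPn : P ∣ n := by
          have := (Nat.dvd_sub_iff_right hnm.le hPm).1 hd
          exact this
        have := Nat.dvd_gcd hPm hPn
        rw [Nat.Coprime.gcd_eq_one hco] at this
        exact hPp.one_lt.ne' (Nat.dvd_one.1 this)
      rw [this, Set.ncard_empty]
      exact Nat.zero_le _
    · refine le_trans (Set.ncard_le_ncard ?_ ?_) (wief_col hPp hP2 hPm)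
      · rintro n ⟨⟨hn0, hnm, hco, hodd⟩, hd, hw⟩
        exact ⟨hn0, hnm, hd, hw⟩
      · exact (Set.finite_Iio m).subset (fun n hn => hn.2.1)
  have hUC : (⋃ P ∈ Q, C P).ncard ≤ ∑ P ∈ Q, (m / P ^ 2 + 1) :=
    (Finset.set_ncard_biUnion_le Q C).trans (Finset.sum_le_sum hCcard)
  have hUC' : ((⋃ P ∈ Q, C P).ncard : ℝ) ≤ K3 * m / √(Real.log m) := by
    refine le_trans ?_ (H3 m hm)
    exact_mod_cast hUC
  have htot : ({n : ℕ | Adm m n ∧ ¬ JesMN m n}).ncard ≤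
      ((A 3).ncard + (A 5).ncard + (A 7).ncard) + (B.ncard + (⋃ P ∈ Q, C P).ncard) := by
    refine (Set.ncard_le_ncard hsub hfinU).trans ?_
    refine (Set.ncard_union_le _ _).trans ?_
    refine Nat.add_le_add ?_ (Set.ncard_union_le _ _)
    refine (Set.ncard_union_le _ _).trans ?_
    exact Nat.add_le_add_right (Set.ncard_union_le _ _) _
  have htot' : (({n : ℕ | Adm m n ∧ ¬ JesMN m n}).ncard : ℝ) ≤
      (((A 3).ncard : ℝ) + (A 5).ncard + (A 7).ncard) + (B.ncard + (⋃ P ∈ Q, C P).ncard) := by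
    exact_mod_cast htot
  have a3 := col_lan K1 hK1 H1 3 (by simp) m hm
  have a5 := col_lan K1 hK1 H1 5 (by simp) m hm
  have a7 := col_lan K1 hK1 H1 7 (by simp) m hm
  have e1 : (6 * K1 + K2 + K3) * m / √(Real.log m) =
      (2 * K1 * m / √(Real.log m) + 2 * K1 * m / √(Real.log m) + 2 * K1 * m / √(Real.log m)) +
      (K2 * m / √(Real.log m) + K3 * m / √(Real.log m)) := by ring
  rw [e1]
  refine htot'.trans ?_
  gcongr

end Jes95
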