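import Pool.Agent.LibJes95.Defs
namespace Jes95

private theorem e2_le {a : ℕ} (ha : a ≠ 0) : 2 ^ padicValNat 2 a ≤ a :=
  Nat.le_of_dvd (Nat.pos_of_ne_zero ha) pow_padicValNat_dvd

private theorem e2_one {a : ℕ} (ha : a ≠ 0) (h : ¬ 4 ∣ a) : padicValNat 2 a ≤ 1 := by
  by_contra h1
  push Not at h1
  apply h
  have h2 := (padicValNat_dvd_iff_le (p := 2) ha (n := 2)).2 h1
  exact h2

/-- The 2-adic bound.  `x` odd: `(r^x - s^x)/(r - s)` is odd, so `2^k ∣ r - s`.
`x` even: `padicValNat.pow_two_sub_pow`, and one of `r + s`, `r - s` is `2 mod 4`. -/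
theorem two_adic {r s x k : ℕ} (hr : Odd r) (hs : Odd s) (hsr : s < r) (hx : 0 < x)
    (h : 2 ^ k ∣ r ^ x - s ^ x) : 2 ^ k ≤ (r + s) * x := by
  have hlt : s ^ x < r ^ x := Nat.pow_lt_pow_left hsr hx.ne'
  rcases Nat.even_or_odd x with he | ho
  · have h1 := padicValNat.pow_two_sub_pow hsr (by obtain ⟨a, ha⟩ := hr; obtain ⟨b, hb⟩ := hs; omega)
      (by obtain ⟨a, ha⟩ := hr; omega) hx.ne' he
    have h2 : k ≤ padicValNat 2 (r ^ x - s ^ x) :=
      (padicValNat_dvd_iff_le (p := 2) (by omega)).1 h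
    have hx1 := e2_le hx.ne'
    have hp1 := e2_le (a := r + s) (by omega)
    have hm1 := e2_le (a := r - s) (by omega)
    by_cases h4 : 4 ∣ r + s
    · have h5 : padicValNat 2 (r - s) ≤ 1 := e2_one (by omega) (by
        obtain ⟨a, ha⟩ := hr
        obtain ⟨b, hb⟩ := hs
        omega)
      calc 2 ^ k ≤ 2 ^ (padicValNat 2 (r + s) + padicValNat 2 x) :=
            Nat.pow_le_pow_right (by norm_num) (by omega)
        _ = 2 ^ padicValNat 2 (r + s) * 2 ^ padicValNat 2 x := pow_add _ _ _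
        _ ≤ (r + s) * x := Nat.mul_le_mul hp1 hx1
    · have h5 : padicValNat 2 (r + s) ≤ 1 := e2_one (by omega) h4
      calc 2 ^ k ≤ 2 ^ (padicValNat 2 (r - s) + padicValNat 2 x) :=
            Nat.pow_le_pow_right (by norm_num) (by omega)
        _ = 2 ^ padicValNat 2 (r - s) * 2 ^ padicValNat 2 x := pow_add _ _ _
        _ ≤ (r - s) * x := Nat.mul_le_mul hm1 hx1
        _ ≤ (r + s) * x := Nat.mul_le_mul_right _ (by omega)
  · have hgeom : (∑ i ∈ Finset.range x, r ^ i * s ^ (x - 1 - i)) * (r - s) = r ^ x - s ^ x := by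
      have h1 := (Commute.all (r : ℤ) (s : ℤ)).geom_sum₂_mul x
      zify [hsr.le, hlt.le]
      exact h1
    have hodd : Odd (∑ i ∈ Finset.range x, r ^ i * s ^ (x - 1 - i)) := by
      rw [← ZMod.natCast_eq_one_iff_odd]
      push_cast
      have hr1 : (r : ZMod 2) = 1 := ZMod.natCast_eq_one_iff_odd.2 hr
      have hs1 : (s : ZMod 2) = 1 := ZMod.natCast_eq_one_iff_odd.2 hs
      rw [hr1, hs1]
      simp only [one_pow, mul_one, Finset.sum_const, Finset.card_range, nsmul_eq_mul]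
      exact ZMod.natCast_eq_one_iff_odd.2 ho
    rw [← hgeom] at h
    have hcop : Nat.Coprime (2 ^ k) (∑ i ∈ Finset.range x, r ^ i * s ^ (x - 1 - i)) :=
      Nat.Coprime.pow_left k ((Nat.coprime_two_left).2 hodd)
    have h2 : 2 ^ k ∣ r - s := hcop.dvd_of_dvd_mul_left h
    have h3 : 2 ^ k ≤ r - s := Nat.le_of_dvd (by omega) h2
    calc 2 ^ k ≤ r - s := h3
      _ ≤ (r + s) * 1 := by omega
      _ ≤ (r + s) * x := Nat.mul_le_mul_left _ hx

end Jes95
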