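import Pool.Agent.LibJes95.Defs
namespace Jes95

/-- `r^x - s^x = (r-s) ∑ r^i s^(x-1-i)`, `r - s ≥ 2`, and by Cauchy-Schwarz (or AM-GM)
`(∑_{i<x} r^i s^(x-1-i))^2 = (∑ t_i)(∑ t_{x-1-i}) ≥ x^2 (r s)^(x-1)`. -/
theorem amgm {r s x : ℕ} (hr : Odd r) (hs : Odd s) (hsr : s < r) (hx : 0 < x) :
    4 * (x ^ 2 * (r * s) ^ (x - 1)) ≤ (r ^ x - s ^ x) ^ 2 := by
  have hle : s ^ x ≤ r ^ x := Nat.pow_le_pow_left hsr.le x
  have h2 : s + 2 ≤ r := by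
    obtain ⟨u, hu⟩ := hr
    obtain ⟨v, hv⟩ := hs
    omega
  set T : ℝ := ∑ i ∈ Finset.range x, (r : ℝ) ^ i * (s : ℝ) ^ (x - 1 - i) with hT
  have hT0 : 0 ≤ T := Finset.sum_nonneg (fun i _ => by positivity)
  have hgeom : T * ((r : ℝ) - s) = (r : ℝ) ^ x - (s : ℝ) ^ x :=
    (Commute.all _ _).geom_sum₂_mul x
  have hT' : ∑ i ∈ Finset.range x, (r : ℝ) ^ (x - 1 - i) * (s : ℝ) ^ i = T := by
    rw [hT, ← Finset.sum_range_reflect]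
    apply Finset.sum_congr rfl
    intro i hi
    have hi' := Finset.mem_range.mp hi
    have e1 : x - 1 - (x - 1 - i) = i := by omega
    rw [e1]
  have hCS := Finset.sum_mul_sq_le_sq_mul_sq (Finset.range x)
    (fun i => √((r : ℝ) ^ i * (s : ℝ) ^ (x - 1 - i)))
    (fun i => √((r : ℝ) ^ (x - 1 - i) * (s : ℝ) ^ i))
  have e1 : ∀ i ∈ Finset.range x, √((r : ℝ) ^ i * (s : ℝ) ^ (x - 1 - i)) *
      √((r : ℝ) ^ (x - 1 - i) * (s : ℝ) ^ i) = √(((r : ℝ) * s) ^ (x - 1)) := by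
    intro i hi
    have hi' := Finset.mem_range.mp hi
    rw [← Real.sqrt_mul (by positivity)]
    congr 1
    have h3 : x - 1 = i + (x - 1 - i) := by omega
    calc (r : ℝ) ^ i * (s : ℝ) ^ (x - 1 - i) * ((r : ℝ) ^ (x - 1 - i) * (s : ℝ) ^ i)
        = ((r : ℝ) * s) ^ i * ((r : ℝ) * s) ^ (x - 1 - i) := by
          rw [mul_pow, mul_pow]; ring
      _ = ((r : ℝ) * s) ^ (i + (x - 1 - i)) := by rw [pow_add]
      _ = _ := by rw [← h3]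
  have e2 : ∀ i ∈ Finset.range x, √((r : ℝ) ^ i * (s : ℝ) ^ (x - 1 - i)) ^ 2 =
      (r : ℝ) ^ i * (s : ℝ) ^ (x - 1 - i) := fun i _ => Real.sq_sqrt (by positivity)
  have e3 : ∀ i ∈ Finset.range x, √((r : ℝ) ^ (x - 1 - i) * (s : ℝ) ^ i) ^ 2 =
      (r : ℝ) ^ (x - 1 - i) * (s : ℝ) ^ i := fun i _ => Real.sq_sqrt (by positivity)
  rw [Finset.sum_congr rfl e1, Finset.sum_congr rfl e2, Finset.sum_congr rfl e3, hT', ← hT,
    Finset.sum_const, Finset.card_range, nsmul_eq_mul, mul_pow, Real.sq_sqrt (by positivity)] at hCS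
  -- hCS : x^2 * (r s)^(x-1) ≤ T * T
  have h3 : (4 : ℝ) * ((x : ℝ) ^ 2 * ((r : ℝ) * s) ^ (x - 1)) ≤ ((r : ℝ) ^ x - (s : ℝ) ^ x) ^ 2 := by
    rw [← hgeom]
    have h4 : (2 : ℝ) ≤ (r : ℝ) - s := by
      have : ((s + 2 : ℕ) : ℝ) ≤ r := by exact_mod_cast h2
      push_cast at this
      linarith
    have h5 : (4 : ℝ) ≤ ((r : ℝ) - s) ^ 2 := by nlinarith
    calc (4 : ℝ) * ((x : ℝ) ^ 2 * ((r : ℝ) * s) ^ (x - 1)) ≤ 4 * (T * T) := by gcongr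
      _ ≤ ((r : ℝ) - s) ^ 2 * (T * T) := by gcongr
      _ = (T * ((r : ℝ) - s)) ^ 2 := by ring
  have h4 : ((4 * (x ^ 2 * (r * s) ^ (x - 1)) : ℕ) : ℝ) ≤ (((r ^ x - s ^ x) ^ 2 : ℕ) : ℝ) := by
    push_cast [Nat.cast_sub hle]
    exact h3
  exact_mod_cast h4

end Jes95
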