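import Pool.Agent.LibJes95.Defs
namespace Jes95

/-- The case `Y = Z`: for every prime `p ∣ a` (odd), `padicValNat.pow_sub_pow` gives
`x v_p(a) = 2 v_p(a) + v_p(Y)`, hence `a^(x-2) ∣ Y`; but `a^x = c^(2Y) - b^(2Y) ≥ a^2 c^(2Y-2)`
gives `c^(2Y-2) ≤ Y`, so `Y = 1`. -/
theorem eqcase {a b c x Y : ℕ} (ha : Odd a) (ha1 : 1 < a) (hb0 : 0 < b)
    (hab : a.Coprime b) (h : a ^ 2 + b ^ 2 = c ^ 2) (hY : 0 < Y) (hx : 2 ≤ x)
    (e : a ^ x + b ^ (2 * Y) = c ^ (2 * Y)) : x = 2 ∧ Y = 1 := by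
  have hac : a < c := by
    by_contra hcon
    push Not at hcon
    have : c ^ 2 ≤ a ^ 2 := Nat.pow_le_pow_left hcon 2
    have : 0 < b ^ 2 := by positivity
    omega
  have e' : a ^ x + (b ^ 2) ^ Y = (c ^ 2) ^ Y := by
    rw [← pow_mul, ← pow_mul]; exact e
  have hbc : b ^ 2 < c ^ 2 := by
    have : 0 < a ^ 2 := by positivity
    omega
  have hsub : a ^ x = (c ^ 2) ^ Y - (b ^ 2) ^ Y := by omega
  have hsub2 : a ^ 2 = c ^ 2 - b ^ 2 := by omega
  have hdvd : a ^ (x - 2) ∣ Y := by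
    rw [← Nat.factorization_prime_le_iff_dvd (by positivity) hY.ne']
    intro p hp
    by_cases hpa : p ∣ a
    · have : Fact p.Prime := ⟨hp⟩
      have hp2 : Odd p := by
        rcases hp.eq_two_or_odd' with h2 | h2
        · exfalso
          rw [h2] at hpa
          exact (Nat.not_even_iff_odd.2 ha) (even_iff_two_dvd.2 hpa)
        · exact h2
      have h1 : p ∣ c ^ 2 - b ^ 2 := by
        rw [← hsub2]
        exact dvd_pow hpa (by norm_num)
      have h2 : ¬ p ∣ c ^ 2 := by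
        intro hd
        have h3 : p ∣ b ^ 2 := by
          rw [← h] at hd
          exact (Nat.dvd_add_right (dvd_pow hpa (by norm_num))).1 hd
        have h4 : p ∣ b := hp.dvd_of_dvd_pow h3
        have h5 : p ∣ Nat.gcd a b := Nat.dvd_gcd hpa h4
        rw [Nat.coprime_iff_gcd_eq_one.1 hab] at h5
        exact hp.one_lt.ne' (Nat.dvd_one.1 h5)
      have h3 := padicValNat.pow_sub_pow hp2 hbc h1 h2 hY.ne'
      rw [← hsub, ← hsub2, ← Nat.factorization_def _ hp, ← Nat.factorization_def _ hp,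
        ← Nat.factorization_def _ hp, Nat.factorization_pow, Nat.factorization_pow,
        Finsupp.smul_apply, Finsupp.smul_apply, smul_eq_mul, smul_eq_mul] at h3
      rw [Nat.factorization_pow, Finsupp.smul_apply, smul_eq_mul]
      obtain ⟨y, rfl⟩ := Nat.exists_eq_add_of_le hx
      have h4 : (2 + y) * a.factorization p = 2 * a.factorization p + y * a.factorization p := by
        ring
      have h5 : 2 + y - 2 = y := by omega
      rw [h5]
      omega
    · rw [Nat.factorization_pow]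
      simp [Nat.factorization_eq_zero_of_not_dvd hpa]
  have hle : a ^ (x - 2) ≤ Y := Nat.le_of_dvd hY hdvd
  have hax : a ^ x = a ^ 2 * a ^ (x - 2) := by
    rw [← pow_add]; congr 1; omega
  have hge : a ^ 2 * (c ^ 2) ^ (Y - 1) ≤ a ^ x := by
    obtain ⟨W, rfl⟩ := Nat.exists_eq_add_of_le hY
    have h5 : 1 + W - 1 = W := by omega
    rw [Nat.succ_eq_add_one, zero_add] at *
    rw [h5]
    have h6 : (b ^ 2) ^ (1 + W) ≤ b ^ 2 * (c ^ 2) ^ W := by
      rw [pow_add, pow_one]
      exact Nat.mul_le_mul_left _ (Nat.pow_le_pow_left hbc.le W)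
    have h7 : (c ^ 2) ^ (1 + W) = a ^ 2 * (c ^ 2) ^ W + b ^ 2 * (c ^ 2) ^ W := by
      rw [pow_add, pow_one, ← add_mul, h]
    omega
  have hcY : (c ^ 2) ^ (Y - 1) ≤ Y := by
    have h1 : a ^ 2 * (c ^ 2) ^ (Y - 1) ≤ a ^ 2 * Y :=
      hge.trans (by rw [hax]; exact Nat.mul_le_mul_left _ hle)
    exact Nat.le_of_mul_le_mul_left h1 (by positivity)
  have hY1 : Y = 1 := by
    by_contra hne
    have h2 : 2 ≤ Y := by omega
    have h3 : 4 ^ (Y - 1) ≤ (c ^ 2) ^ (Y - 1) := by
      apply Nat.pow_le_pow_left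
      nlinarith
    have h4 : ∀ n : ℕ, n + 2 < 4 ^ (n + 1) := by
      intro n
      induction n with
      | zero => norm_num
      | succ n ih => rw [pow_succ]; omega
    have h5 := h4 (Y - 2)
    have h6 : Y - 2 + 1 = Y - 1 := by omega
    rw [h6] at h5
    omega
  refine ⟨?_, hY1⟩
  rw [hY1] at hle
  have h1 : a ^ (x - 2) = 1 := by
    have : 0 < a ^ (x - 2) := by positivity
    omega
  rcases (Nat.pow_eq_one).1 h1 with h2 | h2
  · omega
  · omega

end Jes95
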