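import Pool.Agent.LibJes95.Defs
namespace Jes95

/-- `c^2 ≡ b^2 (mod a^2)`, so `b^(2Y) ≡ c^(2Z) ≡ b^(2Z) (mod a^2)`. -/
theorem ordcase {a b c x Y Z : ℕ} (hab : a.Coprime b) (h : a ^ 2 + b ^ 2 = c ^ 2)
    (hx : 2 ≤ x) (hZY : Z < Y) (e : a ^ x + b ^ (2 * Y) = c ^ (2 * Z)) :
    a ^ 2 ∣ b ^ (2 * (Y - Z)) - 1 := by
  rcases Nat.eq_zero_or_pos b with rfl | hb
  · have h1 : 2 * (Y - Z) ≠ 0 := by omega
    rw [zero_pow h1]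
    simp
  have h1 : c ^ 2 ≡ b ^ 2 [MOD a ^ 2] := by
    rw [← h]
    exact Nat.add_modEq_left
  have h2 : c ^ (2 * Z) ≡ b ^ (2 * Z) [MOD a ^ 2] := by
    rw [pow_mul, pow_mul]
    exact h1.pow Z
  have h3 : c ^ (2 * Z) ≡ b ^ (2 * Y) [MOD a ^ 2] := by
    rw [← e]
    have h4 : a ^ x ≡ 0 [MOD a ^ 2] := (Nat.modEq_zero_iff_dvd).2 (pow_dvd_pow a hx)
    have h5 := h4.add_right (b ^ (2 * Y))
    rwa [zero_add] at h5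
  have h4 : b ^ (2 * Z) * 1 ≡ b ^ (2 * Z) * b ^ (2 * (Y - Z)) [MOD a ^ 2] := by
    rw [mul_one, ← pow_add]
    have h5 : 2 * Z + 2 * (Y - Z) = 2 * Y := by omega
    rw [h5]
    exact h2.symm.trans h3
  have h5 : (a ^ 2).gcd (b ^ (2 * Z)) = 1 := Nat.Coprime.pow _ _ hab
  have h6 : 1 ≡ b ^ (2 * (Y - Z)) [MOD a ^ 2] := Nat.ModEq.cancel_left_of_coprime h5 h4
  exact (Nat.modEq_iff_dvd' (Nat.one_le_pow _ _ hb)).1 h6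

end Jes95
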