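import Pool.Agent.LibJes95.Defs
namespace Jes95

private theorem e7_aux (Y : ℕ) : Y ^ 4 ≤ 4 * 8 ^ Y := by
  rcases Nat.lt_or_ge Y 2 with h | h
  · interval_cases Y <;> norm_num
  · induction Y, h using Nat.le_induction with
    | base => norm_num
    | succ n hn ih =>
      have h1 : (n + 1) ^ 4 ≤ 8 * n ^ 4 := by
        have h2 : (n + 1) ^ 2 ≤ 2 * n ^ 2 + n ^ 2 / 2 := by
          obtain ⟨k, rfl⟩ := Nat.exists_eq_add_of_le hn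
          have : (2 + k) ^ 2 / 2 * 2 + 1 ≥ (2 + k) ^ 2 := by omega
          nlinarith
        have h3 : 2 * n ^ 2 + n ^ 2 / 2 ≤ 2 * n ^ 2 + n ^ 2 / 2 := le_refl _
        have h4 : 2 * (n ^ 2 / 2) ≤ n ^ 2 := Nat.mul_div_le _ _
        have h5 : 2 * (n + 1) ^ 2 ≤ 5 * n ^ 2 := by linarith
        have h6 : (2 * (n + 1) ^ 2) ^ 2 ≤ (5 * n ^ 2) ^ 2 := Nat.pow_le_pow_left h5 2
        have h7 : (2 * (n + 1) ^ 2) ^ 2 = 4 * (n + 1) ^ 4 := by ring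
        have h8 : (5 * n ^ 2) ^ 2 = 25 * n ^ 4 := by ring
        rw [h7, h8] at h6
        have h9 : 0 ≤ n ^ 4 := Nat.zero_le _
        linarith
      calc (n + 1) ^ 4 ≤ 8 * n ^ 4 := h1
        _ ≤ 8 * (4 * 8 ^ n) := Nat.mul_le_mul_left _ ih
        _ = 4 * 8 ^ (n + 1) := by ring

/-- Numerical contradiction for `a < b`:
`c^2 < 2b^2`, so `c^2 b^(2Y) < c^(2Y) ≤ 2^Y b^(2Y)` gives `c^2 < 2^Y`;
`3^(x-1) ≤ a^(x-1) ≤ b^(2Y) < c^(2Y) < 2^(Y^2)` gives `x ≤ Y^2`; then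
`4*16^Y ≤ c^2 x^2 < 2^Y Y^4`, i.e. `4*8^Y < Y^4`, which is false. -/
theorem num1 {a b c x Y : ℕ} (ha : 3 ≤ a) (hab : a < b) (h : a ^ 2 + b ^ 2 = c ^ 2)
    (hx : 2 ≤ x) (hY : 0 < Y) (h1 : c * b ^ Y < c ^ Y) (h2 : 2 * 4 ^ Y ≤ (a + 1) * x)
    (h3 : x ^ 2 * a ^ (x - 1) ≤ b ^ (2 * Y)) : False := by
  have hb : 0 < b := by omega
  have hbc : b < c := by
    by_contra hcon
    push Not at hcon
    have : c ^ 2 ≤ b ^ 2 := Nat.pow_le_pow_left hcon 2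
    have : 0 < a ^ 2 := by positivity
    omega
  have hc2 : c ^ 2 < 2 * b ^ 2 := by
    have : a ^ 2 < b ^ 2 := Nat.pow_lt_pow_left hab (by norm_num)
    omega
  -- first step
  have s1 : c ^ 2 < 2 ^ Y := by
    have e1 : (c * b ^ Y) ^ 2 < (c ^ Y) ^ 2 := Nat.pow_lt_pow_left h1 (by norm_num)
    have e2 : (c ^ Y) ^ 2 = (c ^ 2) ^ Y := by rw [← pow_mul, ← pow_mul, mul_comm]
    have e3 : (c ^ 2) ^ Y < (2 * b ^ 2) ^ Y := Nat.pow_lt_pow_left hc2 hY.ne'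
    have e4 : (2 * b ^ 2) ^ Y = 2 ^ Y * (b ^ Y) ^ 2 := by
      rw [mul_pow, ← pow_mul, ← pow_mul, mul_comm 2 Y]
    have e5 : (c * b ^ Y) ^ 2 = c ^ 2 * (b ^ Y) ^ 2 := by ring
    rw [e5, e2] at e1
    rw [e4] at e3
    exact Nat.lt_of_mul_lt_mul_right (e1.trans e3)
  -- second step
  have s2 : x ≤ Y ^ 2 := by
    have e1 : 3 ^ (x - 1) < 3 ^ (Y ^ 2) := by
      calc 3 ^ (x - 1) ≤ a ^ (x - 1) := Nat.pow_le_pow_left ha _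
        _ ≤ x ^ 2 * a ^ (x - 1) := Nat.le_mul_of_pos_left _ (by positivity)
        _ ≤ b ^ (2 * Y) := h3
        _ < c ^ (2 * Y) := Nat.pow_lt_pow_left hbc (by omega)
        _ = (c ^ 2) ^ Y := by rw [pow_mul]
        _ < (2 ^ Y) ^ Y := Nat.pow_lt_pow_left s1 hY.ne'
        _ = 2 ^ (Y ^ 2) := by rw [← pow_mul, sq]
        _ ≤ 3 ^ (Y ^ 2) := Nat.pow_le_pow_left (by norm_num) _
    have := (Nat.pow_lt_pow_iff_right (by norm_num : 1 < 3)).1 e1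
    omega
  -- third step
  have hac : a + 1 ≤ c := by omega
  have e1 : 2 * 4 ^ Y ≤ c * x := h2.trans (Nat.mul_le_mul_right _ hac)
  have e2 : (2 * 4 ^ Y) ^ 2 ≤ (c * x) ^ 2 := Nat.pow_le_pow_left e1 2
  have e3 : (c * x) ^ 2 < 2 ^ Y * (Y ^ 2) ^ 2 := by
    rw [mul_pow]
    have hx2 : x ^ 2 ≤ (Y ^ 2) ^ 2 := Nat.pow_le_pow_left s2 2
    have : 0 < (Y ^ 2) ^ 2 := by positivity
    exact Nat.mul_lt_mul_of_lt_of_le s1 hx2 this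
  have e4 : (2 * 4 ^ Y) ^ 2 = 2 ^ Y * (4 * 8 ^ Y) := by
    have : (4 : ℕ) ^ Y = 2 ^ Y * 2 ^ Y := by rw [← mul_pow]; norm_num
    have h8 : (8 : ℕ) ^ Y = 2 ^ Y * 2 ^ Y * 2 ^ Y := by rw [← mul_pow, ← mul_pow]; norm_num
    rw [this, h8]
    ring
  rw [e4] at e2
  have e5 : 4 * 8 ^ Y < (Y ^ 2) ^ 2 := Nat.lt_of_mul_lt_mul_left (e2.trans_lt e3)
  have e6 : (Y ^ 2) ^ 2 = Y ^ 4 := by ring
  rw [e6] at e5
  exact absurd (e7_aux Y) (not_le.mpr e5)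

end Jes95
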