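import Pool.Agent.LibJes95.Defs
namespace Jes95

private theorem e8_pow (n : ℕ) : (n + 4) ^ 4 ≤ 4 ^ (n + 4) := by
  induction n with
  | zero => norm_num
  | succ n ih =>
    have h1 : (n + 1 + 4) ^ 4 ≤ 4 * (n + 4) ^ 4 := by
      have h2 : 4 * (n + 4) ^ 4 = (n + 1 + 4) ^ 4 +
          (3 * n ^ 4 + 44 * n ^ 3 + 234 * n ^ 2 + 524 * n + 399) := by ring
      omega
    calc (n + 1 + 4) ^ 4 ≤ 4 * (n + 4) ^ 4 := h1
      _ ≤ 4 * 4 ^ (n + 4) := Nat.mul_le_mul_left _ ih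
      _ = 4 ^ (n + 1 + 4) := by ring

/-- Numerical contradiction for `b < a`: `a^(x-1) < a^(2Y)` gives `x ≤ 2Y`, hence
`2^(k Y) ≤ (a+1) Y ≤ c Y`; `c^(4δ) b^(4Y) < c^(4Y) ≤ 2^(3kDY) b^(4Y)` gives `c^4 < 2^(3kY) ≤ (cY)^3`,
so `c < Y^3`, `4^Y < Y^4`, `Y = 3`, `c < 27`, `64 ≤ 3(a+1)`, `a ≥ 21`: no such `a < c` with
`c^2 - a^2` a square and `a` odd. -/
theorem num2 {a b c x Y k δ D : ℕ} (ha : Odd a) (hb : 0 < b) (hba : b < a)
    (h : a ^ 2 + b ^ 2 = c ^ 2) (hk : 2 ≤ k) (hx : 2 ≤ x) (hD0 : 0 < D) (hD : D ≤ δ)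
    (h1 : c ^ δ * b ^ Y < c ^ Y) (h2 : 2 ^ (k * Y + 1) ≤ (a + 1) * x)
    (h3 : x ^ 2 * a ^ (x - 1) ≤ b ^ (2 * Y)) (h4 : c ^ 4 ≤ 2 ^ (3 * k * D) * b ^ 4) : False := by
  have hac : a < c := by
    by_contra hcon
    push Not at hcon
    have : c ^ 2 ≤ a ^ 2 := Nat.pow_le_pow_left hcon 2
    have : 0 < b ^ 2 := by positivity
    omega
  have hc0 : 0 < c := by omega
  have hY : 0 < Y := by
    rcases Nat.eq_zero_or_pos Y with h0 | h0
    · exfalso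
      rw [h0] at h1
      simp only [pow_zero, mul_one] at h1
      have : 0 < c ^ δ := by positivity
      omega
    · exact h0
  have hx2 : x ≤ 2 * Y := by
    have h5 : a ^ (x - 1) ≤ x ^ 2 * a ^ (x - 1) := Nat.le_mul_of_pos_left _ (by positivity)
    have h6 : b ^ (2 * Y) < a ^ (2 * Y) := Nat.pow_lt_pow_left hba (by omega)
    have h7 : a ^ (x - 1) < a ^ (2 * Y) := by omega
    have h8 := (Nat.pow_lt_pow_iff_right (by omega : 1 < a)).1 h7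
    omega
  have h5 : 2 ^ (k * Y) ≤ (a + 1) * Y := by
    have h6 : (a + 1) * x ≤ (a + 1) * (2 * Y) := Nat.mul_le_mul_left _ hx2
    have h7 : 2 ^ (k * Y + 1) = 2 * 2 ^ (k * Y) := by ring
    have h8 : (a + 1) * (2 * Y) = 2 * ((a + 1) * Y) := by ring
    omega
  have h6 : 2 ^ (k * Y) ≤ c * Y := h5.trans (Nat.mul_le_mul_right _ hac)
  have h7 : c ^ 4 < 2 ^ (3 * k * Y) := by
    have e1 : (c ^ δ * b ^ Y) ^ 4 < (c ^ Y) ^ 4 := Nat.pow_lt_pow_left h1 (by norm_num)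
    have e2 : (c ^ 4) ^ Y ≤ (2 ^ (3 * k * D) * b ^ 4) ^ Y := Nat.pow_le_pow_left h4 Y
    have e3 : (c ^ 4) ^ δ * (b ^ 4) ^ Y < (2 ^ (3 * k * D)) ^ Y * (b ^ 4) ^ Y := by
      calc (c ^ 4) ^ δ * (b ^ 4) ^ Y = (c ^ δ * b ^ Y) ^ 4 := by ring
        _ < (c ^ Y) ^ 4 := e1
        _ = (c ^ 4) ^ Y := by ring
        _ ≤ (2 ^ (3 * k * D) * b ^ 4) ^ Y := e2
        _ = (2 ^ (3 * k * D)) ^ Y * (b ^ 4) ^ Y := by rw [mul_pow]
    have e4 : (c ^ 4) ^ δ < (2 ^ (3 * k * D)) ^ Y := lt_of_mul_lt_mul_right e3 (Nat.zero_le _)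
    have e5 : (2 ^ (3 * k * D)) ^ Y ≤ (2 ^ (3 * k * Y)) ^ δ := by
      rw [← pow_mul, ← pow_mul]
      apply Nat.pow_le_pow_right (by norm_num)
      calc 3 * k * D * Y = 3 * k * Y * D := by ring
        _ ≤ 3 * k * Y * δ := Nat.mul_le_mul_left _ hD
    exact lt_of_pow_lt_pow_left₀ δ (Nat.zero_le _) (e4.trans_le e5)
  have h8 : c < Y ^ 3 := by
    have e1 : 2 ^ (3 * k * Y) = (2 ^ (k * Y)) ^ 3 := by rw [← pow_mul]; congr 1; ring
    have e2 : (2 ^ (k * Y)) ^ 3 ≤ (c * Y) ^ 3 := Nat.pow_le_pow_left h6 3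
    have e3 : c ^ 3 * c < c ^ 3 * Y ^ 3 := by
      calc c ^ 3 * c = c ^ 4 := by ring
        _ < 2 ^ (3 * k * Y) := h7
        _ ≤ (c * Y) ^ 3 := by rw [e1]; exact e2
        _ = c ^ 3 * Y ^ 3 := by ring
    exact lt_of_mul_lt_mul_left e3 (Nat.zero_le _)
  have h9 : 4 ^ Y ≤ 2 ^ (k * Y) := by
    have : (4 : ℕ) = 2 ^ 2 := by norm_num
    rw [this, ← pow_mul]
    exact Nat.pow_le_pow_right (by norm_num) (Nat.mul_le_mul_right _ hk)
  have h10 : 4 ^ Y < Y ^ 4 := by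
    calc 4 ^ Y ≤ c * Y := h9.trans h6
      _ < Y ^ 3 * Y := Nat.mul_lt_mul_of_pos_right h8 hY
      _ = Y ^ 4 := by ring
  have hY3 : Y = 3 := by
    rcases Nat.lt_or_ge Y 4 with hlt | hge
    · interval_cases Y
      · norm_num at h10
      · norm_num at h10
      · rfl
    · exfalso
      obtain ⟨n, rfl⟩ := Nat.exists_eq_add_of_le hge
      have := e8_pow n
      rw [add_comm n 4] at this
      omega
  subst hY3
  have hc27 : c < 27 := by simpa using h8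
  have ha21 : 21 ≤ a := by
    have : 4 ^ 3 ≤ (a + 1) * 3 := h9.trans h5
    omega
  have ha26 : a < 26 := by omega
  have hb26 : b < 26 := by omega
  clear h1 h2 h3 h4 h5 h6 h7 h8 h9 h10
  have hodd : a % 2 = 1 := Nat.odd_iff.1 ha
  interval_cases a
  · interval_cases c <;> interval_cases b <;> omega
  · omega
  · interval_cases c <;> interval_cases b <;> omega
  · omega
  · interval_cases c <;> interval_cases b <;> omega

end Jes95
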