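import Pool.Agent.LibJes95.E1
import Pool.Agent.LibJes95.E2
import Pool.Agent.LibJes95.E3
import Pool.Agent.LibJes95.E5
import Pool.Agent.LibJes95.E6
import Pool.Agent.LibJes95.E7
import Pool.Agent.LibJes95.E8
namespace Jes95

theorem four_dvd {a b c : ℕ} (ha : Odd a) (hb : Even b) (h : a ^ 2 + b ^ 2 = c ^ 2) : 4 ∣ b := by
  obtain ⟨u, hu⟩ := ha
  obtain ⟨v, hv⟩ := hb
  have hc : Odd c := by
    rcases Nat.even_or_odd c with hc | hc
    · exfalso
      obtain ⟨w, hw⟩ := hc
      subst hu hv hw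
      have h1 : (2 * u + 1) ^ 2 = 4 * (u * u + u) + 1 := by ring
      have h2 : (v + v) ^ 2 = 4 * (v * v) := by ring
      have h3 : (w + w) ^ 2 = 4 * (w * w) := by ring
      omega
    · exact hc
  obtain ⟨w, hw⟩ := hc
  subst hu hv hw
  -- (2u+1)^2 + 4v^2 = (2w+1)^2
  have h8 : v * v + u * (u + 1) = w * (w + 1) := by nlinarith
  have e1 : Even (u * (u + 1)) := Nat.even_mul_succ_self u
  have e2 : Even (w * (w + 1)) := Nat.even_mul_succ_self w
  have e3 : Even (v * v) := by
    rw [← h8] at e2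
    exact (Nat.even_add.mp e2).mpr e1
  have e4 : Even v := by
    rcases Nat.even_mul.mp e3 with h | h <;> exact h
  obtain ⟨t, ht⟩ := e4
  exact ⟨t, by omega⟩

/-- All constraints on a non-trivial solution with even `y` and `z`. -/
theorem core {a b c x Y Z : ℕ} (ha : Odd a) (hb : Even b) (hb0 : 0 < b)
    (hab : a.Coprime b) (h : a ^ 2 + b ^ 2 = c ^ 2) (hx : 0 < x) (hY : 0 < Y) (hZ : 0 < Z)
    (e : a ^ x + b ^ (2 * Y) = c ^ (2 * Z)) (k : ℕ) (hkb : 2 ^ k ∣ b) :
    (x = 2 ∧ Y = 1 ∧ Z = 1) ∨ (3 ≤ a ∧ 2 ≤ x ∧ Z < Y ∧ a ^ 2 ∣ b ^ (2 * (Y - Z)) - 1 ∧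
      c ^ (Y - Z) * b ^ Y < c ^ Y ∧ 2 ^ (k * Y + 1) ≤ (a + 1) * x ∧
      x ^ 2 * a ^ (x - 1) ≤ b ^ (2 * Y)) := by
  obtain ⟨hx2, r, s, hrs, hr, hs, hsr, hs0, hro, hso⟩ := factor ha hb hb0 hab h hx hY hZ e
  have hc0 : 0 < c := by
    rcases Nat.eq_zero_or_pos c with hc | hc
    · subst hc
      have : 0 < b ^ 2 := by positivity
      omega
    · exact hc
  -- r^x - s^x = 2 b^Y
  have hdiff : r ^ x - s ^ x = 2 * b ^ Y := by omega
  -- a ≥ 3
  have hr3 : 3 ≤ r := by
    obtain ⟨t, ht⟩ := hro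
    omega
  have ha3 : 3 ≤ a := by
    rw [← hrs]
    nlinarith
  have h2a : 2 ^ (k * Y + 1) ≤ (a + 1) * x := by
    have hdv : 2 ^ (k * Y + 1) ∣ r ^ x - s ^ x := by
      rw [hdiff, pow_succ, mul_comm]
      apply Nat.mul_dvd_mul_left
      rw [pow_mul]
      exact pow_dvd_pow_of_dvd hkb Y
    have h1 := two_adic hro hso hsr hx hdv
    have h2 : r + s ≤ a + 1 := by
      rw [← hrs]
      nlinarith
    exact h1.trans (Nat.mul_le_mul_right x h2)
  have h3a : x ^ 2 * a ^ (x - 1) ≤ b ^ (2 * Y) := by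
    have h1 := amgm hro hso hsr hx
    rw [hdiff, hrs] at h1
    have h2 : (2 * b ^ Y) ^ 2 = 4 * b ^ (2 * Y) := by ring
    rw [h2] at h1
    omega
  have hac : a < c := by
    by_contra hcon
    push Not at hcon
    have : c ^ 2 ≤ a ^ 2 := Nat.pow_le_pow_left hcon 2
    have : 0 < b ^ 2 := by positivity
    omega
  have hbc : b < c := by
    by_contra hcon
    push Not at hcon
    have : c ^ 2 ≤ b ^ 2 := Nat.pow_le_pow_left hcon 2
    have : 0 < a ^ 2 := by positivity
    omega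
  -- Z ≤ Y
  have hZY : Z ≤ Y := by
    by_contra hcon
    push Not at hcon
    have h1 : 4 * a ^ x ≤ a * b ^ (2 * Y) := by
      have hx1 : a ^ x = a * a ^ (x - 1) := by
        rw [← pow_succ']
        congr 1
        omega
      have h4 : 4 ≤ x ^ 2 := by nlinarith
      calc 4 * a ^ x = a * (4 * a ^ (x - 1)) := by rw [hx1]; ring
        _ ≤ a * (x ^ 2 * a ^ (x - 1)) := by gcongr
        _ ≤ a * b ^ (2 * Y) := by gcongr
    have h2 : 4 * c ^ (2 * Z) ≤ (a + 4) * b ^ (2 * Y) := by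
      rw [← e]
      nlinarith
    have h3 : c ^ 2 * b ^ (2 * Y) ≤ c ^ (2 * Z) := by
      calc c ^ 2 * b ^ (2 * Y) ≤ c ^ 2 * c ^ (2 * Y) := by gcongr
        _ = c ^ (2 * Y + 2) := by rw [pow_add]; ring
        _ ≤ c ^ (2 * Z) := Nat.pow_le_pow_right hc0 (by omega)
    have h5 : 0 < b ^ (2 * Y) := by positivity
    have h6 : 4 * c ^ 2 * b ^ (2 * Y) ≤ (a + 4) * b ^ (2 * Y) := by nlinarith
    have h7 : 4 * c ^ 2 ≤ a + 4 := Nat.le_of_mul_le_mul_right h6 h5
    nlinarith
  rcases hZY.eq_or_lt with hZY | hZY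
  · left
    subst hZY
    obtain ⟨h1, h2⟩ := eqcase ha (by omega) hb0 hab h hY hx2 e
    exact ⟨h1, h2, h2⟩
  · right
    refine ⟨ha3, hx2, hZY, ordcase hab h hx2 hZY e, ?_, h2a, h3a⟩
    have h1 : b ^ Y < c ^ Z := by
      have : 0 < s ^ x := by positivity
      omega
    calc c ^ (Y - Z) * b ^ Y < c ^ (Y - Z) * c ^ Z := by
          have : 0 < c ^ (Y - Z) := by positivity
          exact Nat.mul_lt_mul_of_pos_left h1 this
      _ = c ^ Y := by rw [← pow_add]; congr 1; omega

/-- Even `y`, `z`: the version with an order hypothesis. -/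
theorem even_case_D {a b c x Y Z : ℕ} (ha : Odd a) (hb : Even b) (hb0 : 0 < b)
    (hab : a.Coprime b) (h : a ^ 2 + b ^ 2 = c ^ 2) (hx : 0 < x) (hY : 0 < Y) (hZ : 0 < Z)
    (e : a ^ x + b ^ (2 * Y) = c ^ (2 * Z)) (k D : ℕ) (hkb : 2 ^ k ∣ b)
    (hD : ∀ j, 0 < j → a ^ 2 ∣ b ^ (2 * j) - 1 → D ≤ j)
    (hc : c ^ 4 ≤ 2 ^ (3 * k * D) * b ^ 4) : x = 2 ∧ Y = 1 ∧ Z = 1 := by
  have h4b := four_dvd ha hb h
  -- we may assume `2 ≤ k` and `0 < D`
  wlog hk : 2 ≤ k generalizing k
  · apply this 2 (by simpa using h4b) (hc.trans _) le_rfl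
    apply Nat.mul_le_mul_right
    apply Nat.pow_le_pow_right (by norm_num)
    apply Nat.mul_le_mul_right
    omega
  rcases core ha hb hb0 hab h hx hY hZ e k hkb with h1 | ⟨ha3, hx2, hZY, hord, h1, h2, h3⟩
  · exact h1
  · exfalso
    have hc0 : 0 < c := by
      rcases Nat.eq_zero_or_pos c with hc | hc
      · subst hc
        have : 0 < b ^ 2 := by positivity
        omega
      · exact hc
    rcases lt_or_ge a b with hlt | hge
    · -- a < b
      refine num1 ha3 hlt h hx2 hY ?_ ?_ h3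
      · calc c * b ^ Y = c ^ 1 * b ^ Y := by ring
          _ ≤ c ^ (Y - Z) * b ^ Y := by
              apply Nat.mul_le_mul_right
              exact Nat.pow_le_pow_right hc0 (by omega)
          _ < c ^ Y := h1
      · refine le_trans ?_ h2
        have : 2 * 4 ^ Y = 2 ^ (2 * Y + 1) := by
          rw [pow_succ, pow_mul]; norm_num; ring
        rw [this]
        apply Nat.pow_le_pow_right (by norm_num)
        have := Nat.mul_le_mul_right Y hk
        omega
    · have hne : b ≠ a := by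
        rintro rfl
        have := (Nat.coprime_self b).mp hab
        omega
      have hba : b < a := lt_of_le_of_ne hge hne
      have hDle := hD (Y - Z) (by omega) hord
      rcases Nat.eq_zero_or_pos D with hD0 | hD0
      · subst hD0
        simp only [mul_zero, pow_zero, one_mul] at hc
        have : b ^ 4 < c ^ 4 := Nat.pow_lt_pow_left (by
          by_contra hcon
          push Not at hcon
          have h5 : c ^ 2 ≤ b ^ 2 := Nat.pow_le_pow_left hcon 2
          have : 0 < a ^ 2 := by positivity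
          omega) (by norm_num)
        omega
      exact num2 ha hb0 hba h hk hx2 hD0 hDle h1 h2 h3 hc

/-- Even `y`, `z`: the version without any order hypothesis. -/
theorem even_case {a b c x Y Z : ℕ} (ha : Odd a) (hb : Even b) (hb0 : 0 < b)
    (hab : a.Coprime b) (h : a ^ 2 + b ^ 2 = c ^ 2) (hx : 0 < x) (hY : 0 < Y) (hZ : 0 < Z)
    (e : a ^ x + b ^ (2 * Y) = c ^ (2 * Z)) (k : ℕ) (hkb : 2 ^ k ∣ b)
    (hc : c ^ 2 ≤ 2 ^ (3 * k) * b ^ 2) : x = 2 ∧ Y = 1 ∧ Z = 1 := by
  have h4b := four_dvd ha hb h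
  wlog hk : 2 ≤ k generalizing k
  · apply this 2 (by simpa using h4b) (hc.trans _) le_rfl
    apply Nat.mul_le_mul_right
    apply Nat.pow_le_pow_right (by norm_num)
    omega
  rcases core ha hb hb0 hab h hx hY hZ e k hkb with h1 | ⟨ha3, hx2, hZY, hord, h1, h2, h3⟩
  · exact h1
  · exfalso
    have hc0 : 0 < c := by
      rcases Nat.eq_zero_or_pos c with hc | hc
      · subst hc
        have : 0 < b ^ 2 := by positivity
        omega
      · exact hc
    rcases lt_or_ge a b with hlt | hge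
    · refine num1 ha3 hlt h hx2 hY ?_ ?_ h3
      · calc c * b ^ Y = c ^ 1 * b ^ Y := by ring
          _ ≤ c ^ (Y - Z) * b ^ Y := by
              apply Nat.mul_le_mul_right
              exact Nat.pow_le_pow_right hc0 (by omega)
          _ < c ^ Y := h1
      · refine le_trans ?_ h2
        have : 2 * 4 ^ Y = 2 ^ (2 * Y + 1) := by
          rw [pow_succ, pow_mul]; norm_num; ring
        rw [this]
        apply Nat.pow_le_pow_right (by norm_num)
        have := Nat.mul_le_mul_right Y hk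
        omega
    · have hne : b ≠ a := by
        rintro rfl
        have := (Nat.coprime_self b).mp hab
        omega
      have hba : b < a := lt_of_le_of_ne hge hne
      have hb1 : 1 < b := by
        obtain ⟨v, hv⟩ := hb
        omega
      have hδ : 2 ≤ Y - Z := by
        by_contra hcon
        have hone : Y - Z = 1 := by omega
        rw [hone] at hord
        have hpos : 0 < b ^ (2 * 1) - 1 := by
          have : 1 < b ^ (2 * 1) := Nat.one_lt_pow (by norm_num) hb1
          omega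
        have := Nat.le_of_dvd hpos hord
        have h5 : b ^ 2 < a ^ 2 := Nat.pow_lt_pow_left hba (by norm_num)
        simp only [mul_one] at this
        omega
      refine num2 (D := 2) ha hb0 hba h hk hx2 (by norm_num) hδ h1 h2 h3 ?_
      calc c ^ 4 = c ^ 2 * c ^ 2 := by ring
        _ ≤ (2 ^ (3 * k) * b ^ 2) * (2 ^ (3 * k) * b ^ 2) := Nat.mul_le_mul hc hc
        _ = 2 ^ (3 * k * 2) * b ^ 4 := by
            rw [pow_mul 2 (3 * k) 2]; ring

end Jes95
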