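import Pool.Agent.LibJes95.Defs
namespace Jes95

/-- Basic facts on the parametrisation. -/
theorem adm_facts {m n : ℕ} (h : Adm m n) :
    Odd (m ^ 2 - n ^ 2) ∧ Even (2 * m * n) ∧ 0 < 2 * m * n ∧
      (m ^ 2 - n ^ 2).Coprime (2 * m * n) ∧
      (m ^ 2 - n ^ 2) ^ 2 + (2 * m * n) ^ 2 = (m ^ 2 + n ^ 2) ^ 2 := by
  obtain ⟨hn, hnm, hco, hpar⟩ := h
  have hm : 0 < m := by omega
  have hsq : n ^ 2 < m ^ 2 := Nat.pow_lt_pow_left hnm (by norm_num)
  have hfac : m ^ 2 - n ^ 2 = (m + n) * (m - n) := Nat.sq_sub_sq m n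
  have hodd1 : Odd (m + n) := Nat.odd_iff.2 hpar
  have hodd2 : Odd (m - n) := by
    rw [Nat.odd_iff]; omega
  have hodd : Odd (m ^ 2 - n ^ 2) := by
    rw [hfac]; exact hodd1.mul hodd2
  refine ⟨hodd, ⟨m * n, by ring⟩, by positivity, ?_, ?_⟩
  · refine Nat.coprime_of_dvd fun p hp h1 h2 => ?_
    have hnotboth : ¬ (p ∣ m ∧ p ∣ n) := fun h => by
      have h3 := Nat.dvd_gcd h.1 h.2
      rw [hco] at h3
      exact hp.one_lt.ne' (Nat.dvd_one.1 h3)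
    rcases (Nat.Prime.dvd_mul hp).1 h2 with h3 | h3
    · rcases (Nat.Prime.dvd_mul hp).1 h3 with h4 | h4
      · have h5 : p = 2 := (Nat.prime_dvd_prime_iff_eq hp Nat.prime_two).1 h4
        subst h5
        exact (Nat.not_even_iff_odd.2 hodd) (even_iff_two_dvd.2 h1)
      · have h5 : p ∣ n ^ 2 := by
          have h6 : p ∣ m ^ 2 := dvd_pow h4 (by norm_num)
          have h7 := Nat.dvd_sub h6 h1
          rwa [Nat.sub_sub_self hsq.le] at h7
        exact hnotboth ⟨h4, hp.dvd_of_dvd_pow h5⟩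
    · have h5 : p ∣ m ^ 2 := by
        have h6 : p ∣ n ^ 2 := dvd_pow h3 (by norm_num)
        have h7 := Nat.dvd_add h1 h6
        rwa [Nat.sub_add_cancel hsq.le] at h7
      exact hnotboth ⟨hp.dvd_of_dvd_pow h5, h3⟩
  · obtain ⟨k, hk⟩ := Nat.exists_eq_add_of_lt hsq
    have h1 : m ^ 2 - n ^ 2 = k + 1 := by omega
    rw [h1]
    have h2 : (2 * m * n) ^ 2 = 4 * m ^ 2 * n ^ 2 := by ring
    rw [h2, hk]
    ring

end Jes95
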