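import Pool.Agent.LibJes95.P1
import Pool.Agent.LibJes95.P2
namespace Jes95

private theorem chi_eq (d : ℕ) :
    (d % 8 = 3 → ZMod.χ₈ (d : ZMod 8) = -1 ∧ ZMod.χ₈' (d : ZMod 8) = 1) ∧
    (d % 8 = 5 → ZMod.χ₈ (d : ZMod 8) = -1 ∧ ZMod.χ₈' (d : ZMod 8) = -1) ∧
    (d % 8 = 7 → ZMod.χ₈ (d : ZMod 8) = 1 ∧ ZMod.χ₈' (d : ZMod 8) = -1) := by
  have h : (d : ZMod 8) = ((d % 8 : ℕ) : ZMod 8) := (ZMod.natCast_mod d 8).symm
  refine ⟨fun h1 => ?_, fun h1 => ?_, fun h1 => ?_⟩ <;> rw [h, h1] <;> decide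

private theorem even_of_pow {k : ℕ} (h : (1 : ℤ) = (-1) ^ k) : Even k := by
  rcases Nat.even_or_odd k with h1 | h1
  · exact h1
  · rw [h1.neg_one_pow] at h
    norm_num at h

private theorem parity_of_pow {y z : ℕ} (h : (-1 : ℤ) ^ y = (-1) ^ z) : Even y ↔ Even z := by
  rcases Nat.even_or_odd y with h1 | h1 <;> rcases Nat.even_or_odd z with h2 | h2
  · exact ⟨fun _ => h2, fun _ => h1⟩
  · rw [h1.neg_one_pow, h2.neg_one_pow] at h
    norm_num at h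
  · rw [h1.neg_one_pow, h2.neg_one_pow] at h
    norm_num at h
  · exact ⟨fun h3 => absurd h3 (Nat.not_even_iff_odd.2 h1),
      fun h3 => absurd h3 (Nat.not_even_iff_odd.2 h2)⟩

/-- The parity lemma. -/
theorem even_yz {m n x y z : ℕ} (h : Adm m n) (hp : ParCond m n) (hx : 0 < x)
    (e : (m ^ 2 - n ^ 2) ^ x + (2 * m * n) ^ y = (m ^ 2 + n ^ 2) ^ z) :
    Even y ∧ Even z := by
  obtain ⟨hn, hnm, hco, hodd⟩ := h
  have hP : ∀ d, d ∣ m + n → (d % 8 = 3 → Even z) ∧ (d % 8 = 5 → (Even y ↔ Even z)) ∧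
      (d % 8 = 7 → Even y) := by
    intro d hd
    have hdo : Odd d := by
      refine Odd.of_dvd_nat ?_ hd
      exact Nat.odd_iff.2 hodd
    have h1 := par_plus hnm hco hd hdo hx e
    obtain ⟨h3, h5, h7⟩ := chi_eq d
    refine ⟨fun hd8 => ?_, fun hd8 => ?_, fun hd8 => ?_⟩
    · rw [(h3 hd8).1, (h3 hd8).2, one_pow] at h1
      exact even_of_pow h1
    · rw [(h5 hd8).1, (h5 hd8).2] at h1
      exact parity_of_pow h1
    · rw [(h7 hd8).1, (h7 hd8).2, one_pow] at h1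
      exact even_of_pow h1.symm
  have hM : ∀ d, d ∣ m - n → (d % 8 = 3 ∨ d % 8 = 5) → (Even y ↔ Even z) := by
    intro d hd hd8
    have hdo : Odd d := by
      rw [Nat.odd_iff]
      omega
    have h1 := par_minus hnm hco hd hdo hx e
    obtain ⟨h3, h5, h7⟩ := chi_eq d
    rcases hd8 with hd8 | hd8
    · rw [(h3 hd8).1] at h1
      exact parity_of_pow h1
    · rw [(h5 hd8).1] at h1
      exact parity_of_pow h1
  obtain ⟨d, hd, hd4, hE⟩ := hp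
  have hd8 : d % 8 = 3 ∨ d % 8 = 7 := by omega
  obtain ⟨a3, a5, a7⟩ := hP d hd
  rcases hE with ⟨f, hf, hf8⟩ | ⟨f, hf, hf1, hfd⟩
  · have h2 := hM f hf hf8
    rcases hd8 with h8 | h8
    · exact ⟨h2.2 (a3 h8), a3 h8⟩
    · exact ⟨a7 h8, h2.1 (a7 h8)⟩
  · obtain ⟨b3, b5, b7⟩ := hP f hf
    have hfo : f % 2 = 1 := by
      have : Odd f := by
        refine Odd.of_dvd_nat ?_ hf
        exact Nat.odd_iff.2 hodd
      exact Nat.odd_iff.1 this
    have hf8 : f % 8 = 3 ∨ f % 8 = 5 ∨ f % 8 = 7 := by omega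
    rcases hd8 with h8 | h8
    · rcases hf8 with h9 | h9 | h9
      · omega
      · exact ⟨(b5 h9).2 (a3 h8), a3 h8⟩
      · exact ⟨b7 h9, a3 h8⟩
    · rcases hf8 with h9 | h9 | h9
      · exact ⟨a7 h8, b3 h9⟩
      · exact ⟨a7 h8, (b5 h9).1 (a7 h8)⟩
      · omega

end Jes95
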