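import Pool.Agent.LibJes95.Defs
namespace Jes95

private theorem w1_iff {b N k : ℕ} (hb : 0 < b) (hc : b.Coprime N) :
    N ∣ b ^ k - 1 ↔ (ZMod.unitOfCoprime b hc) ^ k = 1 := by
  have hpos : 1 ≤ b ^ k := Nat.one_le_pow _ _ hb
  rw [← Nat.modEq_iff_dvd' hpos]
  rw [← ZMod.natCast_eq_natCast_iff]
  constructor
  · intro h
    apply Units.ext
    simp only [Units.val_pow_eq_pow_val, ZMod.coe_unitOfCoprime, Units.val_one]
    rw [← Nat.cast_pow, ← h, Nat.cast_one]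
  · intro h
    have h2 := congrArg Units.val h
    simp only [Units.val_pow_eq_pow_val, ZMod.coe_unitOfCoprime, Units.val_one] at h2
    rw [Nat.cast_pow, h2, Nat.cast_one]

/-- If `P^2 ∣ b^(2j) - 1` and `P ∤ j` then the order of `b` mod `P^2` divides `2j` and
`P(P-1)`, hence `P - 1` (P odd), so `P^2 ∣ b^(P-1) - 1`. -/
theorem wief {a b P j : ℕ} (hP : P.Prime) (hP2 : P ≠ 2) (hPa : P ∣ a) (hb : 0 < b)
    (hab : a.Coprime b) (hj : 0 < j) (hd : a ^ 2 ∣ b ^ (2 * j) - 1)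
    (hw : ¬ P ^ 2 ∣ b ^ (P - 1) - 1) : P ≤ j := by
  by_contra hlt
  push Not at hlt
  apply hw
  have hPj : ¬ P ∣ j := fun h => absurd (Nat.le_of_dvd hj h) (by omega)
  have hbP : b.Coprime P := (Nat.Coprime.coprime_dvd_left hPa hab).symm
  have hc : b.Coprime (P ^ 2) := Nat.Coprime.pow_right 2 hbP
  have h1 : P ^ 2 ∣ b ^ (2 * j) - 1 := (pow_dvd_pow_of_dvd hPa 2).trans hd
  rw [w1_iff hb hc] at h1 ⊢
  have h2 := ZMod.pow_totient (ZMod.unitOfCoprime b hc)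
  rw [Nat.totient_prime_pow hP (by norm_num)] at h2
  rw [← orderOf_dvd_iff_pow_eq_one] at h1 h2 ⊢
  have h3 : (orderOf (ZMod.unitOfCoprime b hc)).Coprime (P ^ (2 - 1)) := by
    apply Nat.Coprime.pow_right
    rw [Nat.coprime_comm, hP.coprime_iff_not_dvd]
    intro h4
    rcases (hP.dvd_mul).1 (h4.trans h1) with h5 | h5
    · exact hP2 ((Nat.prime_dvd_prime_iff_eq hP Nat.prime_two).1 h5)
    · exact hPj h5
  exact h3.dvd_of_dvd_mul_left h2

end Jes95
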