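import Pool.Agent.LibJes95.Core
import Pool.Agent.LibJes95.P3
import Pool.Agent.LibJes95.F1
import Pool.Agent.LibJes95.W1
namespace Jes95

/-- Explicit theorem, version without order hypothesis. -/
theorem jes_of_ratio {m n k : ℕ} (h : Adm m n) (hp : ParCond m n) (hk : 2 ^ k ∣ 2 * m * n)
    (hc : (m ^ 2 + n ^ 2) ^ 2 ≤ 2 ^ (3 * k) * (2 * m * n) ^ 2) : JesMN m n := by
  obtain ⟨f1, f2, f3, f4, f5⟩ := adm_facts h
  intro x y z hx hy hz e
  obtain ⟨⟨Y, hY⟩, ⟨Z, hZ⟩⟩ := even_yz h hp hx e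
  have e' : (m ^ 2 - n ^ 2) ^ x + (2 * m * n) ^ (2 * Y) = (m ^ 2 + n ^ 2) ^ (2 * Z) := by
    rw [two_mul Y, two_mul Z, ← hY, ← hZ]; exact e
  obtain ⟨h1, h2, h3⟩ := even_case f1 f2 f3 f4 f5 hx (by omega) (by omega) e' k hk hc
  subst h1 h2 h3
  omega

/-- Explicit theorem, version with an order hypothesis. -/
theorem jes_of_order {m n k D : ℕ} (h : Adm m n) (hp : ParCond m n) (hk : 2 ^ k ∣ 2 * m * n)
    (hD : ∀ j, 0 < j → (m ^ 2 - n ^ 2) ^ 2 ∣ (2 * m * n) ^ (2 * j) - 1 → D ≤ j)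
    (hc : (m ^ 2 + n ^ 2) ^ 4 ≤ 2 ^ (3 * k * D) * (2 * m * n) ^ 4) : JesMN m n := by
  obtain ⟨f1, f2, f3, f4, f5⟩ := adm_facts h
  intro x y z hx hy hz e
  obtain ⟨⟨Y, hY⟩, ⟨Z, hZ⟩⟩ := even_yz h hp hx e
  have e' : (m ^ 2 - n ^ 2) ^ x + (2 * m * n) ^ (2 * Y) = (m ^ 2 + n ^ 2) ^ (2 * Z) := by
    rw [two_mul Y, two_mul Z, ← hY, ← hZ]; exact e
  obtain ⟨h1, h2, h3⟩ := even_case_D f1 f2 f3 f4 f5 hx (by omega) (by omega) e' k D hk hD hc
  subst h1 h2 h3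
  omega

/-- Criterion with a large non-Wieferich prime. -/
theorem jes_of_prime {m n M P : ℕ} (h : Adm m n) (hp : ParCond m n) (hmM : m ≤ M)
    (hP : P.Prime) (hPd : P ∣ m - n) (hPM : M ^ 2 ≤ 2 ^ (3 * P))
    (hw : ¬ P ^ 2 ∣ (2 * m * n) ^ (P - 1) - 1) : JesMN m n := by
  obtain ⟨f1, f2, f3, f4, f5⟩ := adm_facts h
  obtain ⟨hn0, hnm, hco, hodd⟩ := h
  have hP2 : P ≠ 2 := by
    rintro rfl
    obtain ⟨t, ht⟩ := hPd
    omega
  have hPa : P ∣ m ^ 2 - n ^ 2 := by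
    rw [Nat.sq_sub_sq]
    exact Dvd.dvd.mul_left hPd _
  have h4 : (2 : ℕ) ^ 2 ∣ 2 * m * n := by
    have : Even (m * n) := by
      rcases Nat.even_or_odd m with hm | hm
      · exact hm.mul_right n
      · rcases Nat.even_or_odd n with hn | hn
        · exact hn.mul_left m
        · exfalso
          obtain ⟨u, hu⟩ := hm
          obtain ⟨v, hv⟩ := hn
          omega
    obtain ⟨t, ht⟩ := this
    exact ⟨t, by rw [mul_assoc, ht]; ring⟩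
  refine jes_of_order (k := 2) (D := P) ⟨hn0, hnm, hco, hodd⟩ hp h4 ?_ ?_
  · intro j hj hd
    exact wief hP hP2 hPa f3 f4 hj hd hw
  · have hm0 : 0 < m := by omega
    have h1 : m ^ 2 + n ^ 2 ≤ M * (2 * m * n) := by
      have : n ^ 2 ≤ m ^ 2 := Nat.pow_le_pow_left hnm.le 2
      calc m ^ 2 + n ^ 2 ≤ m ^ 2 + m ^ 2 := by omega
        _ = 2 * m * m * 1 := by ring
        _ ≤ 2 * m * M * n := by
            apply Nat.mul_le_mul _ hn0
            exact Nat.mul_le_mul_left _ hmM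
        _ = M * (2 * m * n) := by ring
    calc (m ^ 2 + n ^ 2) ^ 4 ≤ (M * (2 * m * n)) ^ 4 := Nat.pow_le_pow_left h1 4
      _ = (M ^ 2) ^ 2 * (2 * m * n) ^ 4 := by ring
      _ ≤ (2 ^ (3 * P)) ^ 2 * (2 * m * n) ^ 4 := by
          apply Nat.mul_le_mul_right
          exact Nat.pow_le_pow_left hPM 2
      _ = 2 ^ (3 * 2 * P) * (2 * m * n) ^ 4 := by
          rw [← pow_mul]; congr 2; ring

end Jes95
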