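import Mathlib

/-!
Definitions for the even-exponent theorem and the density theorem on Jeśmanowicz's
conjecture (MP_252f3f_nt).
-/

namespace Jes95

/-- The assertion of Jeśmanowicz's conjecture for `(a, b, c)`: the only solution of
`a ^ x + b ^ y = c ^ z` in positive integers is `x = y = z = 2`. -/
def Jes (a b c : ℕ) : Prop :=
  ∀ x y z : ℕ, 0 < x → 0 < y → 0 < z → a ^ x + b ^ y = c ^ z → x = 2 ∧ y = 2 ∧ z = 2

/-- `(m, n)` parametrises a primitive Pythagorean triple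
`(m ^ 2 - n ^ 2, 2 * m * n, m ^ 2 + n ^ 2)`. -/
def Adm (m n : ℕ) : Prop := 0 < n ∧ n < m ∧ m.Coprime n ∧ (m + n) % 2 = 1

/-- Jeśmanowicz's assertion for the triple parametrised by `(m, n)`. -/
def JesMN (m n : ℕ) : Prop := Jes (m ^ 2 - n ^ 2) (2 * m * n) (m ^ 2 + n ^ 2)

/-- A congruence condition on divisors of `m + n` and `m - n`. -/
def ParCond (m n : ℕ) : Prop :=
  ∃ d, d ∣ m + n ∧ d % 4 = 3 ∧
    ((∃ e, e ∣ m - n ∧ (e % 8 = 3 ∨ e % 8 = 5)) ∨
      (∃ e, e ∣ m + n ∧ e % 8 ≠ 1 ∧ e % 8 ≠ d % 8))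

/-- The positive integers all of whose prime factors lie in one of the residue classes
`1` and `j` modulo `8`. -/
def Lan (j : ℕ) : Set ℕ := {s | 0 < s ∧ ∀ p : ℕ, p.Prime → p ∣ s → p % 8 = 1 ∨ p % 8 = j}

/-- Primitive Pythagorean triples (both orders of the legs are allowed). -/
def Prim (a b c : ℕ) : Prop := 0 < a ∧ 0 < b ∧ a.Coprime b ∧ a ^ 2 + b ^ 2 = c ^ 2

end Jes95
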