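import Pool.Agent.LibJes95.Crit
import Pool.Agent.LibJes95.L7
import Pool.Agent.LibJes95.R1
namespace Jes95

private lemma diag_lan (K : ℝ) (hK : 0 < K)
    (h : ∀ j : ℕ, (j = 3 ∨ j = 5 ∨ j = 7) → ∀ x : ℕ, 2 ≤ x →
      (({s : ℕ | s ∈ Lan j ∧ s ≤ x}).ncard : ℝ) ≤ K * x / √(Real.log x)) (j : ℕ)
    (hj : j = 3 ∨ j = 5 ∨ j = 7) (M : ℕ) (hM : 2 ≤ M) (d : ℕ) (hd : d ≤ M) :
    (({n : ℕ | n ≤ M ∧ n + d + n ∈ Lan j}).ncard : ℝ) ≤ 3 * K * M / √(Real.log M) := by
  have h1 := h j hj (3 * M) (by omega)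
  have hfin : ({s : ℕ | s ∈ Lan j ∧ s ≤ 3 * M}).Finite :=
    (Set.finite_Iic (3 * M)).subset (fun s hs => hs.2)
  have h2 : ({n : ℕ | n ≤ M ∧ n + d + n ∈ Lan j}).ncard ≤
      ({s : ℕ | s ∈ Lan j ∧ s ≤ 3 * M}).ncard := by
    apply Set.ncard_le_ncard_of_injOn (fun n => n + d + n) _ _ hfin
    · rintro n ⟨hn, hn2⟩
      exact ⟨hn2, by show n + d + n ≤ 3 * M; omega⟩
    · intro a _ b _ hab
      have hab' : a + d + a = b + d + b := hab
      omega
  have hm' : (2 : ℝ) ≤ (M : ℝ) := by exact_mod_cast hM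
  have hlog : 0 < Real.log M := Real.log_pos (by linarith)
  have h3 : √(Real.log M) ≤ √(Real.log ((3 * M : ℕ) : ℝ)) := by
    apply Real.sqrt_le_sqrt
    apply Real.log_le_log (by linarith)
    push_cast
    linarith
  have h4 : 0 < √(Real.log M) := Real.sqrt_pos.2 hlog
  calc (({n : ℕ | n ≤ M ∧ n + d + n ∈ Lan j}).ncard : ℝ)
      ≤ (({s : ℕ | s ∈ Lan j ∧ s ≤ 3 * M}).ncard : ℝ) := by exact_mod_cast h2
    _ ≤ K * ((3 * M : ℕ) : ℝ) / √(Real.log ((3 * M : ℕ) : ℝ)) := h1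
    _ ≤ K * ((3 * M : ℕ) : ℝ) / √(Real.log M) := by
        apply div_le_div_of_nonneg_left _ h4 h3
        positivity
    _ = 3 * K * M / √(Real.log M) := by push_cast; ring

private lemma diag_ratio {m n : ℕ} (h : Adm m n) (hp : ParCond m n) (hmn : m ≤ 2 * n) :
    JesMN m n := by
  obtain ⟨hn0, hnm, hco, hodd⟩ := id h
  have h4 : (2 : ℕ) ^ 2 ∣ 2 * m * n := by
    have : Even (m * n) := by
      rcases Nat.even_or_odd m with hm | hm
      · exact hm.mul_right n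
      · rcases Nat.even_or_odd n with hn | hn
        · exact hn.mul_left m
        · exfalso
          obtain ⟨u, hu⟩ := hm
          obtain ⟨v, hv⟩ := hn
          omega
    obtain ⟨t, ht⟩ := this
    exact ⟨t, by rw [mul_assoc, ht]; ring⟩
  refine jes_of_ratio h hp h4 ?_
  have h1 : m ^ 2 + n ^ 2 ≤ 8 * (2 * m * n) := by nlinarith
  calc (m ^ 2 + n ^ 2) ^ 2 ≤ (8 * (2 * m * n)) ^ 2 := Nat.pow_le_pow_left h1 2
    _ = 2 ^ (3 * 2) * (2 * m * n) ^ 2 := by ring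

/-- Diagonals.  If `d > M` the bound is trivial (`n ≤ M ≤ d`, `0 < n`).  If `d ≤ M`: for `n ≥ d`,
`m = n + d ≤ 2n` and `jes_of_ratio` (`k = 2`) applies unless `2n + d ∈ Lan j`, `2n + d ≤ 3M`. -/
theorem diag_bound : ∃ K : ℝ, 0 < K ∧ ∀ M : ℕ, 2 ≤ M → ∀ d : ℕ,
    (({n : ℕ | n ≤ M ∧ Adm (n + d) n ∧ ¬ JesMN (n + d) n}).ncard : ℝ)
      ≤ d + K * M / √(Real.log M) := by
  obtain ⟨K1, hK1, H1⟩ := lan_bound
  refine ⟨9 * K1, by positivity, fun M hM d => ?_⟩
  have hm' : (2 : ℝ) ≤ (M : ℝ) := by exact_mod_cast hM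
  have hlog : 0 < Real.log M := Real.log_pos (by linarith)
  by_cases hd : M < d
  · have hsub : {n : ℕ | n ≤ M ∧ Adm (n + d) n ∧ ¬ JesMN (n + d) n} ⊆
        ((Finset.Icc 1 M : Finset ℕ) : Set ℕ) := by
      rintro n ⟨hn, ⟨hn0, -⟩, -⟩
      rw [Finset.coe_Icc]
      exact ⟨hn0, hn⟩
    have h1 := Set.ncard_le_ncard hsub (Finset.finite_toSet _)
    rw [Set.ncard_coe_finset, Nat.card_Icc] at h1
    have h2 : ({n : ℕ | n ≤ M ∧ Adm (n + d) n ∧ ¬ JesMN (n + d) n}).ncard ≤ d := by omega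
    have h3 : (({n : ℕ | n ≤ M ∧ Adm (n + d) n ∧ ¬ JesMN (n + d) n}).ncard : ℝ) ≤ d := by
      exact_mod_cast h2
    have h4 : 0 ≤ 9 * K1 * M / √(Real.log M) := by positivity
    linarith
  · push Not at hd
    set A : ℕ → Set ℕ := fun j => {n : ℕ | n ≤ M ∧ n + d + n ∈ Lan j} with hA
    have hsub : {n : ℕ | n ≤ M ∧ Adm (n + d) n ∧ ¬ JesMN (n + d) n} ⊆
        ((Finset.range d : Finset ℕ) : Set ℕ) ∪ (A 3 ∪ A 5 ∪ A 7) := by
      rintro n ⟨hn, hadm, hj⟩
      by_cases hnd : n < d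
      · left
        rw [Finset.coe_range]
        exact hnd
      · right
        by_cases hp : ParCond (n + d) n
        · exact absurd (diag_ratio hadm hp (by omega)) hj
        · rcases lan_of_not_parCond hadm hp with h | h | h
          · left; left; exact ⟨hn, h⟩
          · left; right; exact ⟨hn, h⟩
          · right; exact ⟨hn, h⟩
    have hfinA : ∀ j, (A j).Finite := fun j => (Set.finite_Iic M).subset (fun n hn => hn.1)
    have hfinU : (((Finset.range d : Finset ℕ) : Set ℕ) ∪ (A 3 ∪ A 5 ∪ A 7)).Finite :=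
      (Finset.finite_toSet _).union (((hfinA 3).union (hfinA 5)).union (hfinA 7))
    have htot : ({n : ℕ | n ≤ M ∧ Adm (n + d) n ∧ ¬ JesMN (n + d) n}).ncard ≤
        d + ((A 3).ncard + (A 5).ncard + (A 7).ncard) := by
      refine (Set.ncard_le_ncard hsub hfinU).trans ?_
      refine (Set.ncard_union_le _ _).trans ?_
      rw [Set.ncard_coe_finset, Finset.card_range]
      refine Nat.add_le_add_left ?_ _
      refine (Set.ncard_union_le _ _).trans ?_
      exact Nat.add_le_add_right (Set.ncard_union_le _ _) _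
    have htot' : (({n : ℕ | n ≤ M ∧ Adm (n + d) n ∧ ¬ JesMN (n + d) n}).ncard : ℝ) ≤
        d + (((A 3).ncard : ℝ) + (A 5).ncard + (A 7).ncard) := by
      exact_mod_cast htot
    have a3 := diag_lan K1 hK1 H1 3 (by simp) M hM d hd
    have a5 := diag_lan K1 hK1 H1 5 (by simp) M hM d hd
    have a7 := diag_lan K1 hK1 H1 7 (by simp) M hM d hd
    have e1 : 9 * K1 * M / √(Real.log M) =
        3 * K1 * M / √(Real.log M) + 3 * K1 * M / √(Real.log M) + 3 * K1 * M / √(Real.log M) := by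
      ring
    rw [e1]
    refine htot'.trans ?_
    gcongr

end Jes95
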