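import Pool.Agent.LibJes95.Defs
namespace Jes95

/-- Factorisation of `a^x = (c^Z + b^Y)(c^Z - b^Y)`: the two factors are odd and coprime
(a common divisor divides `2 c^Z` and `2 b^Y`), hence `x`-th powers; `x = 1` is impossible since
`c^Z + b^Y > a`. -/
theorem factor {a b c x Y Z : ℕ} (ha : Odd a) (hb : Even b) (hb0 : 0 < b)
    (hab : a.Coprime b) (h : a ^ 2 + b ^ 2 = c ^ 2) (hx : 0 < x) (hY : 0 < Y) (hZ : 0 < Z)
    (e : a ^ x + b ^ (2 * Y) = c ^ (2 * Z)) :
    2 ≤ x ∧ ∃ r s : ℕ, r * s = a ∧ r ^ x = c ^ Z + b ^ Y ∧ s ^ x + b ^ Y = c ^ Z ∧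
      s < r ∧ 0 < s ∧ Odd r ∧ Odd s := by
  have ha0 : 0 < a := ha.pos
  have hcb : c.Coprime b := by
    rw [Nat.coprime_iff_gcd_eq_one]
    by_contra hg
    obtain ⟨p, hp, hpd⟩ := Nat.exists_prime_and_dvd hg
    have h1 : p ∣ c := hpd.trans (Nat.gcd_dvd_left _ _)
    have h2 : p ∣ b := hpd.trans (Nat.gcd_dvd_right _ _)
    have h3 : p ∣ a ^ 2 := by
      have h4 : p ∣ a ^ 2 + b ^ 2 := by rw [h]; exact dvd_pow h1 (by norm_num)
      exact (Nat.dvd_add_left (dvd_pow h2 (by norm_num))).1 h4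
    have h5 : p ∣ a := hp.dvd_of_dvd_pow h3
    have h6 : p ∣ Nat.gcd a b := Nat.dvd_gcd h5 h2
    rw [Nat.coprime_iff_gcd_eq_one.1 hab] at h6
    exact hp.one_lt.ne' (Nat.dvd_one.1 h6)
  have hac : a < c := by
    by_contra hcon
    push Not at hcon
    have : c ^ 2 ≤ a ^ 2 := Nat.pow_le_pow_left hcon 2
    have : 0 < b ^ 2 := by positivity
    omega
  set u := c ^ Z with hu
  set v := b ^ Y with hv
  have hvpos : 0 < v := by positivity
  have hevv : Even v := hb.pow_of_ne_zero hY.ne'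
  have e' : a ^ x + v ^ 2 = u ^ 2 := by
    rw [hu, hv, ← pow_mul, ← pow_mul, mul_comm Z 2, mul_comm Y 2]
    exact e
  have hax : 0 < a ^ x := by positivity
  have huv : v < u := by
    by_contra hcon
    push Not at hcon
    have : u ^ 2 ≤ v ^ 2 := Nat.pow_le_pow_left hcon 2
    omega
  have hprod : (u + v) * (u - v) = a ^ x := by
    have := Nat.sq_sub_sq u v
    rw [← this]
    omega
  have hodd : Odd ((u + v) * (u - v)) := by rw [hprod]; exact ha.pow
  have hodd1 : Odd (u + v) := (Nat.odd_mul.1 hodd).1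
  have hodd2 : Odd (u - v) := (Nat.odd_mul.1 hodd).2
  have hcuv : u.Coprime v := (hcb.pow_left Z).pow_right Y
  have hcop : (u + v).Coprime (u - v) := by
    rw [Nat.coprime_iff_gcd_eq_one]
    by_contra hg
    obtain ⟨p, hp, hpd⟩ := Nat.exists_prime_and_dvd hg
    have h1 : p ∣ u + v := hpd.trans (Nat.gcd_dvd_left _ _)
    have h2 : p ∣ u - v := hpd.trans (Nat.gcd_dvd_right _ _)
    have hp2 : p ≠ 2 := by
      rintro rfl
      exact (Nat.not_even_iff_odd.2 hodd1) (even_iff_two_dvd.2 h1)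
    have hp2' : ¬ p ∣ 2 := fun hd => hp2 ((Nat.prime_dvd_prime_iff_eq hp Nat.prime_two).1 hd)
    have h3 : p ∣ 2 * u := by
      have : 2 * u = (u + v) + (u - v) := by omega
      rw [this]; exact Nat.dvd_add h1 h2
    have h4 : p ∣ u := (hp.dvd_mul.1 h3).resolve_left hp2'
    have h5 : p ∣ v := (Nat.dvd_add_right h4).1 h1
    have h6 : p ∣ Nat.gcd u v := Nat.dvd_gcd h4 h5
    rw [Nat.coprime_iff_gcd_eq_one.1 hcuv] at h6
    exact hp.one_lt.ne' (Nat.dvd_one.1 h6)
  have hx2 : 2 ≤ x := by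
    by_contra hcon
    have hx1 : x = 1 := by omega
    rw [hx1, pow_one] at hprod
    have h1 : 1 ≤ u - v := by omega
    have h2 : u + v ≤ a := by
      calc u + v = (u + v) * 1 := by ring
        _ ≤ (u + v) * (u - v) := Nat.mul_le_mul_left _ h1
        _ = a := hprod
    have h3 : c ≤ u := by
      rw [hu]
      calc c = c ^ 1 := (pow_one c).symm
        _ ≤ c ^ Z := Nat.pow_le_pow_right (by omega) hZ
    omega
  refine ⟨hx2, ?_⟩
  obtain ⟨r, hr⟩ := exists_eq_pow_of_mul_eq_pow (α := ℕ) (by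
    rw [Nat.isUnit_iff]; exact hcop) hprod
  obtain ⟨s, hs⟩ := exists_eq_pow_of_mul_eq_pow (α := ℕ) (by
    rw [Nat.isUnit_iff]; exact hcop.symm) ((mul_comm _ _).trans hprod)
  refine ⟨r, s, ?_, hr.symm, by omega, ?_, ?_, ?_, ?_⟩
  · rw [hr, hs, ← mul_pow] at hprod
    exact Nat.pow_left_injective (by omega : x ≠ 0) hprod
  · by_contra hcon
    push Not at hcon
    have : r ^ x ≤ s ^ x := Nat.pow_le_pow_left hcon x
    omega
  · rcases Nat.eq_zero_or_pos s with h0 | h0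
    · rw [h0, zero_pow (by omega)] at hs
      omega
    · exact h0
  · rw [hr] at hodd1
    exact (Nat.odd_pow_iff (by omega)).1 hodd1
  · rw [hs] at hodd2
    exact (Nat.odd_pow_iff (by omega)).1 hodd2

end Jes95
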