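import Pool.Agent.LibJes95.X5
namespace Jes95

open Classical in
private noncomputable def x6fib (v δ : ℕ) : Finset ℕ :=
  (Finset.range v).filter fun n => n < v - n ∧ 0 < n ∧ n.Coprime v ∧
        v ^ 2 ∣ (2 * (v - n) * n) ^ (2 * δ) - 1

private theorem x6fib_card {v δ : ℕ} (hv : Odd v) (hδ : 0 < δ) :
    (x6fib v δ).card ≤ (4 * δ) ^ v.primeFactors.card := by
  have h := card_antidiag hv hδ
  have h1 : {n : ℕ | n < v - n ∧ 0 < n ∧ n.Coprime v ∧
        v ^ 2 ∣ (2 * (v - n) * n) ^ (2 * δ) - 1} = ((x6fib v δ : Finset ℕ) : Set ℕ) := by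
    ext n
    simp only [x6fib, Finset.coe_filter, Finset.mem_range]
    constructor
    · intro hn
      have hn' : n < v - n ∧ 0 < n ∧ n.Coprime v ∧
        v ^ 2 ∣ (2 * (v - n) * n) ^ (2 * δ) - 1 := hn
      exact ⟨by omega, hn'⟩
    · intro hn
      exact hn.2
  rw [h1, Set.ncard_coe_finset] at h
  exact h

/-- The rare pairs.  Fibre over `v = m + n ≤ 2M` (odd), union over the `δ ≤ Nat.log 2 (M^2)`. -/
theorem rare_count (ε : ℝ) (hε : 0 < ε) : ∃ K : ℝ, 0 < K ∧ ∀ M : ℕ, 2 ≤ M →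
    (({p : ℕ × ℕ | p.1 ≤ M ∧ Adm p.1 p.2 ∧ ∃ δ : ℕ, 0 < δ ∧ 2 ^ δ < p.1 ^ 2 ∧
        (p.1 + p.2) ^ 2 ∣ (2 * p.1 * p.2) ^ (2 * δ) - 1}).ncard : ℝ)
      ≤ K * (M : ℝ) ^ (1 + ε) := by
  classical
  obtain ⟨K, hK, hsum⟩ := trunc_sum ε hε
  refine ⟨K, hK, fun M hM => le_trans ?_ (hsum M hM)⟩
  set J := Nat.log 2 (M ^ 2) with hJ
  let FF : ℕ → Finset ℕ := fun v => if Odd v then (Finset.Icc 1 J).biUnion fun δ => x6fib v δ else ∅
  let T : Finset (ℕ × ℕ) := (Finset.Icc 1 (2 * M)).biUnion fun v => (FF v).image fun n => (v - n, n)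
  have hST : {p : ℕ × ℕ | p.1 ≤ M ∧ Adm p.1 p.2 ∧ ∃ δ : ℕ, 0 < δ ∧ 2 ^ δ < p.1 ^ 2 ∧
        (p.1 + p.2) ^ 2 ∣ (2 * p.1 * p.2) ^ (2 * δ) - 1} ⊆ (T : Set (ℕ × ℕ)) := by
    rintro ⟨m, n⟩ ⟨hmM, ⟨hn0, hnm, hco, hodd⟩, δ, hδ0, hδ, hdvd⟩
    have hmM' : m ≤ M := hmM
    have hn0' : 0 < n := hn0
    have hnm' : n < m := hnm
    have hodd' : Odd (m + n) := Nat.odd_iff.2 hodd
    have hsub : m + n - n = m := by omega
    have hδJ : δ ≤ J := by
      apply Nat.le_log_of_pow_le (by norm_num)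
      exact hδ.le.trans (Nat.pow_le_pow_left hmM' 2)
    have hmem : n ∈ FF (m + n) := by
      simp only [FF]
      rw [if_pos hodd', Finset.mem_biUnion]
      refine ⟨δ, Finset.mem_Icc.2 ⟨hδ0, hδJ⟩, ?_⟩
      simp only [x6fib, Finset.mem_filter, Finset.mem_range]
      rw [hsub]
      refine ⟨by omega, hnm', hn0', ?_, hdvd⟩
      have h1 : n.Coprime m := Nat.Coprime.symm hco
      exact (Nat.coprime_add_self_right).2 h1
    have : (m, n) ∈ T := by
      simp only [T]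
      rw [Finset.mem_biUnion]
      refine ⟨m + n, Finset.mem_Icc.2 ⟨by omega, by omega⟩, ?_⟩
      rw [Finset.mem_image]
      exact ⟨n, hmem, by rw [hsub]⟩
    exact this
  have h1 : ({p : ℕ × ℕ | p.1 ≤ M ∧ Adm p.1 p.2 ∧ ∃ δ : ℕ, 0 < δ ∧ 2 ^ δ < p.1 ^ 2 ∧
        (p.1 + p.2) ^ 2 ∣ (2 * p.1 * p.2) ^ (2 * δ) - 1}).ncard ≤ T.card := by
    rw [← Set.ncard_coe_finset]
    exact Set.ncard_le_ncard hST (Finset.finite_toSet T)
  have h2 : T.card ≤ ∑ v ∈ Finset.Icc 1 (2 * M), (FF v).card := by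
    refine Finset.card_biUnion_le.trans (Finset.sum_le_sum fun v _ => Finset.card_image_le)
  have h3 : (T.card : ℝ) ≤ ∑ v ∈ Finset.Icc 1 (2 * M), ((FF v).card : ℝ) := by
    exact_mod_cast h2
  refine le_trans (by exact_mod_cast h1) (h3.trans (Finset.sum_le_sum fun v hv => ?_))
  have hv2 : v ≤ 2 * M := (Finset.mem_Icc.1 hv).2
  refine le_min ?_ ?_
  · have h4 : (FF v).card ≤ 2 * M := by
      have h5 : FF v ⊆ Finset.range v := by
        intro n hn
        simp only [FF] at hn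
        split_ifs at hn with ho
        · obtain ⟨δ, -, hδ⟩ := Finset.mem_biUnion.1 hn
          simp only [x6fib] at hδ
          exact (Finset.mem_filter.1 hδ).1
        · simp at hn
      have h6 := Finset.card_le_card h5
      rw [Finset.card_range] at h6
      omega
    exact_mod_cast h4
  · have h4 : (FF v).card ≤ J * (4 * J) ^ v.primeFactors.card := by
      by_cases ho : Odd v
      · simp only [FF]
        rw [if_pos ho]
        refine Finset.card_biUnion_le.trans ?_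
        calc ∑ δ ∈ Finset.Icc 1 J, (x6fib v δ).card
            ≤ ∑ δ ∈ Finset.Icc 1 J, (4 * J) ^ v.primeFactors.card := by
              refine Finset.sum_le_sum fun δ hδ => ?_
              rw [Finset.mem_Icc] at hδ
              exact (x6fib_card ho (by omega)).trans (Nat.pow_le_pow_left (by omega) _)
          _ = J * (4 * J) ^ v.primeFactors.card := by
              rw [Finset.sum_const, Nat.card_Icc, smul_eq_mul, Nat.add_sub_cancel]
      · simp only [FF]
        rw [if_neg ho]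
        simp
    exact_mod_cast h4

end Jes95
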