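import Pool.Agent.LibJes95.X1
import Pool.Agent.LibJes95.X6
namespace Jes95

/-- Power saving for even exponents: at most `K_ε C^(1/2+ε)` primitive triples with hypotenuse at
most `C` have a non-trivial solution with even `y`, `z`. -/
theorem even_exc_count (ε : ℝ) (hε : 0 < ε) : ∃ K : ℝ, 0 < K ∧ ∀ C : ℕ, 5 ≤ C →
    (({p : ℕ × ℕ | Adm p.1 p.2 ∧ p.1 ^ 2 + p.2 ^ 2 ≤ C ∧ ¬ EvenJes p.1 p.2}).ncard : ℝ)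
      ≤ K * (C : ℝ) ^ (1 / 2 + ε) := by
  obtain ⟨K, hK, h⟩ := rare_count (2 * ε) (by positivity)
  refine ⟨K, hK, ?_⟩
  intro C hC
  have hM2 : 2 ≤ Nat.sqrt C := by
    rw [Nat.le_sqrt]
    omega
  have h1 := h (Nat.sqrt C) hM2
  have hfin : ({p : ℕ × ℕ | p.1 ≤ Nat.sqrt C ∧ Adm p.1 p.2 ∧ ∃ δ : ℕ, 0 < δ ∧
      2 ^ δ < p.1 ^ 2 ∧ (p.1 + p.2) ^ 2 ∣ (2 * p.1 * p.2) ^ (2 * δ) - 1}).Finite := by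
    apply Set.Finite.subset ((Set.finite_Iic (Nat.sqrt C)).prod (Set.finite_Iic (Nat.sqrt C)))
    rintro ⟨m, n⟩ ⟨h2, h3, _⟩
    have h4 : n < m := h3.2.1
    have h2' : m ≤ Nat.sqrt C := h2
    exact Set.mem_prod.2 ⟨h2, (le_of_lt h4).trans h2'⟩
  have h2 : ({p : ℕ × ℕ | Adm p.1 p.2 ∧ p.1 ^ 2 + p.2 ^ 2 ≤ C ∧ ¬ EvenJes p.1 p.2}).ncard ≤
      ({p : ℕ × ℕ | p.1 ≤ Nat.sqrt C ∧ Adm p.1 p.2 ∧ ∃ δ : ℕ, 0 < δ ∧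
      2 ^ δ < p.1 ^ 2 ∧ (p.1 + p.2) ^ 2 ∣ (2 * p.1 * p.2) ^ (2 * δ) - 1}).ncard := by
    apply Set.ncard_le_ncard _ hfin
    rintro ⟨m, n⟩ ⟨h3, h4, h5⟩
    refine ⟨?_, h3, exc_of_not_evenJes h3 h5⟩
    simp only at h4 ⊢
    rw [Nat.le_sqrt']
    omega
  have h3 : (({p : ℕ × ℕ | Adm p.1 p.2 ∧ p.1 ^ 2 + p.2 ^ 2 ≤ C ∧
      ¬ EvenJes p.1 p.2}).ncard : ℝ) ≤ K * ((Nat.sqrt C : ℕ) : ℝ) ^ (1 + 2 * ε) :=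
    le_trans (by exact_mod_cast h2) h1
  refine h3.trans (mul_le_mul_of_nonneg_left ?_ hK.le)
  have hC0 : (0 : ℝ) ≤ C := Nat.cast_nonneg C
  have h4 : ((Nat.sqrt C : ℕ) : ℝ) ≤ (C : ℝ) ^ ((1 : ℝ) / 2) := by
    rw [← Real.sqrt_eq_rpow]
    exact Real.nat_sqrt_le_real_sqrt
  calc ((Nat.sqrt C : ℕ) : ℝ) ^ (1 + 2 * ε) ≤ ((C : ℝ) ^ ((1 : ℝ) / 2)) ^ (1 + 2 * ε) :=
        Real.rpow_le_rpow (Nat.cast_nonneg _) h4 (by positivity)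
    _ = (C : ℝ) ^ (1 / 2 + ε) := by
        rw [← Real.rpow_mul hC0]
        congr 1
        ring

end Jes95
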