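import Pool.Agent.LibJes95.Main
import Pool.Agent.LibJes95.X7
namespace Jes95

/-- Sufficient conditions for the triviality of the solutions with even `y`, `z`. -/
theorem evenJes_of {m n : ℕ} (h : Adm m n)
    (hc : (∃ k, 2 ^ k ∣ 2 * m * n ∧ (m ^ 2 + n ^ 2) ^ 2 ≤ 2 ^ (3 * k) * (2 * m * n) ^ 2) ∨
      (∃ k D, 2 ^ k ∣ 2 * m * n ∧
        (∀ j, 0 < j → (m ^ 2 - n ^ 2) ^ 2 ∣ (2 * m * n) ^ (2 * j) - 1 → D ≤ j) ∧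
        (m ^ 2 + n ^ 2) ^ 4 ≤ 2 ^ (3 * k * D) * (2 * m * n) ^ 4) ∨
      (2 ≤ n ∧ ∃ l, 2 * n ≤ 2 ^ l ∧ (2 * n) ^ (8 * l + 4) ≤ m) ∨
      (∀ δ, 0 < δ → 2 ^ δ < m ^ 2 → ¬ (m + n) ^ 2 ∣ (2 * m * n) ^ (2 * δ) - 1)) :
    EvenJes m n := by
  rcases hc with ⟨k, hk, hc⟩ | ⟨k, D, hk, hD, hc⟩ | ⟨hn, l, hl, hm⟩ | hδ
  · obtain ⟨f1, f2, f3, f4, f5⟩ := adm_facts h
    rintro x y z hx hy hz ⟨Y, hY⟩ ⟨Z, hZ⟩ e
    have e' : (m ^ 2 - n ^ 2) ^ x + (2 * m * n) ^ (2 * Y) = (m ^ 2 + n ^ 2) ^ (2 * Z) := by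
      rw [two_mul Y, two_mul Z, ← hY, ← hZ]; exact e
    have := even_case f1 f2 f3 f4 f5 hx (by omega) (by omega) e' k hk hc
    omega
  · obtain ⟨f1, f2, f3, f4, f5⟩ := adm_facts h
    rintro x y z hx hy hz ⟨Y, hY⟩ ⟨Z, hZ⟩ e
    have e' : (m ^ 2 - n ^ 2) ^ x + (2 * m * n) ^ (2 * Y) = (m ^ 2 + n ^ 2) ^ (2 * Z) := by
      rw [two_mul Y, two_mul Z, ← hY, ← hZ]; exact e
    have := even_case_D f1 f2 f3 f4 f5 hx (by omega) (by omega) e' k D hk hD hc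
    omega
  · rintro x y z hx hy hz ⟨Y, hY⟩ ⟨Z, hZ⟩ e
    have e' : (m ^ 2 - n ^ 2) ^ x + (2 * m * n) ^ (2 * Y) = (m ^ 2 + n ^ 2) ^ (2 * Z) := by
      rw [two_mul Y, two_mul Z, ← hY, ← hZ]; exact e
    have := even_case_large h hn hl hm hx (by omega) (by omega) e'
    omega
  · by_contra hne
    obtain ⟨δ, h1, h2, h3⟩ := exc_of_not_evenJes h hne
    exact hδ δ h1 h2 h3

theorem jesMN_of {m n : ℕ} (h : Adm m n) (hp : ParCond m n) (he : EvenJes m n) :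
    JesMN m n := by
  intro x y z hx hy hz e
  obtain ⟨h1, h2⟩ := even_yz h hp hx e
  exact he x y z hx hy hz h1 h2 e

theorem four_dvd_two_mul {m n : ℕ} (h : Adm m n) : 2 ^ 2 ∣ 2 * m * n := by
  obtain ⟨f1, f2, f3, f4, f5⟩ := adm_facts h
  simpa using four_dvd f1 f2 f5

/-- The ratio condition for `m ≤ 15 n`. -/
theorem ratio15 {m n : ℕ} (h : Adm m n) (h15 : m ≤ 15 * n) :
    (m ^ 2 + n ^ 2) ^ 2 ≤ 2 ^ (3 * 2) * (2 * m * n) ^ 2 := by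
  obtain ⟨hn0, hnm, hco, hodd⟩ := h
  have h1 : m ^ 2 + n ^ 2 ≤ 8 * (2 * m * n) := by nlinarith
  calc (m ^ 2 + n ^ 2) ^ 2 ≤ (8 * (2 * m * n)) ^ 2 := Nat.pow_le_pow_left h1 2
    _ = 2 ^ (3 * 2) * (2 * m * n) ^ 2 := by ring

theorem parCond_mod8 {m n : ℕ} (hs : (m + n) % 4 = 3) (ht : (m - n) % 8 = 3 ∨ (m - n) % 8 = 5) :
    ParCond m n :=
  ⟨m + n, dvd_rfl, hs, Or.inl ⟨m - n, dvd_rfl, ht⟩⟩

/-- The exceptional pairs with the parity condition. -/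
theorem par_exc_count (ε : ℝ) (hε : 0 < ε) : ∃ K : ℝ, 0 < K ∧ ∀ C : ℕ, 5 ≤ C →
    (({p : ℕ × ℕ | Adm p.1 p.2 ∧ p.1 ^ 2 + p.2 ^ 2 ≤ C ∧ ParCond p.1 p.2 ∧
      ¬ JesMN p.1 p.2}).ncard : ℝ) ≤ K * (C : ℝ) ^ (1 / 2 + ε) := by
  obtain ⟨K, hK, h⟩ := even_exc_count ε hε
  refine ⟨K, hK, fun C hC => le_trans ?_ (h C hC)⟩
  have hfin : ({p : ℕ × ℕ | Adm p.1 p.2 ∧ p.1 ^ 2 + p.2 ^ 2 ≤ C ∧
      ¬ EvenJes p.1 p.2}).Finite := by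
    apply ((Set.finite_Iic C).prod (Set.finite_Iic C)).subset
    rintro ⟨m, n⟩ ⟨h1, h2, h3⟩
    simp only [Set.mem_prod, Set.mem_Iic]
    simp only at h2
    constructor
    · nlinarith [Nat.zero_le (n ^ 2)]
    · nlinarith [Nat.zero_le (m ^ 2)]
  exact_mod_cast Set.ncard_le_ncard (by
    rintro ⟨m, n⟩ ⟨h1, h2, h3, h4⟩
    exact ⟨h1, h2, fun he => h4 (jesMN_of h1 h3 he)⟩) hfin

end Jes95
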