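import Pool.Agent.LibJes95.Defs
namespace Jes95

/-- Splitting of the binomial expansion of `(m^2+n^2)^Z` at the power `m^Y` (`Y < 2Z`):
`(m^2+n^2)^Z = m^Y H + R` with `n^2 ∣ H - m^(2Z-Y)` and `R ≤ 2^Z m^(Y-1) n^(2Z-Y+1)`. -/
theorem binom_split {m n Y Z : ℕ} (hnm : n ≤ m) (hY : 0 < Y) (hYZ : Y < 2 * Z) :
    ∃ H R q : ℕ, (m ^ 2 + n ^ 2) ^ Z = m ^ Y * H + R ∧ H = m ^ (2 * Z - Y) + n ^ 2 * q ∧
      R ≤ 2 ^ Z * (m ^ (Y - 1) * n ^ (2 * Z - Y + 1)) := by
  classical
  -- term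
  set f : ℕ → ℕ := fun i => (m ^ 2) ^ i * (n ^ 2) ^ (Z - i) * Z.choose i with hf
  have hsum : (m ^ 2 + n ^ 2) ^ Z = ∑ i ∈ Finset.range (Z + 1), f i := by
    rw [add_pow]
    apply Finset.sum_congr rfl
    intro i _
    simp only [hf, Nat.cast_id]
  have hsplit : ∑ i ∈ Finset.range (Z + 1), f i =
      ∑ i ∈ (Finset.range (Z + 1)).filter (fun i => Y ≤ 2 * i), f i +
      ∑ i ∈ (Finset.range (Z + 1)).filter (fun i => ¬ Y ≤ 2 * i), f i :=
    (Finset.sum_filter_add_sum_filter_not _ _ _).symm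
  have hHsum : ∑ i ∈ (Finset.range (Z + 1)).filter (fun i => Y ≤ 2 * i), f i =
      m ^ Y * ∑ i ∈ (Finset.range (Z + 1)).filter (fun i => Y ≤ 2 * i),
        m ^ (2 * i - Y) * (n ^ 2) ^ (Z - i) * Z.choose i := by
    rw [Finset.mul_sum]
    apply Finset.sum_congr rfl
    intro i hi
    have hi2 : Y ≤ 2 * i := (Finset.mem_filter.mp hi).2
    simp only [hf]
    have : (m ^ 2) ^ i = m ^ Y * m ^ (2 * i - Y) := by
      rw [← pow_mul, ← pow_add]
      congr 1
      omega
    rw [this]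
    ring
  have hHq : ∃ q, ∑ i ∈ (Finset.range (Z + 1)).filter (fun i => Y ≤ 2 * i),
        m ^ (2 * i - Y) * (n ^ 2) ^ (Z - i) * Z.choose i = m ^ (2 * Z - Y) + n ^ 2 * q := by
    have hZmem : Z ∈ (Finset.range (Z + 1)).filter (fun i => Y ≤ 2 * i) := by
      simp only [Finset.mem_filter, Finset.mem_range]
      omega
    rw [← Finset.add_sum_erase _ _ hZmem]
    refine ⟨∑ i ∈ ((Finset.range (Z + 1)).filter (fun i => Y ≤ 2 * i)).erase Z,
        m ^ (2 * i - Y) * (n ^ 2) ^ (Z - i - 1) * Z.choose i, ?_⟩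
    congr 1
    · simp
    · rw [Finset.mul_sum]
      apply Finset.sum_congr rfl
      intro i hi
      have hi1 : i ≠ Z := (Finset.mem_erase.mp hi).1
      have hi2 : i < Z + 1 := Finset.mem_range.mp (Finset.mem_filter.mp (Finset.mem_erase.mp hi).2).1
      have : (n ^ 2) ^ (Z - i) = n ^ 2 * (n ^ 2) ^ (Z - i - 1) := by
        rw [← pow_succ']
        congr 1
        omega
      rw [this]
      ring
  obtain ⟨q, hq⟩ := hHq
  refine ⟨_, ∑ i ∈ (Finset.range (Z + 1)).filter (fun i => ¬ Y ≤ 2 * i), f i, q,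
    ?_, hq, ?_⟩
  · rw [hsum, hsplit, hHsum]
  · calc ∑ i ∈ (Finset.range (Z + 1)).filter (fun i => ¬ Y ≤ 2 * i), f i
        ≤ ∑ i ∈ (Finset.range (Z + 1)).filter (fun i => ¬ Y ≤ 2 * i),
            (m ^ (Y - 1) * n ^ (2 * Z - Y + 1)) * Z.choose i := by
          apply Finset.sum_le_sum
          intro i hi
          have hi2 : ¬ Y ≤ 2 * i := (Finset.mem_filter.mp hi).2
          simp only [hf]
          apply Nat.mul_le_mul_right
          have e1 : (m ^ 2) ^ i * (n ^ 2) ^ (Z - i) =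
              m ^ (2 * i) * (n ^ (Y - 1 - 2 * i) * n ^ (2 * Z - Y + 1)) := by
            rw [← pow_mul, ← pow_mul, ← pow_add]
            congr 2
            have : i < Z := by omega
            omega
          have e2 : m ^ (Y - 1) = m ^ (2 * i) * m ^ (Y - 1 - 2 * i) := by
            rw [← pow_add]
            congr 1
            omega
          rw [e1, e2]
          calc m ^ (2 * i) * (n ^ (Y - 1 - 2 * i) * n ^ (2 * Z - Y + 1))
              ≤ m ^ (2 * i) * (m ^ (Y - 1 - 2 * i) * n ^ (2 * Z - Y + 1)) := by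
                gcongr
            _ = _ := by ring
      _ ≤ ∑ i ∈ Finset.range (Z + 1), (m ^ (Y - 1) * n ^ (2 * Z - Y + 1)) * Z.choose i := by
          apply Finset.sum_le_sum_of_subset
          exact Finset.filter_subset _ _
      _ = 2 ^ Z * (m ^ (Y - 1) * n ^ (2 * Z - Y + 1)) := by
          rw [← Finset.mul_sum, Nat.sum_range_choose]
          ring

end Jes95
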