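import Pool.Agent.LibJes95.Core
import Pool.Agent.LibJes95.F1
import Pool.Agent.LibJes95.G1
namespace Jes95

theorem sq_le_two_pow' {m : ℕ} (hm : 4 ≤ m) : m ^ 2 ≤ 2 ^ m := by
  induction m, hm using Nat.le_induction with
  | base => norm_num
  | succ k hk ih =>
    rw [pow_succ 2 k]
    nlinarith

/-- The case `x = 2Z` (LTE replaced by a congruence). -/
theorem no_eq_case {a b c Y Z : ℕ} (hab : a.Coprime b) (hb0 : 0 < b)
    (h : a ^ 2 + b ^ 2 = c ^ 2) (hZ : 0 < Z) (hY : 2 ≤ Y)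
    (e : a ^ (2 * Z) + b ^ (2 * Y) = c ^ (2 * Z)) : b ^ 2 ≤ Z := by
  have h1 : (c : ℤ) ^ 2 - (a : ℤ) ^ 2 = (b : ℤ) ^ 2 := by
    have : ((a ^ 2 + b ^ 2 : ℕ) : ℤ) = ((c ^ 2 : ℕ) : ℤ) := by rw [h]
    push_cast at this
    linarith
  have h2 : ((c : ℤ) ^ 2) ^ Z - ((a : ℤ) ^ 2) ^ Z = (b : ℤ) ^ (2 * Y) := by
    have : ((a ^ (2 * Z) + b ^ (2 * Y) : ℕ) : ℤ) = ((c ^ (2 * Z) : ℕ) : ℤ) := by rw [e]
    push_cast at this
    rw [← pow_mul, ← pow_mul]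
    linarith
  set S : ℤ := ∑ i ∈ Finset.range Z, ((c : ℤ) ^ 2) ^ i * ((a : ℤ) ^ 2) ^ (Z - 1 - i) with hS
  have h3 : S * ((c : ℤ) ^ 2 - (a : ℤ) ^ 2) = ((c : ℤ) ^ 2) ^ Z - ((a : ℤ) ^ 2) ^ Z :=
    (Commute.all _ _).geom_sum₂_mul Z
  rw [h1, h2] at h3
  have hb2 : (b : ℤ) ^ 2 ≠ 0 := by positivity
  have h4 : S = (b : ℤ) ^ (2 * Y - 2) := by
    apply mul_right_cancel₀ hb2
    rw [h3, ← pow_add]
    congr 1
    omega
  have h5 : (b : ℤ) ^ 2 ∣ S := by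
    rw [h4]
    exact pow_dvd_pow _ (by omega)
  have h6 : (b : ℤ) ^ 2 ∣ (Z : ℤ) * ((a : ℤ) ^ 2) ^ (Z - 1) := by
    rw [hS] at h5
    exact (dvd_geom_sum₂_iff_of_dvd_sub (by rw [h1])).mp h5
  have h7 : b ^ 2 ∣ Z * (a ^ 2) ^ (Z - 1) := by exact_mod_cast h6
  have h8 : b ^ 2 ∣ Z := by
    refine Nat.Coprime.dvd_of_dvd_mul_right ?_ h7
    exact ((hab.symm.pow_left 2).pow_right 2).pow_right _
  exact Nat.le_of_dvd hZ h8

/-- `4^Y ≤ m^2 Y` and `x ≤ 2Y`. -/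
theorem large1 {m n a b c x Y : ℕ} (hn0 : 0 < n) (ha : a + n ^ 2 = m ^ 2) (ha0 : 0 < a)
    (hba : b < a) (hx2 : 2 ≤ x) (hY : 0 < Y)
    (h2 : 2 ^ (2 * Y + 1) ≤ (a + 1) * x) (h3 : x ^ 2 * a ^ (x - 1) ≤ b ^ (2 * Y)) :
    x ≤ 2 * Y ∧ 4 ^ Y ≤ m ^ 2 * Y := by
  have hx2Y : x ≤ 2 * Y := by
    by_contra hcon
    have h5 : a ^ (2 * Y) ≤ a ^ (x - 1) := Nat.pow_le_pow_right ha0 (by omega)
    have h6 : b ^ (2 * Y) < a ^ (2 * Y) := Nat.pow_lt_pow_left hba (by omega)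
    have h7 : a ^ (x - 1) ≤ x ^ 2 * a ^ (x - 1) := Nat.le_mul_of_pos_left _ (by positivity)
    omega
  refine ⟨hx2Y, ?_⟩
  have h5 : 2 ^ (2 * Y + 1) ≤ (a + 1) * (2 * Y) := h2.trans (Nat.mul_le_mul_left _ hx2Y)
  have h6 : (2 : ℕ) ^ (2 * Y + 1) = 2 * 4 ^ Y := by
    rw [pow_succ, pow_mul]; norm_num; ring
  rw [h6] at h5
  have h7 : 4 ^ Y ≤ (a + 1) * Y := by
    have : (a + 1) * (2 * Y) = 2 * ((a + 1) * Y) := by ring
    omega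
  have h8 : a + 1 ≤ m ^ 2 := by
    have : 0 < n ^ 2 := by positivity
    omega
  exact h7.trans (Nat.mul_le_mul_right _ h8)

theorem large2 {m Y : ℕ} (hm : 4 ≤ m) (h4Y : 4 ^ Y ≤ m ^ 2 * Y) : 2 ^ Y < m ^ 2 ∧ Y < m := by
  have h2Y : 2 ^ Y < m ^ 2 := by
    have h5 : Y < 2 ^ Y := Nat.lt_two_pow_self
    have h6 : (4 : ℕ) ^ Y = 2 ^ Y * 2 ^ Y := by
      rw [← mul_pow]; norm_num
    have h7 : 2 ^ Y * 2 ^ Y < m ^ 2 * 2 ^ Y := by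
      rw [← h6]
      exact lt_of_le_of_lt h4Y (Nat.mul_lt_mul_of_pos_left h5 (by positivity))
    exact Nat.lt_of_mul_lt_mul_right h7
  refine ⟨h2Y, ?_⟩
  by_contra hcon
  push Not at hcon
  have h5 : m ^ 2 ≤ 2 ^ m := sq_le_two_pow' hm
  have h6 : (2 : ℕ) ^ m ≤ 2 ^ Y := Nat.pow_le_pow_right (by norm_num) hcon
  omega

/-- `x ≤ 2 Z`. -/
theorem large3 {a b c x Y Z : ℕ} (ha0 : 0 < a) (hb0 : 0 < b) (hba : b < a)
    (f5 : a ^ 2 + b ^ 2 = c ^ 2) (h2Z : 2 ^ Z < a)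
    (e : a ^ x + b ^ (2 * Y) = c ^ (2 * Z)) : x ≤ 2 * Z := by
  have hc2 : c ^ 2 ≤ 2 * a ^ 2 := by
    have : b ^ 2 ≤ a ^ 2 := Nat.pow_le_pow_left hba.le 2
    omega
  by_contra hcon
  have h5 : c ^ (2 * Z) ≤ 2 ^ Z * a ^ (2 * Z) := by
    rw [pow_mul, pow_mul, ← mul_pow]
    exact Nat.pow_le_pow_left hc2 Z
  have h6 : 2 ^ Z * a ^ (2 * Z) < a ^ (2 * Z + 1) := by
    rw [pow_succ, mul_comm]
    exact Nat.mul_lt_mul_of_pos_left h2Z (by positivity)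
  have h7 : a ^ (2 * Z + 1) ≤ a ^ x := Nat.pow_le_pow_right ha0 (by omega)
  have h8 : 0 < b ^ (2 * Y) := by positivity
  omega

/-- `Z < x`. -/
theorem large4 {a b c r s x Y Z : ℕ} (hc0 : 0 < c) (hb0 : 0 < b) (hac : a < c)
    (hrs : r * s = a) (hs0 : 0 < s) (hr : r ^ x = c ^ Z + b ^ Y) : Z < x := by
  by_contra hcon
  push Not at hcon
  have h5 : r ≤ c := by
    have : r ≤ a := by
      rw [← hrs]
      exact Nat.le_mul_of_pos_right _ hs0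
    omega
  have h6 : r ^ x ≤ c ^ Z :=
    (Nat.pow_le_pow_left h5 x).trans (Nat.pow_le_pow_right hc0 hcon)
  have h8 : 0 < b ^ Y := by positivity
  omega

/-- `m ≤ n^j`. -/
theorem large5 {m n a b x Y Z j : ℕ} (hco : m.Coprime n) (hn : 2 ≤ n)
    (ha_eq : a + n ^ 2 = m ^ 2) (hY : 0 < Y) (hmb : m ∣ b) (hj : 2 * Z = x + j) (hj1 : 1 ≤ j)
    (e : a ^ x + b ^ (2 * Y) = (m ^ 2 + n ^ 2) ^ (2 * Z)) : m ≤ n ^ j := by
  have haZ : (a : ℤ) = (m : ℤ) ^ 2 - (n : ℤ) ^ 2 := by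
    have : ((a + n ^ 2 : ℕ) : ℤ) = ((m ^ 2 : ℕ) : ℤ) := by rw [ha_eq]
    push_cast at this
    linarith
  have k1 : (m : ℤ) ^ 2 ∣ (a : ℤ) ^ x - (-(n : ℤ) ^ 2) ^ x := by
    have h1 := sub_dvd_pow_sub_pow (a : ℤ) (-(n : ℤ) ^ 2) x
    refine dvd_trans ?_ h1
    rw [haZ]
    exact ⟨1, by ring⟩
  have k2 : (m : ℤ) ^ 2 ∣ ((m : ℤ) ^ 2 + (n : ℤ) ^ 2) ^ (2 * Z) - ((n : ℤ) ^ 2) ^ (2 * Z) := by
    have h1 := sub_dvd_pow_sub_pow ((m : ℤ) ^ 2 + (n : ℤ) ^ 2) ((n : ℤ) ^ 2) (2 * Z)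
    refine dvd_trans ?_ h1
    exact ⟨1, by ring⟩
  have k3 : (m : ℤ) ^ 2 ∣ (b : ℤ) ^ (2 * Y) := by
    have h0 : (m : ℤ) ∣ (b : ℤ) := by exact_mod_cast hmb
    exact (pow_dvd_pow_of_dvd h0 2).trans (pow_dvd_pow _ (by omega))
  have k4 : (a : ℤ) ^ x + (b : ℤ) ^ (2 * Y) = ((m : ℤ) ^ 2 + (n : ℤ) ^ 2) ^ (2 * Z) := by
    exact_mod_cast e
  have k5 : (m : ℤ) ^ 2 ∣ ((n : ℤ) ^ 2) ^ (2 * Z) - (-(n : ℤ) ^ 2) ^ x := by
    have : ((n : ℤ) ^ 2) ^ (2 * Z) - (-(n : ℤ) ^ 2) ^ x =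
        ((a : ℤ) ^ x - (-(n : ℤ) ^ 2) ^ x) + (b : ℤ) ^ (2 * Y)
        - (((m : ℤ) ^ 2 + (n : ℤ) ^ 2) ^ (2 * Z) - ((n : ℤ) ^ 2) ^ (2 * Z)) := by
      rw [← k4]; ring
    rw [this]
    exact dvd_sub (dvd_add k1 k3) k2
  have k6 : ((n : ℤ) ^ 2) ^ (2 * Z) - (-(n : ℤ) ^ 2) ^ x =
      ((n : ℤ) ^ 2) ^ x * ((n : ℤ) ^ (2 * j) - (-1) ^ x) := by
    rw [hj, pow_add, neg_pow ((n : ℤ) ^ 2) x, pow_mul (n : ℤ) 2 j]
    ring
  rw [k6] at k5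
  have k7 : IsCoprime ((m : ℤ) ^ 2) (((n : ℤ) ^ 2) ^ x) := by
    have h0 : IsCoprime (m : ℤ) (n : ℤ) := Nat.isCoprime_iff_coprime.mpr hco
    exact (h0.pow).pow_right
  have k8 := k7.dvd_of_dvd_mul_left k5
  have k9 : (1 : ℤ) < (n : ℤ) ^ (2 * j) := by
    have : 1 < n ^ (2 * j) := Nat.one_lt_pow (by omega) (by omega)
    exact_mod_cast this
  have k10 : (n : ℤ) ^ (2 * j) - (-1) ^ x ≤ (n : ℤ) ^ (2 * j) + 1 ∧
      0 < (n : ℤ) ^ (2 * j) - (-1) ^ x := by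
    rcases neg_one_pow_eq_or ℤ x with h | h <;> rw [h] <;> constructor <;> linarith
  have k11 := Int.le_of_dvd k10.2 k8
  have k12 : (m : ℤ) ^ 2 ≤ (n : ℤ) ^ (2 * j) + 1 := k11.trans k10.1
  have k13 : m ^ 2 ≤ (n ^ j) ^ 2 + 1 := by
    rw [← pow_mul, mul_comm j 2]
    exact_mod_cast k12
  by_contra hcon
  push Not at hcon
  have : 0 < n ^ j := by positivity
  generalize n ^ j = N at *
  nlinarith

/-- `t ≤ 2l`. -/
theorem large6 {m n a b c x Y Z t l : ℕ} (hm : 4 ≤ m) (hb : b = 2 * n * m)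
    (hc : m ^ 2 ≤ c) (hac : a ≤ c) (ha2 : 2 ≤ a) (hx : x < 2 * Z)
    (e : a ^ x + b ^ (2 * Y) = c ^ (2 * Z))
    (ht : 2 * Z = Y + t) (hl : 2 * n ≤ 2 ^ l) (h4Y : 4 ^ Y ≤ m ^ 2 * Y) (hYm : Y < m) :
    t ≤ 2 * l := by
  have hc2Z : c ^ (2 * Z) ≤ 2 * b ^ (2 * Y) := by
    have h5 : 2 * a ^ x ≤ c ^ (2 * Z) := by
      calc 2 * a ^ x ≤ a * a ^ x := Nat.mul_le_mul_right _ ha2
        _ = a ^ (x + 1) := by rw [pow_succ]; ring
        _ ≤ a ^ (2 * Z) := Nat.pow_le_pow_right (by omega) (by omega)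
        _ ≤ _ := Nat.pow_le_pow_left hac _
    omega
  have hm0 : 0 < m := by omega
  have h5 : m ^ (2 * Y) * m ^ (2 * t) ≤ m ^ (2 * Y) * (2 * (2 * n) ^ (2 * Y)) := by
    calc m ^ (2 * Y) * m ^ (2 * t) = (m ^ 2) ^ (2 * Z) := by
          rw [← pow_add, ← pow_mul]; congr 1; omega
      _ ≤ c ^ (2 * Z) := Nat.pow_le_pow_left hc _
      _ ≤ 2 * b ^ (2 * Y) := hc2Z
      _ = _ := by rw [hb, mul_pow (2 * n) m]; ring
  have h6 : m ^ (2 * t) ≤ 2 * (2 * n) ^ (2 * Y) := Nat.le_of_mul_le_mul_left h5 (by positivity)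
  have h7 : (2 * n) ^ (2 * Y) ≤ (m ^ 3) ^ l := by
    calc (2 * n) ^ (2 * Y) ≤ (2 ^ l) ^ (2 * Y) := Nat.pow_le_pow_left hl _
      _ = (4 ^ Y) ^ l := by
          rw [← pow_mul, ← pow_mul, show (4 : ℕ) = 2 ^ 2 by norm_num, ← pow_mul]
          congr 1; ring
      _ ≤ (m ^ 2 * Y) ^ l := Nat.pow_le_pow_left h4Y l
      _ ≤ (m ^ 3) ^ l := by
          apply Nat.pow_le_pow_left
          calc m ^ 2 * Y ≤ m ^ 2 * m := Nat.mul_le_mul_left _ hYm.le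
            _ = m ^ 3 := by ring
  have h8 : m ^ (2 * t) < m ^ (3 * l + 1) := by
    calc m ^ (2 * t) ≤ 2 * (m ^ 3) ^ l := h6.trans (Nat.mul_le_mul_left _ h7)
      _ = 2 * m ^ (3 * l) := by rw [← pow_mul]
      _ < m * m ^ (3 * l) := Nat.mul_lt_mul_of_pos_right (by omega) (by positivity)
      _ = m ^ (3 * l + 1) := by rw [pow_succ]; ring
  have h9 := (Nat.pow_lt_pow_iff_right (by omega : 1 < m)).mp h8
  omega

/-- `s^x < m^Y`. -/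
theorem large7 {m n a b c r s x Y Z t l j : ℕ} (hn : 2 ≤ n) (hm1 : 1 < m)
    (hm : (2 * n) ^ (8 * l + 4) ≤ m)
    (hrs : r * s = a) (hs0 : 0 < s) (hb0 : 0 < b) (hr : r ^ x = c ^ Z + b ^ Y)
    (hac : a ≤ c) (ham : a ≤ m ^ 2) (hZx : Z < x) (hj : 2 * Z = x + j)
    (ht : 2 * Z = Y + t) (ht2l : t ≤ 2 * l) (hmnj : m ≤ n ^ j) : s ^ x < m ^ Y := by
  by_contra hcon
  push Not at hcon
  have hm0 : 0 < m := by omega
  have h5 : m ^ Y * c ^ Z < a ^ (x - Z) * c ^ Z := by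
    calc m ^ Y * c ^ Z ≤ s ^ x * c ^ Z :=
          Nat.mul_le_mul_right _ hcon
      _ < s ^ x * r ^ x := by
          apply Nat.mul_lt_mul_of_pos_left _ (by positivity)
          rw [hr]
          have : 0 < b ^ Y := by positivity
          omega
      _ = a ^ x := by rw [← mul_pow, mul_comm s r, hrs]
      _ = a ^ (x - Z) * a ^ Z := by rw [← pow_add]; congr 1; omega
      _ ≤ a ^ (x - Z) * c ^ Z :=
          Nat.mul_le_mul_left _ (Nat.pow_le_pow_left hac Z)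
  have h6 : m ^ Y < a ^ (x - Z) := Nat.lt_of_mul_lt_mul_right h5
  have h7 : m ^ Y < m ^ (2 * (x - Z)) := by
    refine lt_of_lt_of_le h6 ?_
    rw [pow_mul]
    exact Nat.pow_le_pow_left ham _
  have h8 := (Nat.pow_lt_pow_iff_right hm1).mp h7
  have h9 : j ≤ l := by omega
  have h10 : m < m := by
    calc m ≤ n ^ j := hmnj
      _ ≤ n ^ l := Nat.pow_le_pow_right (by omega) h9
      _ ≤ (2 * n) ^ l := Nat.pow_le_pow_left (by omega) l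
      _ < (2 * n) ^ (8 * l + 4) := Nat.pow_lt_pow_right (by omega) (by omega)
      _ ≤ m := hm
  omega

/-- The remainder in the binomial expansion is small. -/
theorem large8 {m n Y Z t l : ℕ} (hn : 2 ≤ n) (hm1 : 1 < m)
    (hm : (2 * n) ^ (8 * l + 4) ≤ m) (ht : 2 * Z = Y + t) (ht2l : t ≤ 2 * l)
    (h4Y : 4 ^ Y ≤ m ^ 2 * Y) (hYm : Y < m) : 2 ^ Z * n ^ (t + 1) < m := by
  have hm0 : 0 < m := by omega
  have h5 : (2 ^ Z * n ^ (t + 1)) ^ 4 < m ^ 4 := by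
    calc (2 ^ Z * n ^ (t + 1)) ^ 4 = 2 ^ (4 * Z) * n ^ (4 * t + 4) := by
          rw [mul_pow, ← pow_mul, ← pow_mul]; congr 2 <;> ring
      _ = 4 ^ Y * (4 ^ t * n ^ (4 * t + 4)) := by
          have : (2 : ℕ) ^ (4 * Z) = 4 ^ Y * 4 ^ t := by
            rw [← pow_add, show (4 : ℕ) = 2 ^ 2 by norm_num, ← pow_mul]
            congr 1; omega
          rw [this]; ring
      _ ≤ 4 ^ Y * (2 * n) ^ (4 * t + 4) := by
          apply Nat.mul_le_mul_left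
          rw [mul_pow]
          apply Nat.mul_le_mul_right
          calc 4 ^ t = 2 ^ (2 * t) := by rw [show (4 : ℕ) = 2 ^ 2 by norm_num, ← pow_mul]
            _ ≤ 2 ^ (4 * t + 4) := Nat.pow_le_pow_right (by norm_num) (by omega)
      _ ≤ (m ^ 2 * Y) * (2 * n) ^ (8 * l + 4) := by
          apply Nat.mul_le_mul h4Y
          exact Nat.pow_le_pow_right (by omega) (by omega)
      _ ≤ (m ^ 2 * Y) * m := Nat.mul_le_mul_left _ hm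
      _ < (m ^ 2 * m) * m := by
          apply Nat.mul_lt_mul_of_pos_right _ hm0
          exact Nat.mul_lt_mul_of_pos_left hYm (by positivity)
      _ = m ^ 4 := by ring
  exact lt_of_pow_lt_pow_left₀ 4 (by omega) h5

/-- Final contradiction. -/
theorem large9 {m n s x Y Z t : ℕ} (hn : 2 ≤ n) (hnm : n ≤ m) (hco : m.Coprime n) (hY : 2 ≤ Y)
    (ht : 2 * Z = Y + t) (ht1 : 1 ≤ t) (hsx : s ^ x < m ^ Y)
    (hs : s ^ x + (2 * n * m) ^ Y = (m ^ 2 + n ^ 2) ^ Z)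
    (hsmall : 2 ^ Z * n ^ (t + 1) < m) : False := by
  have hm0 : 0 < m := by omega
  obtain ⟨H, R, q, hHR, hH, hR⟩ := binom_split (Z := Z) hnm (by omega : 0 < Y) (by omega)
  have ht' : 2 * Z - Y = t := by omega
  rw [ht'] at hH hR
  have hRlt : R < m ^ Y := by
    calc R ≤ 2 ^ Z * (m ^ (Y - 1) * n ^ (t + 1)) := hR
      _ = (2 ^ Z * n ^ (t + 1)) * m ^ (Y - 1) := by ring
      _ < m * m ^ (Y - 1) := Nat.mul_lt_mul_of_pos_right hsmall (by positivity)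
      _ = m ^ Y := by rw [← pow_succ']; congr 1; omega
  have hHeq : (2 * n) ^ Y = H := by
    have h5 : m ^ Y * (2 * n) ^ Y + s ^ x = m ^ Y * H + R := by
      rw [← hHR, ← hs, mul_pow (2 * n) m]; ring
    have h6 : (m ^ Y * (2 * n) ^ Y + s ^ x) / m ^ Y = (2 * n) ^ Y := by
      rw [Nat.mul_add_div (by positivity), Nat.div_eq_of_lt hsx, add_zero]
    have h7 : (m ^ Y * H + R) / m ^ Y = H := by
      rw [Nat.mul_add_div (by positivity), Nat.div_eq_of_lt hRlt, add_zero]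
    rw [← h6, h5, h7]
  have hdvd : n ^ 2 ∣ m ^ t := by
    have h5 : n ^ 2 ∣ (2 * n) ^ Y := by
      have h6 : n ^ 2 ∣ n ^ Y := pow_dvd_pow _ (by omega)
      rw [mul_pow]
      exact Dvd.dvd.mul_left h6 _
    rw [hHeq, hH] at h5
    exact (Nat.dvd_add_left (Dvd.intro _ rfl)).mp h5
  have hcop : Nat.Coprime (n ^ 2) (m ^ t) := (hco.symm.pow_left 2).pow_right t
  have h1 : n ^ 2 = 1 := Nat.Coprime.eq_one_of_dvd hcop hdvd
  nlinarith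

theorem even_case_large {m n x Y Z l : ℕ} (h : Adm m n) (hn : 2 ≤ n) (hl : 2 * n ≤ 2 ^ l)
    (hm : (2 * n) ^ (8 * l + 4) ≤ m) (hx : 0 < x) (hY : 0 < Y) (hZ : 0 < Z)
    (e : (m ^ 2 - n ^ 2) ^ x + (2 * m * n) ^ (2 * Y) = (m ^ 2 + n ^ 2) ^ (2 * Z)) :
    x = 2 ∧ Y = 1 ∧ Z = 1 := by
  obtain ⟨f1, f2, f3, f4, f5⟩ := adm_facts h
  obtain ⟨hn0, hnm, hco, hodd⟩ := h
  have h4b : (2 : ℕ) ^ 2 ∣ 2 * m * n := by
    have := four_dvd f1 f2 f5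
    simpa using this
  rcases core f1 f2 f3 f4 f5 hx hY hZ e 2 h4b with h1 | ⟨ha3, hx2, hZY, hord, h1, h2, h3⟩
  · exact h1
  exfalso
  obtain ⟨-, r, s, hrs, hr, hs, hsr, hs0, hro, hso⟩ := factor f1 f2 f3 f4 f5 hx hY hZ e
  clear hord f1 f2 h4b
  have hm4 : 4 * n ≤ m := by
    refine le_trans ?_ hm
    calc 4 * n ≤ (2 * n) ^ 2 := by nlinarith
      _ ≤ (2 * n) ^ (8 * l + 4) := Nat.pow_le_pow_right (by omega) (by omega)
  have hnn : n ^ 2 ≤ m ^ 2 := Nat.pow_le_pow_left hnm.le 2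
  have h16 : 16 * n ^ 2 ≤ m ^ 2 := by nlinarith
  have ha_eq : (m ^ 2 - n ^ 2) + n ^ 2 = m ^ 2 := Nat.sub_add_cancel hnn
  have hb : 2 * m * n = 2 * n * m := by ring
  rw [hb] at e h1 h3 hr hs f3 f4 f5
  have hmb : m ∣ 2 * n * m := Dvd.intro_left _ rfl
  have hbdef : 2 * n * m = 2 * n * m := rfl
  generalize ha : m ^ 2 - n ^ 2 = a at *
  have hba : 2 * n * m < a := by nlinarith
  have hac : a < m ^ 2 + n ^ 2 := by
    have : 0 < n ^ 2 := by positivity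
    omega
  have ha0 : 0 < a := by omega
  obtain ⟨hx2Y, h4Y⟩ := large1 hn0 ha_eq ha0 hba hx2 hY h2 h3 (c := 0)
  obtain ⟨h2Y, hYm⟩ := large2 (by omega) h4Y
  have h2Z : 2 ^ Z < a := by
    have h5 : 2 ^ (Z + 1) ≤ 2 ^ Y := Nat.pow_le_pow_right (by norm_num) hZY
    rw [pow_succ] at h5
    omega
  have hx2Z : x ≤ 2 * Z := large3 ha0 f3 hba f5 h2Z e
  have hxne : x ≠ 2 * Z := by
    rintro rfl
    have h5 := no_eq_case f4 f3 f5 hZ (by omega) e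
    have h6 : m ≤ (2 * n * m) ^ 2 := by
      calc m ≤ 2 * n * m := Nat.le_mul_of_pos_left _ (by omega)
        _ ≤ (2 * n * m) ^ 2 := Nat.le_self_pow (by norm_num) _
    omega
  have hZx : Z < x := large4 (by omega) f3 hac hrs hs0 hr
  obtain ⟨j, hj⟩ : ∃ j, 2 * Z = x + j := ⟨2 * Z - x, by omega⟩
  have hmnj : m ≤ n ^ j := large5 hco hn ha_eq hY hmb hj (by omega) e
  have hbYcZ : (2 * n * m) ^ Y < (m ^ 2 + n ^ 2) ^ Z := by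
    have : 0 < s ^ x := by positivity
    omega
  have hY2Z : Y < 2 * Z := by
    by_contra hcon
    push Not at hcon
    have h5 : m ^ 2 + n ^ 2 ≤ (2 * n * m) ^ 2 := by
      calc m ^ 2 + n ^ 2 ≤ 2 * m ^ 2 := by omega
        _ ≤ (2 * n) ^ 2 * m ^ 2 := Nat.mul_le_mul_right _ (by nlinarith)
        _ = _ := by ring
    have h6 : (m ^ 2 + n ^ 2) ^ Z ≤ (2 * n * m) ^ Y := by
      calc (m ^ 2 + n ^ 2) ^ Z ≤ ((2 * n * m) ^ 2) ^ Z := Nat.pow_le_pow_left h5 Z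
        _ = (2 * n * m) ^ (2 * Z) := by rw [← pow_mul]
        _ ≤ (2 * n * m) ^ Y := Nat.pow_le_pow_right f3 hcon
    omega
  obtain ⟨t, ht⟩ : ∃ t, 2 * Z = Y + t := ⟨2 * Z - Y, by omega⟩
  have ht1 : 1 ≤ t := by omega
  have ht2l : t ≤ 2 * l := large6 (by omega) rfl (by omega) hac.le (by omega) (by omega) e ht hl
    h4Y hYm
  have hsx : s ^ x < m ^ Y := large7 hn (by omega) hm hrs hs0 f3 hr hac.le (by omega) hZx hj ht
    ht2l hmnj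
  have hsmall := large8 hn (by omega) hm ht ht2l h4Y hYm
  exact large9 hn hnm.le hco (by omega) ht ht1 hsx hs hsmall

end Jes95
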