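import Pool.Agent.LibJes95.Row
import Pool.Agent.LibJes95.H1
namespace Jes95

/-- Sum `row_bound` over `n ≤ M`. -/
theorem pair_bound : ∃ K : ℝ, 0 < K ∧ ∀ M : ℕ, 2 ≤ M →
    (({p : ℕ × ℕ | p.1 ≤ M ∧ Adm p.1 p.2 ∧ ¬ JesMN p.1 p.2}).ncard : ℝ)
      ≤ K * (M : ℝ) ^ 2 / √(Real.log M) := by
  classical
  obtain ⟨K, hK, H⟩ := row_bound
  refine ⟨K, hK, fun M hM => ?_⟩
  let F : Finset (ℕ × ℕ) := ((Finset.range (M + 1)) ×ˢ (Finset.range M)).filter
    (fun p => Adm p.1 p.2 ∧ ¬ JesMN p.1 p.2)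
  have hsub : {p : ℕ × ℕ | p.1 ≤ M ∧ Adm p.1 p.2 ∧ ¬ JesMN p.1 p.2} ⊆ (F : Set (ℕ × ℕ)) := by
    rintro ⟨m, n⟩ ⟨h1, h2, h3⟩
    rw [Finset.mem_coe, Finset.mem_filter, Finset.mem_product, Finset.mem_range, Finset.mem_range]
    have h4 : n < m := h2.2.1
    simp only at h1
    exact ⟨⟨by simp only; omega, by simp only; omega⟩, h2, h3⟩
  have h1 : ({p : ℕ × ℕ | p.1 ≤ M ∧ Adm p.1 p.2 ∧ ¬ JesMN p.1 p.2}).ncard ≤ F.card := by
    rw [← Set.ncard_coe_finset F]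
    exact Set.ncard_le_ncard hsub F.finite_toSet
  have h2 : F.card = ∑ n ∈ Finset.range M, (F.filter (fun p => p.2 = n)).card := by
    apply Finset.card_eq_sum_card_fiberwise
    intro p hp
    rw [Finset.mem_coe, Finset.mem_filter, Finset.mem_product] at hp
    exact Finset.mem_coe.2 hp.1.2
  have h3 : ∀ n, (F.filter (fun p => p.2 = n)).card ≤
      ({m : ℕ | m ≤ M ∧ Adm m n ∧ ¬ JesMN m n}).ncard := by
    intro n
    have hfin : ({m : ℕ | m ≤ M ∧ Adm m n ∧ ¬ JesMN m n}).Finite :=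
      (Set.finite_Iic M).subset fun m hm => hm.1
    rw [Set.ncard_eq_toFinset_card _ hfin]
    apply Finset.card_le_card_of_injOn (fun p => p.1)
    · intro p hp
      rw [Finset.mem_coe, Finset.mem_filter, Finset.mem_filter, Finset.mem_product,
        Finset.mem_range] at hp
      rw [Finset.mem_coe, Set.Finite.mem_toFinset]
      obtain ⟨⟨⟨h4, -⟩, h5, h6⟩, rfl⟩ := hp
      exact ⟨by change p.1 ≤ M; omega, h5, h6⟩
    · intro p hp q hq hpq
      rw [Finset.mem_coe, Finset.mem_filter] at hp hq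
      exact Prod.ext hpq (hp.2.trans hq.2.symm)
  have h4 : (F.card : ℝ) ≤ ∑ n ∈ Finset.range M, K * M / √(Real.log M) := by
    rw [h2]
    push_cast
    apply Finset.sum_le_sum
    intro n _
    exact le_trans (by exact_mod_cast h3 n) (H M hM n)
  rw [Finset.sum_const, Finset.card_range, nsmul_eq_mul] at h4
  calc (({p : ℕ × ℕ | p.1 ≤ M ∧ Adm p.1 p.2 ∧ ¬ JesMN p.1 p.2}).ncard : ℝ) ≤ (F.card : ℝ) := by
        exact_mod_cast h1
    _ ≤ M * (K * M / √(Real.log M)) := h4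
    _ = K * (M : ℝ) ^ 2 / √(Real.log M) := by ring

end Jes95
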