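import Pool.Agent.LibJes95.H2
namespace Jes95

/-- Exceptional primitive triples with hypotenuse at most `C`: `m ≤ √C`, two orders. -/
theorem hyp_bound : ∃ K : ℝ, 0 < K ∧ ∀ C : ℕ, 2 ≤ C →
    (({t : ℕ × ℕ × ℕ | Prim t.1 t.2.1 t.2.2 ∧ t.2.2 ≤ C ∧ ¬ Jes t.1 t.2.1 t.2.2}).ncard : ℝ)
      ≤ K * C / √(Real.log C) := by
  obtain ⟨K, hK, hpb⟩ := pair_bound
  refine ⟨8 * K, by positivity, fun C hC => ?_⟩
  obtain ⟨M, hM2, hMC, hM4, hm⟩ : ∃ M : ℕ, 2 ≤ M ∧ M ^ 2 ≤ 2 * C ∧ C ≤ M ^ 4 ∧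
      ∀ m n : ℕ, m ^ 2 + n ^ 2 ≤ C → m ≤ M := by
    refine ⟨max 2 (Nat.sqrt C), le_max_left _ _, ?_, ?_, fun m n h => ?_⟩
    · rcases le_total (Nat.sqrt C) 2 with h | h
      · rw [max_eq_left h]
        omega
      · rw [max_eq_right h]
        have := Nat.sqrt_le' C
        omega
    · rcases le_total (Nat.sqrt C) 2 with h | h
      · rw [max_eq_left h]
        have h1 := Nat.lt_succ_sqrt' C
        have h2 : (Nat.sqrt C).succ ^ 2 ≤ 3 ^ 2 := Nat.pow_le_pow_left (by omega) 2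
        omega
      · rw [max_eq_right h]
        have h1 := Nat.lt_succ_sqrt' C
        have h2 : (Nat.sqrt C).succ ≤ Nat.sqrt C ^ 2 := by
          have : (Nat.sqrt C).succ = Nat.sqrt C + 1 := rfl
          nlinarith
        have h3 : (Nat.sqrt C).succ ^ 2 ≤ (Nat.sqrt C ^ 2) ^ 2 := Nat.pow_le_pow_left h2 2
        calc C ≤ (Nat.sqrt C).succ ^ 2 := h1.le
          _ ≤ (Nat.sqrt C ^ 2) ^ 2 := h3
          _ = Nat.sqrt C ^ 4 := by ring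
    · refine le_trans ?_ (le_max_right _ _)
      rw [Nat.le_sqrt']
      omega
  set S : Set (ℕ × ℕ) := {p : ℕ × ℕ | p.1 ≤ M ∧ Adm p.1 p.2 ∧ ¬ JesMN p.1 p.2} with hS
  have hSfin : S.Finite := by
    refine (Set.finite_Iic (M, M)).subset ?_
    rintro ⟨m, n⟩ ⟨h1, h2, -⟩
    exact ⟨h1, (h2.2.1.le.trans h1 : n ≤ M)⟩
  set f : ℕ × ℕ → ℕ × ℕ × ℕ := fun p =>
    (p.1 ^ 2 - p.2 ^ 2, 2 * p.1 * p.2, p.1 ^ 2 + p.2 ^ 2) with hf
  set g : ℕ × ℕ → ℕ × ℕ × ℕ := fun p =>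
    (2 * p.1 * p.2, p.1 ^ 2 - p.2 ^ 2, p.1 ^ 2 + p.2 ^ 2) with hg
  have hsub : {t : ℕ × ℕ × ℕ | Prim t.1 t.2.1 t.2.2 ∧ t.2.2 ≤ C ∧ ¬ Jes t.1 t.2.1 t.2.2} ⊆
      f '' S ∪ g '' S := by
    rintro ⟨a, b, c⟩ ⟨h1, h2, h3⟩
    simp only at h1 h2 h3
    obtain ⟨m, n, hA, hc, hab⟩ := prim_param h1
    have hmM : m ≤ M := hm m n (hc ▸ h2)
    rcases hab with ⟨ha, hb⟩ | ⟨ha, hb⟩
    · left
      refine ⟨(m, n), ⟨hmM, hA, fun h4 => h3 ?_⟩, ?_⟩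
      · rw [ha, hb, hc]
        exact h4
      · simp only [hf]
        rw [ha, hb, hc]
    · right
      refine ⟨(m, n), ⟨hmM, hA, fun h4 => h3 ?_⟩, ?_⟩
      · rw [ha, hb, hc]
        exact jes_symm h4
      · simp only [hg]
        rw [ha, hb, hc]
  have hcard : ({t : ℕ × ℕ × ℕ | Prim t.1 t.2.1 t.2.2 ∧ t.2.2 ≤ C ∧
      ¬ Jes t.1 t.2.1 t.2.2}).ncard ≤ 2 * S.ncard := by
    refine (Set.ncard_le_ncard hsub ((hSfin.image f).union (hSfin.image g))).trans ?_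
    refine (Set.ncard_union_le _ _).trans ?_
    have h1 := Set.ncard_image_le (f := f) hSfin
    have h2 := Set.ncard_image_le (f := g) hSfin
    omega
  have hb := hpb M hM2
  have hCr : (2 : ℝ) ≤ C := by exact_mod_cast hC
  have hMr : (2 : ℝ) ≤ M := by exact_mod_cast hM2
  have hlogC : 0 < Real.log C := Real.log_pos (by linarith)
  have hlogM : 0 < Real.log M := Real.log_pos (by linarith)
  have hsC : 0 < √(Real.log C) := Real.sqrt_pos.2 hlogC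
  have hsM : 0 < √(Real.log M) := Real.sqrt_pos.2 hlogM
  have hlog : Real.log C ≤ 4 * Real.log M := by
    have h1 : Real.log C ≤ Real.log ((M : ℝ) ^ 4) := by
      refine Real.log_le_log (by linarith) ?_
      exact_mod_cast hM4
    rwa [Real.log_pow] at h1
  have hsq : √(Real.log C) ≤ 2 * √(Real.log M) := by
    refine Real.sqrt_le_iff.2 ⟨by positivity, ?_⟩
    rw [mul_pow, Real.sq_sqrt hlogM.le]
    linarith
  have hM2r : (M : ℝ) ^ 2 ≤ 2 * C := by exact_mod_cast hMC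
  have h1 : K * (M : ℝ) ^ 2 / √(Real.log M) ≤ 4 * K * C / √(Real.log C) := by
    rw [div_le_div_iff₀ hsM hsC]
    calc K * (M : ℝ) ^ 2 * √(Real.log C) ≤ K * (2 * C) * (2 * √(Real.log M)) := by
          gcongr
      _ = 4 * K * C * √(Real.log M) := by ring
  calc (({t : ℕ × ℕ × ℕ | Prim t.1 t.2.1 t.2.2 ∧ t.2.2 ≤ C ∧
        ¬ Jes t.1 t.2.1 t.2.2}).ncard : ℝ) ≤ ((2 * S.ncard : ℕ) : ℝ) := by exact_mod_cast hcard
    _ = 2 * (S.ncard : ℝ) := by push_cast; ring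
    _ ≤ 2 * (K * (M : ℝ) ^ 2 / √(Real.log M)) := by gcongr
    _ ≤ 2 * (4 * K * C / √(Real.log C)) := by gcongr
    _ = 8 * K * C / √(Real.log C) := by ring

end Jes95
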