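import Pool.Agent.LibJes95.Defs
namespace Jes95

private def h4S (M : ℕ) : Finset (ℕ × ℕ) :=
  (Finset.range (M + 1) ×ˢ Finset.range (M + 1)).filter
    (fun p => 0 < p.2 ∧ p.2 < p.1 ∧ (p.1 + p.2) % 2 = 1)

private theorem h4_inner (m : ℕ) :
    ((Finset.range m).filter (fun n => 0 < n ∧ (m + n) % 2 = 1)).card = m / 2 := by
  have h : (Finset.range (m / 2)).card =
      ((Finset.range m).filter (fun n => 0 < n ∧ (m + n) % 2 = 1)).card := by
    apply Finset.card_bij' (fun k _ => 2 * k + 1 + m % 2) (fun n _ => (n - 1) / 2)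
    · intro k hk
      rw [Finset.mem_range] at hk
      rw [Finset.mem_filter, Finset.mem_range]
      omega
    · intro n hn
      rw [Finset.mem_filter, Finset.mem_range] at hn
      rw [Finset.mem_range]
      omega
    · intro k hk
      rw [Finset.mem_range] at hk
      omega
    · intro n hn
      rw [Finset.mem_filter, Finset.mem_range] at hn
      omega
  rw [← h, Finset.card_range]

private theorem h4_sum (M : ℕ) : (h4S M).card = ∑ m ∈ Finset.range (M + 1), m / 2 := by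
  have h2 : (h4S M).card = ∑ m ∈ Finset.range (M + 1),
      ((Finset.range m).filter (fun n => 0 < n ∧ (m + n) % 2 = 1)).card := by
    have h3 : h4S M = ((Finset.range (M + 1)).sigma
        (fun m => (Finset.range m).filter (fun n => 0 < n ∧ (m + n) % 2 = 1))).map
          (Equiv.sigmaEquivProd ℕ ℕ).toEmbedding := by
      ext ⟨m, n⟩
      simp only [h4S, Finset.mem_filter, Finset.mem_product, Finset.mem_range, Finset.mem_map,
        Finset.mem_sigma, Equiv.toEmbedding_apply, Equiv.sigmaEquivProd_apply, Sigma.exists,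
        Prod.mk.injEq]
      constructor
      · rintro ⟨⟨h1, h2⟩, h3, h4, h5⟩
        exact ⟨m, n, ⟨h1, h4, h3, h5⟩, rfl, rfl⟩
      · rintro ⟨a, b, ⟨h1, h4, h3, h5⟩, rfl, rfl⟩
        exact ⟨⟨h1, by omega⟩, h3, h4, h5⟩
    rw [h3, Finset.card_map, Finset.card_sigma]
  rw [h2]
  exact Finset.sum_congr rfl fun m _ => h4_inner m

private theorem h4_card (M : ℕ) : 4 * (h4S M).card + M % 2 = M ^ 2 := by
  rw [h4_sum]
  induction M with
  | zero => simp
  | succ M ih =>
    rw [Finset.sum_range_succ]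
    have h7 : (M + 1) ^ 2 = M ^ 2 + 2 * M + 1 := by ring
    rw [h7]
    omega

private theorem h4_series (K : ℕ) :
    ∑ k ∈ Finset.range K, (1 : ℝ) / (2 * (k : ℝ) + 3) ^ 2 ≤ 1 / 4 - 1 / (4 * ((K : ℝ) + 1)) := by
  induction K with
  | zero => simp
  | succ K ih =>
    rw [Finset.sum_range_succ]
    have hK : (0 : ℝ) ≤ K := Nat.cast_nonneg K
    have h1 : (1 : ℝ) / (2 * (K : ℝ) + 3) ^ 2 ≤
        1 / (4 * ((K : ℝ) + 1)) - 1 / (4 * (((K + 1 : ℕ) : ℝ) + 1)) := by
      push_cast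
      rw [div_sub_div _ _ (by positivity) (by positivity), div_le_div_iff₀ (by positivity) (by positivity)]
      nlinarith
    linarith

/-- Lower bound for the number of admissible pairs: `#{0<n<m≤M, m+n odd} = ⌊M²/4⌋`, and the
non-coprime ones have an odd common divisor `g ≥ 3`: at most
`∑_{g ≥ 3 odd} ⌊(M/g)²/4⌋ ≤ M²/16`. -/
theorem adm_count (M : ℕ) :
    3 * M ^ 2 ≤ 16 * ({p : ℕ × ℕ | p.1 ≤ M ∧ Adm p.1 p.2}).ncard + 16 := by
  classical
  set A : Finset (ℕ × ℕ) := (h4S M).filter (fun p => p.1.Coprime p.2) with hA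
  have h1 : ({p : ℕ × ℕ | p.1 ≤ M ∧ Adm p.1 p.2}).ncard = A.card := by
    rw [← Set.ncard_coe_finset]
    congr 1
    ext ⟨m, n⟩
    simp only [hA, h4S, Set.mem_ofPred_eq, Finset.coe_filter, Finset.mem_filter, Finset.mem_product,
      Finset.mem_range, Adm]
    constructor
    · rintro ⟨h1, h2, h3, h4, h5⟩
      exact ⟨⟨⟨by omega, by omega⟩, h2, h3, h5⟩, h4⟩
    · rintro ⟨⟨⟨h1, h2⟩, h3, h4, h5⟩, h6⟩
      exact ⟨by omega, h3, h4, h6, h5⟩
  have h2 : h4S M ⊆ A ∪ (Finset.range M).biUnion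
      (fun k => (h4S (M / (2 * k + 3))).image (fun p => ((2 * k + 3) * p.1, (2 * k + 3) * p.2))) := by
    rintro ⟨m, n⟩ hp
    rw [Finset.mem_union]
    by_cases hc : m.Coprime n
    · left
      rw [hA, Finset.mem_filter]
      exact ⟨hp, hc⟩
    · right
      simp only [h4S, Finset.mem_filter, Finset.mem_product, Finset.mem_range] at hp
      obtain ⟨⟨hm, hn⟩, hn0, hnm, hodd⟩ := hp
      obtain ⟨g, hg⟩ : ∃ g, g = Nat.gcd m n := ⟨_, rfl⟩
      have hgm : g ∣ m := hg ▸ Nat.gcd_dvd_left m n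
      have hgn : g ∣ n := hg ▸ Nat.gcd_dvd_right m n
      obtain ⟨a, rfl⟩ := hgm
      obtain ⟨b, rfl⟩ := hgn
      have hg0 : 0 < g := Nat.pos_of_ne_zero fun h => by
        rw [h, zero_mul] at hn0
        exact lt_irrefl _ hn0
      have hb0 : 0 < b := Nat.pos_of_ne_zero fun h => by
        rw [h, mul_zero] at hn0
        exact lt_irrefl _ hn0
      have hg1 : g ≠ 1 := by
        intro h
        apply hc
        rw [Nat.Coprime, ← hg]
        exact h
      have hab : b < a := Nat.lt_of_mul_lt_mul_left hnm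
      have hodd2 : (g * (a + b)) % 2 = 1 := by rw [mul_add]; exact hodd
      have hgodd : g % 2 = 1 ∧ (a + b) % 2 = 1 := by
        have h := Nat.odd_mul.mp (Nat.odd_iff.mpr hodd2)
        exact ⟨Nat.odd_iff.mp h.1, Nat.odd_iff.mp h.2⟩
      obtain ⟨k, hk⟩ : ∃ k, g = 2 * k + 3 := ⟨(g - 3) / 2, by omega⟩
      have hgM : g ≤ M := by
        have h3 : g * 1 ≤ g * a := Nat.mul_le_mul_left g (by omega)
        omega
      rw [Finset.mem_biUnion]
      refine ⟨k, Finset.mem_range.mpr (by omega), ?_⟩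
      rw [Finset.mem_image]
      refine ⟨(a, b), ?_, ?_⟩
      · have haM : a ≤ M / (2 * k + 3) := by
          rw [Nat.le_div_iff_mul_le (by omega), ← hk, mul_comm]
          omega
        simp only [h4S, Finset.mem_filter, Finset.mem_product, Finset.mem_range]
        exact ⟨⟨by omega, by omega⟩, hb0, hab, hgodd.2⟩
      · show ((2 * k + 3) * a, (2 * k + 3) * b) = (g * a, g * b)
        rw [← hk]
  have h3 : (h4S M).card ≤ A.card + ∑ k ∈ Finset.range M, (h4S (M / (2 * k + 3))).card := by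
    refine (Finset.card_le_card h2).trans ((Finset.card_union_le _ _).trans ?_)
    apply Nat.add_le_add_left
    refine Finset.card_biUnion_le.trans (Finset.sum_le_sum fun k _ => Finset.card_image_le)
  have h4 : (4 : ℝ) * ∑ k ∈ Finset.range M, ((h4S (M / (2 * k + 3))).card : ℝ) ≤ (M : ℝ) ^ 2 / 4 := by
    rw [Finset.mul_sum]
    have h5 : ∀ k ∈ Finset.range M, (4 : ℝ) * ((h4S (M / (2 * k + 3))).card : ℝ) ≤
        (M : ℝ) ^ 2 * (1 / (2 * (k : ℝ) + 3) ^ 2) := by
      intro k _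
      have h6 := h4_card (M / (2 * k + 3))
      have h7 : 4 * (h4S (M / (2 * k + 3))).card ≤ (M / (2 * k + 3)) ^ 2 := by omega
      have h8 : (4 : ℝ) * ((h4S (M / (2 * k + 3))).card : ℝ) ≤ (((M / (2 * k + 3) : ℕ)) : ℝ) ^ 2 := by
        exact_mod_cast h7
      have h9 : (((M / (2 * k + 3) : ℕ)) : ℝ) ≤ (M : ℝ) / (2 * (k : ℝ) + 3) := by
        have := @Nat.cast_div_le ℝ _ _ _ M (2 * k + 3)
        push_cast at this
        exact this
      calc (4 : ℝ) * ((h4S (M / (2 * k + 3))).card : ℝ) ≤ (((M / (2 * k + 3) : ℕ)) : ℝ) ^ 2 := h8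
        _ ≤ ((M : ℝ) / (2 * (k : ℝ) + 3)) ^ 2 := pow_le_pow_left₀ (Nat.cast_nonneg _) h9 2
        _ = (M : ℝ) ^ 2 * (1 / (2 * (k : ℝ) + 3) ^ 2) := by rw [div_pow]; ring
    refine (Finset.sum_le_sum h5).trans ?_
    rw [← Finset.mul_sum]
    have h6 := h4_series M
    have h7 : (0 : ℝ) ≤ 1 / (4 * ((M : ℝ) + 1)) := by positivity
    have h8 : (M : ℝ) ^ 2 * ∑ k ∈ Finset.range M, (1 : ℝ) / (2 * (k : ℝ) + 3) ^ 2 ≤ (M : ℝ) ^ 2 * (1 / 4) :=
      mul_le_mul_of_nonneg_left (by linarith) (by positivity)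
    linarith
  have h5 := h4_card M
  have h6 : (M : ℝ) ^ 2 ≤ 4 * ((h4S M).card : ℝ) + 1 := by
    have h7 : M ^ 2 ≤ 4 * (h4S M).card + 1 := by omega
    exact_mod_cast h7
  have h7 : ((h4S M).card : ℝ) ≤ A.card + ∑ k ∈ Finset.range M, ((h4S (M / (2 * k + 3))).card : ℝ) := by
    exact_mod_cast h3
  rw [h1]
  have h8 : (3 : ℝ) * (M : ℝ) ^ 2 ≤ 16 * (A.card : ℝ) + 16 := by linarith
  exact_mod_cast h8

end Jes95
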