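import Pool.Agent.LibJes95.H4
import Pool.Agent.LibJes95.F1
namespace Jes95

/-- `(m, n) ↦ (m² - n², 2mn, m² + n²)` is injective on admissible pairs; `m ≤ ⌊√(C/2)⌋`. -/
theorem prim_count : ∃ κ : ℝ, 0 < κ ∧ ∀ C : ℕ, 5 ≤ C →
    κ * C ≤ (({t : ℕ × ℕ × ℕ | Prim t.1 t.2.1 t.2.2 ∧ t.2.2 ≤ C}).ncard : ℝ) := by
  refine ⟨1 / 31, by norm_num, fun C hC => ?_⟩
  set T : Set (ℕ × ℕ × ℕ) := {t : ℕ × ℕ × ℕ | Prim t.1 t.2.1 t.2.2 ∧ t.2.2 ≤ C} with hT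
  have hTfin : T.Finite := by
    refine (Set.finite_Iic (C, C, C)).subset ?_
    rintro ⟨a, b, c⟩ ⟨⟨h1, h2, -, h3⟩, h4⟩
    simp only at h1 h2 h3 h4
    have h5 : a ≤ c := by
      by_contra h6
      push Not at h6
      nlinarith
    have h6 : b ≤ c := by
      by_contra h6
      push Not at h6
      nlinarith
    exact ⟨h5.trans h4, h6.trans h4, h4⟩
  set M := Nat.sqrt (C / 2) with hM
  have hM1 : M ^ 2 ≤ C / 2 := Nat.sqrt_le' _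
  have hM2 : C / 2 < (M + 1) ^ 2 := Nat.lt_succ_sqrt' _
  set S : Set (ℕ × ℕ) := {p : ℕ × ℕ | p.1 ≤ M ∧ Adm p.1 p.2} with hS
  have hST : S.ncard ≤ T.ncard := by
    refine Set.ncard_le_ncard_of_injOn
      (fun p => (p.1 ^ 2 - p.2 ^ 2, 2 * p.1 * p.2, p.1 ^ 2 + p.2 ^ 2)) ?_ ?_ hTfin
    · rintro ⟨m, n⟩ ⟨h1, h2⟩
      simp only at h1 h2
      obtain ⟨f1, f2, f3, f4, f5⟩ := adm_facts h2
      refine ⟨⟨f1.pos, f3, f4, f5⟩, ?_⟩
      show m ^ 2 + n ^ 2 ≤ C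
      have h3 : n ^ 2 ≤ m ^ 2 := Nat.pow_le_pow_left h2.2.1.le 2
      have h4 : m ^ 2 ≤ M ^ 2 := Nat.pow_le_pow_left h1 2
      omega
    · rintro ⟨m, n⟩ ⟨h1, h2⟩ ⟨m', n'⟩ ⟨h1', h2'⟩ h
      simp only [Prod.mk.injEq] at h
      obtain ⟨e1, -, e3⟩ := h
      have h3 : n ^ 2 ≤ m ^ 2 := Nat.pow_le_pow_left h2.2.1.le 2
      have h3' : n' ^ 2 ≤ m' ^ 2 := Nat.pow_le_pow_left h2'.2.1.le 2
      have h4 : m ^ 2 = m' ^ 2 := by omega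
      have h5 : n ^ 2 = n' ^ 2 := by omega
      have h6 : m = m' := Nat.pow_left_injective (n := 2) (by norm_num) h4
      have h7 : n = n' := Nat.pow_left_injective (n := 2) (by norm_num) h5
      rw [h6, h7]
  have hcount : 3 * M ^ 2 ≤ 16 * S.ncard + 16 := adm_count M
  have hone : 1 ≤ T.ncard := by
    have h1 : (3, 4, 5) ∈ T := by
      refine ⟨⟨by norm_num, by norm_num, by norm_num, by norm_num⟩, ?_⟩
      show 5 ≤ C
      exact hC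
    exact (Set.ncard_pos hTfin).2 ⟨_, h1⟩
  have hmain : C ≤ 31 * T.ncard := by
    rcases Nat.lt_or_ge M 4 with h | h
    · have h1 : (M + 1) ^ 2 ≤ 4 ^ 2 := Nat.pow_le_pow_left (by omega) 2
      omega
    · have h1 : 16 * (M + 1) ^ 2 ≤ 25 * M ^ 2 := by nlinarith
      have h2 : 4 ^ 2 ≤ M ^ 2 := Nat.pow_le_pow_left h 2
      omega
  have h1 : (C : ℝ) ≤ 31 * (T.ncard : ℝ) := by exact_mod_cast hmain
  linarith

end Jes95
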