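import Pool.Agent.LibJes95.H3
import Pool.Agent.LibJes95.H5
namespace Jes95

private theorem prim_finite (C : ℕ) :
    ({t : ℕ × ℕ × ℕ | Prim t.1 t.2.1 t.2.2 ∧ t.2.2 ≤ C}).Finite := by
  refine Set.Finite.subset ((Set.finite_Iic C).prod ((Set.finite_Iic C).prod
    (Set.finite_Iic C))) ?_
  rintro ⟨a, b, c⟩ ⟨⟨ha, hb, _, hsq⟩, hc⟩
  simp only at ha hb hsq hc
  have h1 : a ≤ c := by
    by_contra h
    push Not at h
    have : c ^ 2 < a ^ 2 := Nat.pow_lt_pow_left h (by norm_num)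
    omega
  have h2 : b ≤ c := by
    by_contra h
    push Not at h
    have : c ^ 2 < b ^ 2 := Nat.pow_lt_pow_left h (by norm_num)
    omega
  exact ⟨h1.trans hc, h2.trans hc, hc⟩

/-- Density one, from `hyp_bound` and `prim_count`
(`good = all - bad`, `bad / all ≤ K/(κ √log C) → 0`). -/
theorem density_one : Filter.Tendsto (fun C : ℕ =>
    (({t : ℕ × ℕ × ℕ | Prim t.1 t.2.1 t.2.2 ∧ t.2.2 ≤ C ∧ Jes t.1 t.2.1 t.2.2}).ncard : ℝ) /
      (({t : ℕ × ℕ × ℕ | Prim t.1 t.2.1 t.2.2 ∧ t.2.2 ≤ C}).ncard : ℝ))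
    Filter.atTop (nhds 1) := by
  obtain ⟨K, hK, hbad⟩ := hyp_bound
  obtain ⟨κ, hκ, hall⟩ := prim_count
  have hsum : ∀ C : ℕ,
      ({t : ℕ × ℕ × ℕ | Prim t.1 t.2.1 t.2.2 ∧ t.2.2 ≤ C ∧ Jes t.1 t.2.1 t.2.2}).ncard +
      ({t : ℕ × ℕ × ℕ | Prim t.1 t.2.1 t.2.2 ∧ t.2.2 ≤ C ∧ ¬ Jes t.1 t.2.1 t.2.2}).ncard =
      ({t : ℕ × ℕ × ℕ | Prim t.1 t.2.1 t.2.2 ∧ t.2.2 ≤ C}).ncard := by
    intro C
    rw [← Set.ncard_union_eq ?_ ((prim_finite C).subset fun t ht => ⟨ht.1, ht.2.1⟩)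
      ((prim_finite C).subset fun t ht => ⟨ht.1, ht.2.1⟩)]
    · congr 1
      ext t
      simp only [Set.mem_union, Set.mem_setOf_eq]
      tauto
    · rw [Set.disjoint_left]
      rintro t ⟨_, _, h1⟩ ⟨_, _, h2⟩
      exact h2 h1
  have hlim : Filter.Tendsto (fun C : ℕ => 1 - K / κ * (√(Real.log C))⁻¹) Filter.atTop
      (nhds 1) := by
    have h1 : Filter.Tendsto (fun C : ℕ => (√(Real.log C))⁻¹) Filter.atTop (nhds 0) :=
      Filter.Tendsto.inv_tendsto_atTop (Real.tendsto_sqrt_atTop.comp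
        (Real.tendsto_log_atTop.comp tendsto_natCast_atTop_atTop))
    have h2 := (h1.const_mul (K / κ)).const_sub 1
    simpa using h2
  refine tendsto_of_tendsto_of_tendsto_of_le_of_le' hlim tendsto_const_nhds ?_ ?_
  · filter_upwards [Filter.eventually_ge_atTop 5] with C hC
    have h1 := hbad C (by omega)
    have h2 := hall C hC
    have h3 : ((({t : ℕ × ℕ × ℕ | Prim t.1 t.2.1 t.2.2 ∧ t.2.2 ≤ C ∧
        Jes t.1 t.2.1 t.2.2}).ncard : ℝ)) +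
      (({t : ℕ × ℕ × ℕ | Prim t.1 t.2.1 t.2.2 ∧ t.2.2 ≤ C ∧ ¬ Jes t.1 t.2.1 t.2.2}).ncard : ℝ) =
      (({t : ℕ × ℕ × ℕ | Prim t.1 t.2.1 t.2.2 ∧ t.2.2 ≤ C}).ncard : ℝ) := by
      exact_mod_cast hsum C
    generalize (({t : ℕ × ℕ × ℕ | Prim t.1 t.2.1 t.2.2 ∧ t.2.2 ≤ C ∧
        Jes t.1 t.2.1 t.2.2}).ncard : ℝ) = g at *
    generalize (({t : ℕ × ℕ × ℕ | Prim t.1 t.2.1 t.2.2 ∧ t.2.2 ≤ C ∧
        ¬ Jes t.1 t.2.1 t.2.2}).ncard : ℝ) = b at *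
    generalize (({t : ℕ × ℕ × ℕ | Prim t.1 t.2.1 t.2.2 ∧ t.2.2 ≤ C}).ncard : ℝ) = N at *
    have hC5 : (5 : ℝ) ≤ C := by exact_mod_cast hC
    have hlog : 0 < Real.log C := Real.log_pos (by linarith)
    have hs : 0 < √(Real.log C) := Real.sqrt_pos.2 hlog
    have hN : 0 < N := lt_of_lt_of_le (by positivity) h2
    rw [le_div_iff₀ hN]
    have h4 : K / κ * (√(Real.log C))⁻¹ * N ≥ b := by
      calc K / κ * (√(Real.log C))⁻¹ * N ≥ K / κ * (√(Real.log C))⁻¹ * (κ * C) :=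
            mul_le_mul_of_nonneg_left h2 (by positivity)
        _ = K * C / √(Real.log C) := by field_simp
        _ ≥ b := h1
    nlinarith
  · filter_upwards with C
    refine div_le_one_of_le₀ ?_ (Nat.cast_nonneg _)
    have := hsum C
    exact_mod_cast (by omega : _ ≤ _)

end Jes95
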