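import Pool.Agent.LibJes95.Defs
namespace Jes95

private theorem l1_abs (χ : MulChar (ZMod 8) ℤ) (a : ZMod 8) : |χ a| ≤ 1 := by
  by_cases h : IsUnit a
  · obtain ⟨u, rfl⟩ := h
    have h1 : IsUnit (χ (u : ZMod 8)) := u.isUnit.map χ.toMonoidHom
    rcases Int.isUnit_iff.1 h1 with h2 | h2 <;> rw [h2] <;> norm_num
  · rw [χ.map_nonunit h]
    norm_num

private theorem l1_block (χ : MulChar (ZMod 8) ℤ) (hχ : χ ≠ 1) (n : ℕ) :
    ∑ d ∈ Finset.range 8, χ ((n + d : ℕ) : ZMod 8) = 0 := by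
  have h1 : ∑ a : ZMod 8, χ a = 0 := MulChar.sum_eq_zero_of_ne_one hχ
  rw [← Equiv.sum_comp (Equiv.addLeft (n : ZMod 8))] at h1
  rw [← h1, Finset.sum_range]
  apply Finset.sum_congr rfl
  intro i _
  congr 1
  rw [Nat.cast_add]
  simp only [Equiv.coe_addLeft]
  have h2 : (((i : Fin 8) : ℕ) : ZMod 8) = i := ZMod.natCast_zmod_val (n := 8) i
  exact congrArg (fun t => (n : ZMod 8) + t) h2

private theorem l1_part (χ : MulChar (ZMod 8) ℤ) (hχ : χ ≠ 1) (n : ℕ) :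
    |∑ d ∈ Finset.range n, χ (d : ZMod 8)| ≤ 8 := by
  induction n using Nat.strong_induction_on with
  | _ n ih =>
    by_cases h : n < 8
    · calc |∑ d ∈ Finset.range n, χ (d : ZMod 8)|
          ≤ ∑ d ∈ Finset.range n, |χ (d : ZMod 8)| := Finset.abs_sum_le_sum_abs _ _
        _ ≤ ∑ d ∈ Finset.range n, 1 := Finset.sum_le_sum fun d _ => l1_abs χ _
        _ = n := by simp
        _ ≤ 8 := by exact_mod_cast h.le
    · push Not at h
      obtain ⟨k, rfl⟩ := Nat.exists_eq_add_of_le' h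
      rw [Finset.sum_range_add, l1_block χ hχ k, add_zero]
      exact ih k (by omega)

/-- Partial sums of `χ(d)/d` for a non-trivial character mod 8 (Abel summation; the partial
sums of `χ` are bounded by 8: `MulChar.sum_eq_zero_of_ne_one`). -/
theorem sum_chi_div (χ : MulChar (ZMod 8) ℤ) (hχ : χ ≠ 1) (N : ℕ) :
    |∑ d ∈ Finset.Icc 1 N, (χ (d : ZMod 8) : ℝ) / d| ≤ 16 := by
  have hS : ∀ n : ℕ, |∑ d ∈ Finset.Icc 1 n, (χ (d : ZMod 8) : ℝ)| ≤ 8 := by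
    intro n
    have h1 : ∑ d ∈ Finset.Icc 1 n, χ (d : ZMod 8) =
        ∑ d ∈ Finset.range (n + 1), χ (d : ZMod 8) := by
      rw [Finset.range_eq_Ico, Finset.sum_eq_sum_Ico_succ_bot (by omega)]
      have h2 : χ ((0 : ℕ) : ZMod 8) = 0 := by
        rw [Nat.cast_zero]
        have : Fact (1 < 8) := ⟨by norm_num⟩
        exact MulChar.map_zero χ
      rw [h2, zero_add]
      rfl
    have h2 := l1_part χ hχ (n + 1)
    rw [← h1] at h2
    have h3 : ((|∑ d ∈ Finset.Icc 1 n, χ (d : ZMod 8)| : ℤ) : ℝ) ≤ ((8 : ℤ) : ℝ) :=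
      Int.cast_le.2 h2
    rw [Int.cast_abs, Int.cast_sum] at h3
    simpa using h3
  have hU : ∀ n : ℕ, |∑ d ∈ Finset.Icc 1 n, (χ (d : ZMod 8) : ℝ) / d -
      (∑ d ∈ Finset.Icc 1 n, (χ (d : ZMod 8) : ℝ)) / (n + 1)| ≤ 8 * (1 - 1 / ((n : ℝ) + 1)) := by
    intro n
    induction n with
    | zero => simp
    | succ n ih =>
      have hn1 : ((n : ℝ) + 1) ≠ 0 := by positivity
      have hn2 : ((n : ℝ) + 1 + 1) ≠ 0 := by positivity
      have h1 := hS (n + 1)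
      have h2 : ∑ d ∈ Finset.Icc 1 (n + 1), (χ (d : ZMod 8) : ℝ) / d -
          (∑ d ∈ Finset.Icc 1 (n + 1), (χ (d : ZMod 8) : ℝ)) / (((n + 1 : ℕ) : ℝ) + 1) =
          (∑ d ∈ Finset.Icc 1 n, (χ (d : ZMod 8) : ℝ) / d -
            (∑ d ∈ Finset.Icc 1 n, (χ (d : ZMod 8) : ℝ)) / (n + 1)) +
          (∑ d ∈ Finset.Icc 1 (n + 1), (χ (d : ZMod 8) : ℝ)) *
            (1 / ((n : ℝ) + 1) - 1 / ((n : ℝ) + 1 + 1)) := by
        rw [Finset.sum_Icc_succ_top (by omega), Finset.sum_Icc_succ_top (by omega)]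
        push_cast
        field_simp
        ring
      rw [h2]
      have h3 : 0 ≤ 1 / ((n : ℝ) + 1) - 1 / ((n : ℝ) + 1 + 1) := by
        rw [sub_nonneg]
        apply one_div_le_one_div_of_le <;> [positivity; linarith]
      refine (abs_add_le _ _).trans ?_
      rw [abs_mul, abs_of_nonneg h3]
      have h4 := mul_le_mul_of_nonneg_right h1 h3
      push_cast
      linarith
  have h1 := hU N
  have h2 := hS N
  have hN : (0 : ℝ) < (N : ℝ) + 1 := by positivity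
  have h3 : |(∑ d ∈ Finset.Icc 1 N, (χ (d : ZMod 8) : ℝ)) / ((N : ℝ) + 1)| ≤ 8 := by
    rw [abs_div, abs_of_pos hN, div_le_iff₀ hN]
    have h4 : (0 : ℝ) ≤ N := Nat.cast_nonneg N
    linarith
  have h5 : 0 ≤ 1 / ((N : ℝ) + 1) := by positivity
  have h6 := abs_add_le (∑ d ∈ Finset.Icc 1 N, (χ (d : ZMod 8) : ℝ) / d -
      (∑ d ∈ Finset.Icc 1 N, (χ (d : ZMod 8) : ℝ)) / ((N : ℝ) + 1))
      ((∑ d ∈ Finset.Icc 1 N, (χ (d : ZMod 8) : ℝ)) / ((N : ℝ) + 1))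
  rw [sub_add_cancel] at h6
  linarith

end Jes95
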