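import Pool.Agent.LibJes95.L1
namespace Jes95

private lemma sum_rearr (f : ℕ → ℝ) (X : ℕ) :
    ∑ n ∈ Finset.Icc 1 X, (∑ d ∈ n.divisors, f d) / n
      = ∑ e ∈ Finset.Icc 1 X, (1 / (e : ℝ)) * ∑ d ∈ Finset.Icc 1 (X / e), f d / d := by
  have h1 : ∀ n ∈ Finset.Icc 1 X, (∑ d ∈ n.divisors, f d) / n
      = ∑ d ∈ n.divisors, f d / n := by
    intro n _
    rw [Finset.sum_div]
  have h2 : ∀ e ∈ Finset.Icc 1 X, (1 / (e : ℝ)) * ∑ d ∈ Finset.Icc 1 (X / e), f d / d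
      = ∑ d ∈ Finset.Icc 1 (X / e), f d / ((d : ℝ) * e) := by
    intro e he
    rw [Finset.mul_sum]
    refine Finset.sum_congr rfl fun d _ => ?_
    rw [div_mul_div_comm, one_mul, mul_comm (e : ℝ) d]
  rw [Finset.sum_congr rfl h1, Finset.sum_congr rfl h2, Finset.sum_sigma', Finset.sum_sigma']
  refine Finset.sum_nbij' (fun p => ⟨p.1 / p.2, p.2⟩) (fun p => ⟨p.2 * p.1, p.2⟩) ?_ ?_ ?_ ?_ ?_
  · rintro ⟨n, d⟩ hp
    simp only [Finset.mem_sigma, Finset.mem_Icc, Nat.mem_divisors] at hp ⊢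
    obtain ⟨⟨h1, h2⟩, ⟨k, rfl⟩, h3⟩ := hp
    have hd : 0 < d := Nat.pos_of_ne_zero (fun h => by simp [h] at h3)
    have hk : 0 < k := Nat.pos_of_ne_zero (fun h => by simp [h] at h3)
    rw [Nat.mul_div_cancel_left _ hd]
    refine ⟨⟨hk, ?_⟩, hd, ?_⟩
    · exact le_trans (Nat.le_mul_of_pos_left k hd) h2
    · rw [Nat.le_div_iff_mul_le hk]; exact h2
  · rintro ⟨e, d⟩ hp
    simp only [Finset.mem_sigma, Finset.mem_Icc, Nat.mem_divisors] at hp ⊢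
    obtain ⟨⟨h1, h2⟩, h3, h4⟩ := hp
    rw [Nat.le_div_iff_mul_le h1] at h4
    refine ⟨⟨Nat.mul_pos h3 h1, h4⟩, Dvd.intro _ rfl, ?_⟩
    exact (Nat.mul_pos h3 h1).ne'
  · rintro ⟨n, d⟩ hp
    simp only [Finset.mem_sigma, Finset.mem_Icc, Nat.mem_divisors] at hp
    obtain ⟨_, h2, _⟩ := hp
    simp only [Nat.mul_div_cancel' h2]
  · rintro ⟨e, d⟩ hp
    simp only [Finset.mem_sigma, Finset.mem_Icc] at hp
    obtain ⟨_, h3, _⟩ := hp
    simp only [Nat.mul_div_cancel_left e h3]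
  · rintro ⟨n, d⟩ hp
    simp only [Finset.mem_sigma, Finset.mem_Icc, Nat.mem_divisors] at hp ⊢
    obtain ⟨_, ⟨k, rfl⟩, h3⟩ := hp
    have hd : 0 < d := Nat.pos_of_ne_zero (fun h => by simp [h] at h3)
    rw [Nat.mul_div_cancel_left _ hd]
    push_cast
    rfl

/-- `∑_{n ≤ X} (1*χ)(n)/n = ∑_{e ≤ X} (1/e) ∑_{d ≤ X/e} χ(d)/d ≤ 16 (1 + log X)`. -/
theorem sum_conv (χ : MulChar (ZMod 8) ℤ) (hχ : χ ≠ 1) (X : ℕ) (hX : 0 < X) :
    ∑ n ∈ Finset.Icc 1 X, (∑ d ∈ n.divisors, (χ (d : ZMod 8) : ℝ)) / n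
      ≤ 16 * (1 + Real.log X) := by
  rw [sum_rearr (fun d => (χ (d : ZMod 8) : ℝ)) X]
  calc ∑ e ∈ Finset.Icc 1 X, (1 / (e : ℝ)) *
        ∑ d ∈ Finset.Icc 1 (X / e), (χ (d : ZMod 8) : ℝ) / d
      ≤ ∑ e ∈ Finset.Icc 1 X, (1 / (e : ℝ)) * 16 := by
        refine Finset.sum_le_sum fun e _ => ?_
        exact mul_le_mul_of_nonneg_left (le_trans (le_abs_self _) (sum_chi_div χ hχ _))
          (by positivity)
    _ = 16 * ((harmonic X : ℚ) : ℝ) := by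
        rw [← Finset.sum_mul, mul_comm, harmonic_eq_sum_Icc]
        push_cast
        simp only [one_div]
    _ ≤ 16 * (1 + Real.log X) := by
        have := harmonic_le_one_add_log X
        linarith

end Jes95
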