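import Pool.Agent.LibJes95.Defs
namespace Jes95

open ArithmeticFunction in
/-- Non-negativity of `1 * χ` for a real character (cf. `DirichletCharacter.zetaMul_nonneg`). -/
theorem conv_nonneg (χ : MulChar (ZMod 8) ℤ) (n : ℕ) :
    0 ≤ ∑ d ∈ n.divisors, χ (d : ZMod 8) := by
  rcases eq_or_ne n 0 with rfl | hn
  · simp
  let h : ArithmeticFunction ℤ := ⟨fun n => if n = 0 then 0 else χ (n : ZMod 8), by simp⟩
  have hmul : h.IsMultiplicative := by
    rw [IsMultiplicative.iff_ne_zero]
    constructor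
    · simp [h]
    · intro a b ha hb _
      simp [h, ha, hb]
  have hz : ((zeta : ArithmeticFunction ℤ) * h).IsMultiplicative :=
    isMultiplicative_zeta.natCast.mul hmul
  have e : ∀ n, n ≠ 0 → ((zeta : ArithmeticFunction ℤ) * h) n = ∑ d ∈ n.divisors, χ (d : ZMod 8) := by
    intro n hn
    rw [coe_zeta_mul_apply]
    refine Finset.sum_congr rfl fun d hd => ?_
    have hd0 : d ≠ 0 := (Nat.pos_of_mem_divisors hd).ne'
    simp [h, hd0]
  rw [← e n hn, hz.multiplicative_factorization _ hn]
  refine Finset.prod_nonneg fun p hp => ?_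
  have hpp : p.Prime := Nat.prime_of_mem_primeFactors hp
  show 0 ≤ ((zeta : ArithmeticFunction ℤ) * h) (p ^ (n.factorization p))
  rw [e _ (pow_ne_zero _ hpp.ne_zero), Nat.sum_divisors_prime_pow hpp]
  have hχ : χ (p : ZMod 8) = 0 ∨ χ (p : ZMod 8) = 1 ∨ χ (p : ZMod 8) = -1 := by
    by_cases hu : IsUnit (p : ZMod 8)
    · right
      have : IsUnit (χ (p : ZMod 8)) := hu.map χ
      exact Int.isUnit_iff.1 this
    · left
      exact χ.map_nonunit hu
  simp only [Nat.cast_pow, map_pow]
  rcases hχ with h1 | h1 | h1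
  · refine Finset.sum_nonneg fun i _ ↦ ?_
    simp only [h1, le_refl, pow_nonneg]
  · refine Finset.sum_nonneg fun i _ ↦ ?_
    simp only [h1, one_pow, zero_le_one]
  · simp only [h1, neg_one_geom_sum]
    split_ifs
    exacts [le_rfl, zero_le_one]

end Jes95
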