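import Pool.Agent.LibJes95.L2
import Pool.Agent.LibJes95.L3
namespace Jes95

/-- The three characters: for `j ∈ {3,5,7}` there is a non-trivial character mod 8 with
values `1` exactly at `1` and `j` among the units: `χ₈'` for 3, `χ₈ * χ₈'` for 5, `χ₈` for 7. -/
theorem exists_char (j : ℕ) (hj : j = 3 ∨ j = 5 ∨ j = 7) :
    ∃ χ : MulChar (ZMod 8) ℤ, χ ≠ 1 ∧ χ (1 : ZMod 8) = 1 ∧ χ (j : ZMod 8) = 1 := by
  rcases hj with rfl | rfl | rfl
  · refine ⟨ZMod.χ₈', ?_, by simp, by decide⟩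
    intro h
    have h1 := congrArg (fun χ : MulChar (ZMod 8) ℤ => χ (5 : ZMod 8)) h
    have h2 : ZMod.χ₈' (5 : ZMod 8) = -1 := by decide
    have h3 : (1 : MulChar (ZMod 8) ℤ) (5 : ZMod 8) = 1 :=
      MulChar.one_apply (by decide : IsUnit (5 : ZMod 8))
    simp only [h2, h3] at h1
    norm_num at h1
  · refine ⟨ZMod.χ₈ * ZMod.χ₈', ?_, by simp, ?_⟩
    · intro h
      have h1 := congrArg (fun χ : MulChar (ZMod 8) ℤ => χ (3 : ZMod 8)) h
      have h2 : (ZMod.χ₈ * ZMod.χ₈') (3 : ZMod 8) = -1 := by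
        rw [MulChar.mul_apply]; decide
      have h3 : (1 : MulChar (ZMod 8) ℤ) (3 : ZMod 8) = 1 :=
        MulChar.one_apply (by decide : IsUnit (3 : ZMod 8))
      simp only [h2, h3] at h1
      norm_num at h1
    · rw [MulChar.mul_apply]; decide
  · refine ⟨ZMod.χ₈, ?_, by simp, by decide⟩
    intro h
    have h1 := congrArg (fun χ : MulChar (ZMod 8) ℤ => χ (5 : ZMod 8)) h
    have h2 : ZMod.χ₈ (5 : ZMod 8) = -1 := by decide
    have h3 : (1 : MulChar (ZMod 8) ℤ) (5 : ZMod 8) = 1 :=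
      MulChar.one_apply (by decide : IsUnit (5 : ZMod 8))
    simp only [h2, h3] at h1
    norm_num at h1

end Jes95
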