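import Pool.Agent.LibJes95.L4
namespace Jes95

private lemma chi_lan (χ : MulChar (ZMod 8) ℤ) (j : ℕ) (h1 : χ (1 : ZMod 8) = 1)
    (h2 : χ (j : ZMod 8) = 1) (d : ℕ) (hd : d ∈ Lan j) : χ (d : ZMod 8) = 1 := by
  induction d using Nat.strong_induction_on with
  | _ d ih =>
    obtain ⟨hd0, hp⟩ := hd
    by_cases hd1 : d = 1
    · subst hd1; simpa using h1
    · have hpr := Nat.minFac_prime hd1
      obtain ⟨k, hk⟩ := Nat.minFac_dvd d
      have hk0 : 0 < k := Nat.pos_of_ne_zero (fun h => by rw [h] at hk; omega)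
      have hkd : k < d := by
        have h2 := hpr.two_le
        nlinarith
      have hχk : χ (k : ZMod 8) = 1 := by
        refine ih k hkd ⟨hk0, fun p hpp hpk => hp p hpp ?_⟩
        rw [hk]; exact Dvd.dvd.mul_left hpk _
      have hχp : χ ((d.minFac : ℕ) : ZMod 8) = 1 := by
        rcases hp _ hpr (Nat.minFac_dvd d) with h | h
        · rw [← ZMod.natCast_mod d.minFac 8, h]; simpa using h1
        · rw [← ZMod.natCast_mod d.minFac 8, h]; exact h2
      calc χ (d : ZMod 8) = χ ((d.minFac * k : ℕ) : ZMod 8) := by rw [← hk]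
        _ = 1 := by rw [Nat.cast_mul, map_mul, hχp, hχk, one_mul]

open Classical in
/-- `(∑_{n ≤ x, n ∈ Lan j} 1/n)^2 ≤ ∑_{n ≤ x^2} (1*χ)(n)/n`: for `n = de` with `d, e ∈ Lan j`
every divisor of `n` is in `Lan j` and has `χ = 1`, so `#{(d,e)} = (1*χ)(n)`; all other terms are
non-negative by `conv_nonneg`. -/
theorem sum_inv_lan (j : ℕ) (hj : j = 3 ∨ j = 5 ∨ j = 7) (x : ℕ) (hx : 0 < x) :
    (∑ n ∈ (Finset.Icc 1 x).filter (· ∈ Lan j), (1 : ℝ) / n) ^ 2
      ≤ 16 * (1 + 2 * Real.log x) := by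
  obtain ⟨χ, hχ, h1, h2⟩ := exists_char j hj
  set S := (Finset.Icc 1 x).filter (· ∈ Lan j) with hS
  have hsq : (∑ n ∈ S, (1 : ℝ) / n) ^ 2 = ∑ p ∈ S ×ˢ S, (1 : ℝ) / ((p.1 * p.2 : ℕ) : ℝ) := by
    rw [sq, Finset.sum_mul_sum, ← Finset.sum_product']
    refine Finset.sum_congr rfl fun p _ => ?_
    rw [div_mul_div_comm, one_mul]
    push_cast
    rfl
  have hmaps : ∀ p ∈ S ×ˢ S, p.1 * p.2 ∈ Finset.Icc 1 (x ^ 2) := by
    intro p hp
    simp only [hS, Finset.mem_product, Finset.mem_filter, Finset.mem_Icc] at hp ⊢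
    obtain ⟨⟨⟨a1, a2⟩, _⟩, ⟨b1, b2⟩, _⟩ := hp
    exact ⟨Nat.mul_pos a1 b1, by rw [sq]; exact Nat.mul_le_mul a2 b2⟩
  rw [hsq, ← Finset.sum_fiberwise_of_maps_to hmaps]
  have hterm : ∀ n ∈ Finset.Icc 1 (x ^ 2),
      ∑ p ∈ (S ×ˢ S).filter (fun p => p.1 * p.2 = n), (1 : ℝ) / ((p.1 * p.2 : ℕ) : ℝ)
        ≤ (∑ d ∈ n.divisors, (χ (d : ZMod 8) : ℝ)) / n := by
    intro n hn
    have hn0 : 0 < n := (Finset.mem_Icc.mp hn).1
    have e1 : ∑ p ∈ (S ×ˢ S).filter (fun p => p.1 * p.2 = n), (1 : ℝ) / ((p.1 * p.2 : ℕ) : ℝ)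
        = (((S ×ˢ S).filter (fun p => p.1 * p.2 = n)).card : ℝ) / n := by
      rw [Finset.sum_congr rfl (g := fun _ => (1 : ℝ) / n)]
      · rw [Finset.sum_const, nsmul_eq_mul, mul_one_div]
      · intro p hp
        rw [(Finset.mem_filter.mp hp).2]
    rw [e1]
    refine div_le_div_of_nonneg_right ?_ (Nat.cast_nonneg n)
    rcases Finset.eq_empty_or_nonempty ((S ×ˢ S).filter (fun p => p.1 * p.2 = n)) with he | he
    · rw [he]
      have := conv_nonneg χ n
      have h3 : (0 : ℝ) ≤ ((∑ d ∈ n.divisors, χ (d : ZMod 8) : ℤ) : ℝ) := by exact_mod_cast this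
      push_cast at h3
      simpa using h3
    · obtain ⟨⟨a, b⟩, hab⟩ := he
      simp only [hS, Finset.mem_filter, Finset.mem_product, Finset.mem_Icc] at hab
      obtain ⟨⟨⟨_, ha⟩, _, hb⟩, hn'⟩ := hab
      have hall : ∀ d ∈ n.divisors, (χ (d : ZMod 8) : ℝ) = 1 := by
        intro d hd
        have hdn := Nat.dvd_of_mem_divisors hd
        have : χ (d : ZMod 8) = 1 := by
          refine chi_lan χ j h1 h2 d ⟨Nat.pos_of_dvd_of_pos hdn hn0, fun p hp hpd => ?_⟩
          have hpn : p ∣ a * b := by rw [hn']; exact hpd.trans hdn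
          rcases (hp.dvd_mul).mp hpn with h | h
          · exact ha.2 p hp h
          · exact hb.2 p hp h
        rw [this]; simp
      rw [Finset.sum_congr rfl hall, Finset.sum_const, nsmul_eq_mul, mul_one]
      have hcard : ((S ×ˢ S).filter (fun p => p.1 * p.2 = n)).card ≤ n.divisors.card := by
        refine Finset.card_le_card_of_injOn (fun p => p.1) ?_ ?_
        · intro p hp
          have hp2 := (Finset.mem_filter.mp (Finset.mem_coe.mp hp)).2
          simp only [Finset.coe_sort_coe, Finset.mem_coe, Nat.mem_divisors]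
          exact ⟨Dvd.intro _ hp2, hn0.ne'⟩
        · intro p hp q hq hpq
          have hp2 := (Finset.mem_filter.mp (Finset.mem_coe.mp hp)).2
          have hq2 := (Finset.mem_filter.mp (Finset.mem_coe.mp hq)).2
          have hpq' : p.1 = q.1 := hpq
          have hp1 : 0 < p.1 := Nat.pos_of_ne_zero (fun h => by rw [h] at hp2; omega)
          have : p.2 = q.2 := by
            apply Nat.eq_of_mul_eq_mul_left hp1
            rw [hp2, hpq', hq2]
          exact Prod.ext hpq' this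
      exact_mod_cast hcard
  calc _ ≤ ∑ n ∈ Finset.Icc 1 (x ^ 2), (∑ d ∈ n.divisors, (χ (d : ZMod 8) : ℝ)) / n :=
        Finset.sum_le_sum hterm
    _ ≤ 16 * (1 + Real.log ((x ^ 2 : ℕ) : ℝ)) := sum_conv χ hχ (x ^ 2) (by positivity)
    _ = 16 * (1 + 2 * Real.log x) := by
        rw [Nat.cast_pow, Real.log_pow]; push_cast; ring

end Jes95
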