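import Pool.Agent.LibJes95.H6
import Pool.Agent.LibJes95.Col
import Pool.Agent.LibJes95.Diag
namespace Jes95

theorem main :
    -- solutions with even `y`, `z`
    (∀ a b c k D : ℕ, Odd a → Even b → 0 < b → a.Coprime b → a ^ 2 + b ^ 2 = c ^ 2 → 2 ^ k ∣ b →
      (c ^ 2 ≤ 2 ^ (3 * k) * b ^ 2 ∨
        ((∀ j, 0 < j → a ^ 2 ∣ b ^ (2 * j) - 1 → D ≤ j) ∧ c ^ 4 ≤ 2 ^ (3 * k * D) * b ^ 4)) →
      ∀ x y z : ℕ, 0 < x → 0 < y → 0 < z → Even y → Even z → a ^ x + b ^ y = c ^ z →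
        x = 2 ∧ y = 2 ∧ z = 2) ∧
    -- explicit cases of the conjecture
    (∀ m n k D : ℕ, Adm m n → ParCond m n → 2 ^ k ∣ 2 * m * n →
      ((m ^ 2 + n ^ 2) ^ 2 ≤ 2 ^ (3 * k) * (2 * m * n) ^ 2 ∨
        ((∀ j, 0 < j → (m ^ 2 - n ^ 2) ^ 2 ∣ (2 * m * n) ^ (2 * j) - 1 → D ≤ j) ∧
          (m ^ 2 + n ^ 2) ^ 4 ≤ 2 ^ (3 * k * D) * (2 * m * n) ^ 4)) → JesMN m n) ∧
    -- rows, columns, diagonals
    (∃ K : ℝ, ∀ M : ℕ, 2 ≤ M →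
      (∀ n : ℕ, (({m : ℕ | m ≤ M ∧ Adm m n ∧ ¬ JesMN m n}).ncard : ℝ)
        ≤ K * M / √(Real.log M)) ∧
      (({n : ℕ | Adm M n ∧ ¬ JesMN M n}).ncard : ℝ) ≤ K * M / √(Real.log M) ∧
      (∀ d : ℕ, (({n : ℕ | n ≤ M ∧ Adm (n + d) n ∧ ¬ JesMN (n + d) n}).ncard : ℝ)
        ≤ d + K * M / √(Real.log M))) ∧
    -- hypotenuse
    (∃ K : ℝ, ∀ C : ℕ, 2 ≤ C →
      (({t : ℕ × ℕ × ℕ | Prim t.1 t.2.1 t.2.2 ∧ t.2.2 ≤ C ∧ ¬ Jes t.1 t.2.1 t.2.2}).ncard : ℝ)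
        ≤ K * C / √(Real.log C)) ∧
    (∃ κ : ℝ, 0 < κ ∧ ∀ C : ℕ, 5 ≤ C →
      κ * C ≤ (({t : ℕ × ℕ × ℕ | Prim t.1 t.2.1 t.2.2 ∧ t.2.2 ≤ C}).ncard : ℝ)) ∧
    Filter.Tendsto (fun C : ℕ =>
      (({t : ℕ × ℕ × ℕ | Prim t.1 t.2.1 t.2.2 ∧ t.2.2 ≤ C ∧ Jes t.1 t.2.1 t.2.2}).ncard : ℝ) /
        (({t : ℕ × ℕ × ℕ | Prim t.1 t.2.1 t.2.2 ∧ t.2.2 ≤ C}).ncard : ℝ))
      Filter.atTop (nhds 1) := by
  refine ⟨?_, ?_, ?_, ?_, prim_count, density_one⟩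
  · rintro a b c k D ha hb hb0 hab h hk hc x y z hx hy hz ⟨Y, hY⟩ ⟨Z, hZ⟩ e
    have e' : a ^ x + b ^ (2 * Y) = c ^ (2 * Z) := by
      rw [two_mul Y, two_mul Z, ← hY, ← hZ]; exact e
    have : x = 2 ∧ Y = 1 ∧ Z = 1 := by
      rcases hc with hc | ⟨hD, hc⟩
      · exact even_case ha hb hb0 hab h hx (by omega) (by omega) e' k hk hc
      · exact even_case_D ha hb hb0 hab h hx (by omega) (by omega) e' k D hk hD hc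
    omega
  · rintro m n k D hA hp hk hc
    rcases hc with hc | ⟨hD, hc⟩
    · exact jes_of_ratio hA hp hk hc
    · exact jes_of_order hA hp hk hD hc
  · obtain ⟨K1, hK1, h1⟩ := row_bound
    obtain ⟨K2, hK2, h2⟩ := col_bound
    obtain ⟨K3, hK3, h3⟩ := diag_bound
    refine ⟨K1 + K2 + K3, fun M hM => ⟨fun n => (h1 M hM n).trans ?_,
      (h2 M hM).trans ?_, fun d => (h3 M hM d).trans ?_⟩⟩
    · gcongr; linarith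
    · gcongr; linarith
    · gcongr; linarith
  · obtain ⟨K, _, h⟩ := hyp_bound
    exact ⟨K, h⟩

end Jes95
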