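import Pool.Agent.LibJes95.Defs
namespace Jes95

/-- Jacobi symbols modulo a divisor of `m + n`: there `m^2-n^2 = 0`, `2mn = -2m^2`,
`m^2+n^2 = 2m^2`, so `J(-2 | d)^y = J(2 | d)^z` (use `jacobiSym.mod_left`/`jacobiSym` of
integers congruent mod `d`, `jacobiSym.at_two`, `jacobiSym.at_neg_two`,
`J(m | d)^2 = 1` as `m` is coprime to `d`). -/
theorem par_plus {m n d x y z : ℕ} (hnm : n < m) (hco : m.Coprime n) (hd : d ∣ m + n)
    (hodd : Odd d) (hx : 0 < x)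
    (e : (m ^ 2 - n ^ 2) ^ x + (2 * m * n) ^ y = (m ^ 2 + n ^ 2) ^ z) :
    (ZMod.χ₈' (d : ZMod 8)) ^ y = (ZMod.χ₈ (d : ZMod 8)) ^ z := by
  have hcop : Nat.Coprime m d := by
    have h1 : Nat.Coprime m (m + n) := by
      rw [Nat.coprime_self_add_right]; exact hco
    exact Nat.Coprime.of_dvd_right hd h1
  have hdi : (d : ℤ) ∣ (m : ℤ) + n := by exact_mod_cast hd
  have hle : n ^ 2 ≤ m ^ 2 := Nat.pow_le_pow_left hnm.le 2
  have ei : ((m : ℤ) ^ 2 - n ^ 2) ^ x + (2 * m * n) ^ y = ((m : ℤ) ^ 2 + n ^ 2) ^ z := by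
    have := congrArg (Nat.cast : ℕ → ℤ) e
    push_cast [Nat.cast_sub hle] at this
    exact this
  have h0 : (d : ℤ) ∣ ((m : ℤ) ^ 2 - n ^ 2) ^ x := by
    have h2 : (d : ℤ) ∣ (m : ℤ) ^ 2 - n ^ 2 := by
      have : (m : ℤ) ^ 2 - n ^ 2 = (m + n) * (m - n) := by ring
      rw [this]; exact Dvd.dvd.mul_right hdi _
    exact dvd_pow h2 (by omega)
  have hmod : ((2 * m * n : ℤ) ^ y) % d = (((m : ℤ) ^ 2 + n ^ 2) ^ z) % d := by
    have : (2 * m * n : ℤ) ^ y ≡ ((m : ℤ) ^ 2 + n ^ 2) ^ z [ZMOD d] := by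
      rw [Int.modEq_iff_dvd, ← ei]
      simpa using h0
    exact this
  have hJ := jacobiSym.mod_left' hmod
  rw [jacobiSym.pow_left, jacobiSym.pow_left] at hJ
  have hsq : jacobiSym (m : ℤ) d ^ 2 = 1 := by
    apply jacobiSym.sq_one
    simpa [Int.gcd_natCast_natCast] using hcop
  have hA : jacobiSym (2 * m * n : ℤ) d = ZMod.χ₈' (d : ZMod 8) := by
    have h1 : (2 * m * n : ℤ) % d = (-2 * (m : ℤ) ^ 2) % d := by
      have : (2 * m * n : ℤ) ≡ -2 * (m : ℤ) ^ 2 [ZMOD d] := by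
        rw [Int.modEq_iff_dvd]
        have : -2 * (m : ℤ) ^ 2 - 2 * m * n = (m + n) * (-2 * m) := by ring
        rw [this]; exact Dvd.dvd.mul_right hdi _
      exact this
    rw [jacobiSym.mod_left' h1, jacobiSym.mul_left, jacobiSym.pow_left, hsq, mul_one,
      jacobiSym.at_neg_two hodd]
  have hB : jacobiSym ((m : ℤ) ^ 2 + n ^ 2) d = ZMod.χ₈ (d : ZMod 8) := by
    have h1 : ((m : ℤ) ^ 2 + n ^ 2) % d = (2 * (m : ℤ) ^ 2) % d := by
      have : ((m : ℤ) ^ 2 + n ^ 2) ≡ 2 * (m : ℤ) ^ 2 [ZMOD d] := by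
        rw [Int.modEq_iff_dvd]
        have : 2 * (m : ℤ) ^ 2 - ((m : ℤ) ^ 2 + n ^ 2) = (m + n) * (m - n) := by ring
        rw [this]; exact Dvd.dvd.mul_right hdi _
      exact this
    rw [jacobiSym.mod_left' h1, jacobiSym.mul_left, jacobiSym.pow_left, hsq, mul_one,
      jacobiSym.at_two hodd]
  rw [hA, hB] at hJ
  exact hJ

end Jes95
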