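import Pool.Agent.LibJes95.Crit
import Pool.Agent.LibJes95.W3
import Pool.Agent.LibJes95.L7
import Pool.Agent.LibJes95.S2
import Pool.Agent.LibJes95.R1
namespace Jes95

private lemma wief_row' {P n M : ℕ} (hP : P.Prime) :
    ({m : ℕ | m ≤ M ∧ Adm m n ∧ P ∣ m - n ∧ P ^ 2 ∣ (2 * m * n) ^ (P - 1) - 1}).ncard
      ≤ M / P ^ 2 + 1 := by
  by_cases hP2 : P = 2
  · have : {m : ℕ | m ≤ M ∧ Adm m n ∧ P ∣ m - n ∧ P ^ 2 ∣ (2 * m * n) ^ (P - 1) - 1} = ∅ := by
      ext m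
      simp only [Set.mem_setOf_eq, Set.mem_empty_iff_false, iff_false]
      rintro ⟨_, ⟨_, h2, _, h4⟩, ⟨t, ht⟩, _⟩
      subst hP2
      omega
    rw [this, Set.ncard_empty]
    exact Nat.zero_le _
  by_cases hPn : P ∣ n
  · have : {m : ℕ | m ≤ M ∧ Adm m n ∧ P ∣ m - n ∧ P ^ 2 ∣ (2 * m * n) ^ (P - 1) - 1} = ∅ := by
      ext m
      simp only [Set.mem_setOf_eq, Set.mem_empty_iff_false, iff_false]
      rintro ⟨_, ⟨_, h2, h3, _⟩, hd, _⟩
      have hPm : P ∣ m := by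
        have := dvd_add hd hPn
        rwa [Nat.sub_add_cancel h2.le] at this
      have := Nat.dvd_gcd hPm hPn
      rw [h3] at this
      exact hP.one_lt.ne' (Nat.dvd_one.mp this)
    rw [this, Set.ncard_empty]
    exact Nat.zero_le _
  rcases Nat.eq_zero_or_pos n with hn | hn
  · exact absurd (hn ▸ dvd_zero P) hPn
  · refine le_trans (Set.ncard_le_ncard ?_ ?_) (wief_row (M := M) hP hP2 hn hPn)
    · rintro m ⟨a1, a2, a3, a4⟩
      exact ⟨a1, a2.2.1, a3, a4⟩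
    · exact (Set.finite_Iic M).subset (fun m hm => hm.1)

/-- Rows.  The set is contained in the union of `{m | m + n ∈ Lan j, m + n ≤ 2M}` (`j = 3,5,7`),
`{m | m - n is TT M-smooth, 0 < m - n ≤ M}`, and, for the primes `P ∈ [TT M + 1, M]`, the sets of
`wief_row` (`P ∤ n` by coprimality). -/
theorem row_bound : ∃ K : ℝ, 0 < K ∧ ∀ M : ℕ, 2 ≤ M → ∀ n : ℕ,
    (({m : ℕ | m ≤ M ∧ Adm m n ∧ ¬ JesMN m n}).ncard : ℝ) ≤ K * M / √(Real.log M) := by
  obtain ⟨K1, hK1, h1⟩ := lan_bound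
  obtain ⟨K2, hK2, h2⟩ := smooth_bound
  obtain ⟨K3, hK3, h3⟩ := prime_sum_bound
  refine ⟨6 * K1 + K2 + K3, by positivity, fun M hM n => ?_⟩
  have hM1 : (1 : ℝ) < M := by exact_mod_cast (by omega : 1 < M)
  have hlog : 0 < Real.log M := Real.log_pos hM1
  have hsq : 0 < √(Real.log M) := Real.sqrt_pos.mpr hlog
  -- the pieces
  set L : ℕ → Set ℕ := fun j => {m | m ≤ M ∧ n < m ∧ m + n ∈ Lan j} with hL
  set Sm : Set ℕ := {m | m ≤ M ∧ n < m ∧ ∀ p : ℕ, p.Prime → p ∣ m - n → p ≤ TT M} with hSm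
  set W : ℕ → Set ℕ := fun P =>
    {m | m ≤ M ∧ Adm m n ∧ P ∣ m - n ∧ P ^ 2 ∣ (2 * m * n) ^ (P - 1) - 1} with hW
  set PS := (Finset.Icc (TT M + 1) M).filter Nat.Prime with hPS
  have hsub : {m : ℕ | m ≤ M ∧ Adm m n ∧ ¬ JesMN m n}
      ⊆ (L 3 ∪ (L 5 ∪ L 7)) ∪ (Sm ∪ ⋃ P ∈ PS, W P) := by
    rintro m ⟨hmM, hadm, hj⟩
    by_cases hp : ParCond m n
    · right
      by_cases hs : ∀ p : ℕ, p.Prime → p ∣ m - n → p ≤ TT M
      · left; exact ⟨hmM, hadm.2.1, hs⟩
      · right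
        push Not at hs
        obtain ⟨P, hPp, hPd, hPT⟩ := hs
        have hw : P ^ 2 ∣ (2 * m * n) ^ (P - 1) - 1 := by
          by_contra hw
          exact hj (jes_of_prime hadm hp hmM hPp hPd (TT_spec hPT) hw)
        have hPM : P ≤ M := by
          have h0 : 0 < m - n := Nat.sub_pos_of_lt hadm.2.1
          have := Nat.le_of_dvd h0 hPd
          omega
        simp only [Set.mem_iUnion]
        refine ⟨P, ?_, hmM, hadm, hPd, hw⟩
        rw [hPS, Finset.mem_filter, Finset.mem_Icc]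
        exact ⟨⟨hPT, hPM⟩, hPp⟩
    · left
      rcases lan_of_not_parCond hadm hp with h | h | h
      · left; exact ⟨hmM, hadm.2.1, h⟩
      · right; left; exact ⟨hmM, hadm.2.1, h⟩
      · right; right; exact ⟨hmM, hadm.2.1, h⟩
  have hfin : ((L 3 ∪ (L 5 ∪ L 7)) ∪ (Sm ∪ ⋃ P ∈ PS, W P)).Finite := by
    refine (Set.finite_Iic M).subset ?_
    rintro m ((h | h | h) | h | h)
    · exact h.1
    · exact h.1
    · exact h.1
    · exact h.1
    · simp only [Set.mem_iUnion] at h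
      obtain ⟨P, _, h⟩ := h
      exact h.1
  -- bounds
  have hLb : ∀ j, (j = 3 ∨ j = 5 ∨ j = 7) →
      ((L j).ncard : ℝ) ≤ 2 * K1 * M / √(Real.log M) := by
    intro j hj
    have e1 : (L j).ncard ≤ ({s : ℕ | s ∈ Lan j ∧ s ≤ 2 * M}).ncard := by
      refine Set.ncard_le_ncard_of_injOn (fun m => m + n) ?_ ?_ ?_
      · rintro m ⟨a1, a2, a3⟩
        refine ⟨a3, ?_⟩
        omega
      · intro a _ b _ hab
        have hab' : a + n = b + n := hab
        omega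
      · exact (Set.finite_Iic (2 * M)).subset (fun m hm => hm.2)
    have e2 := h1 j hj (2 * M) (by omega)
    have e3 : K1 * ((2 * M : ℕ) : ℝ) / √(Real.log ((2 * M : ℕ) : ℝ))
        ≤ 2 * K1 * M / √(Real.log M) := by
      have e4 : K1 * ((2 * M : ℕ) : ℝ) = 2 * K1 * M := by push_cast; ring
      rw [e4]
      refine div_le_div_of_nonneg_left (by positivity) hsq ?_
      apply Real.sqrt_le_sqrt
      apply Real.log_le_log (by linarith)
      push_cast
      linarith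
    calc ((L j).ncard : ℝ) ≤ (({s : ℕ | s ∈ Lan j ∧ s ≤ 2 * M}).ncard : ℝ) := by
          exact_mod_cast e1
      _ ≤ _ := e2
      _ ≤ _ := e3
  have hSb : (Sm.ncard : ℝ) ≤ K2 * M / √(Real.log M) := by
    have e1 : Sm.ncard ≤
        ({k : ℕ | 0 < k ∧ k ≤ M ∧ ∀ p : ℕ, p.Prime → p ∣ k → p ≤ TT M}).ncard := by
      refine Set.ncard_le_ncard_of_injOn (fun m => m - n) ?_ ?_ ?_
      · rintro m ⟨a1, a2, a3⟩
        refine ⟨Nat.sub_pos_of_lt a2, ?_, a3⟩
        exact le_trans (Nat.sub_le m n) a1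
      · rintro a ⟨_, ha, _⟩ b ⟨_, hb, _⟩ hab
        have hab' : a - n = b - n := hab
        omega
      · exact (Set.finite_Iic M).subset (fun m hm => hm.2.1)
    exact le_trans (by exact_mod_cast e1) (h2 M hM)
  have hWb : ((⋃ P ∈ PS, W P).ncard : ℝ) ≤ K3 * M / √(Real.log M) := by
    have e1 : (⋃ P ∈ PS, W P).ncard ≤ ∑ P ∈ PS, (M / P ^ 2 + 1) := by
      refine le_trans (Finset.set_ncard_biUnion_le PS W) ?_
      refine Finset.sum_le_sum fun P hP => ?_
      exact wief_row' (Finset.mem_filter.mp hP).2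
    exact le_trans (by exact_mod_cast e1) (h3 M hM)
  have htot : ({m : ℕ | m ≤ M ∧ Adm m n ∧ ¬ JesMN m n}).ncard
      ≤ ((L 3).ncard + ((L 5).ncard + (L 7).ncard)) + (Sm.ncard + (⋃ P ∈ PS, W P).ncard) := by
    refine le_trans (Set.ncard_le_ncard hsub hfin) ?_
    refine le_trans (Set.ncard_union_le _ _) ?_
    refine Nat.add_le_add ?_ (Set.ncard_union_le _ _)
    refine le_trans (Set.ncard_union_le _ _) ?_
    exact Nat.add_le_add_left (Set.ncard_union_le _ _) _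
  have htot' : (({m : ℕ | m ≤ M ∧ Adm m n ∧ ¬ JesMN m n}).ncard : ℝ)
      ≤ (((L 3).ncard : ℝ) + ((L 5).ncard + (L 7).ncard)) +
        (Sm.ncard + (⋃ P ∈ PS, W P).ncard) := by
    exact_mod_cast htot
  have b3 := hLb 3 (by omega)
  have b5 := hLb 5 (by omega)
  have b7 := hLb 7 (by omega)
  calc _ ≤ _ := htot'
    _ ≤ (2 * K1 * M / √(Real.log M) + (2 * K1 * M / √(Real.log M)
          + 2 * K1 * M / √(Real.log M))) + (K2 * M / √(Real.log M)
          + K3 * M / √(Real.log M)) := by linarith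
    _ = (6 * K1 + K2 + K3) * M / √(Real.log M) := by ring

end Jes95
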