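import Pool.Agent.LibJes95.Defs
namespace Jes95

/-- The smoothness level attached to `M`. -/
def TT (M : ℕ) : ℕ := Nat.log 2 (M ^ 2) / 3

theorem TT_spec {M P : ℕ} (hP : TT M < P) : M ^ 2 ≤ 2 ^ (3 * P) := by
  have h1 : Nat.log 2 (M ^ 2) < 3 * P := by
    unfold TT at hP
    omega
  rcases Nat.eq_zero_or_pos M with hM | hM
  · subst hM; positivity
  · exact (Nat.lt_pow_of_log_lt (by norm_num) h1).le

private theorem s1_primes (T : ℕ) : (Nat.primesBelow (T + 1)).card ≤ T / 2 + 1 := by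
  have h : (Nat.primesBelow (T + 1)).card ≤ (Finset.range (T / 2 + 1)).card := by
    apply Finset.card_le_card_of_injOn (fun p => if p = 2 then 0 else p / 2)
    · intro p hp
      rw [Finset.mem_coe, Nat.mem_primesBelow] at hp
      rw [Finset.mem_coe, Finset.mem_range]
      simp only
      split_ifs <;> omega
    · intro p hp q hq h
      rw [Finset.mem_coe, Nat.mem_primesBelow] at hp hq
      simp only at h
      have h1 := hp.2.eq_two_or_odd
      have h2 := hq.2.eq_two_or_odd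
      have h3 := hp.2.two_le
      have h4 := hq.2.two_le
      split_ifs at h <;> omega
  simpa using h

/-- Smooth numbers (`Nat.smoothNumbersUpTo_card_le`, `#primesBelow (T+1) ≤ T/2 + 1`,
`2^(T/2) ≤ M^(1/3)`): the number is `≤ 4 M^(5/6)`. -/
theorem smooth_bound : ∃ K : ℝ, 0 < K ∧ ∀ M : ℕ, 2 ≤ M →
    (({k : ℕ | 0 < k ∧ k ≤ M ∧ ∀ p : ℕ, p.Prime → p ∣ k → p ≤ TT M}).ncard : ℝ)
      ≤ K * M / √(Real.log M) := by
  refine ⟨4, by norm_num, fun M hM => ?_⟩
  set T := TT M with hT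
  set c := ({k : ℕ | 0 < k ∧ k ≤ M ∧ ∀ p : ℕ, p.Prime → p ∣ k → p ≤ T}).ncard with hc
  have h1 : c ≤ (Nat.smoothNumbersUpTo M (T + 1)).card := by
    rw [hc, ← Set.ncard_coe_finset]
    apply Set.ncard_le_ncard _ (Finset.finite_toSet _)
    intro k hk
    obtain ⟨hk0, hkM, hkp⟩ := hk
    rw [Finset.mem_coe, Nat.mem_smoothNumbersUpTo]
    refine ⟨hkM, ?_⟩
    rw [Nat.mem_smoothNumbers']
    intro p hp hpk
    exact Nat.lt_succ_of_le (hkp p hp hpk)
  have h2 := Nat.smoothNumbersUpTo_card_le M (T + 1)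
  have h3 : (Nat.primesBelow (T + 1)).card ≤ T / 2 + 1 := s1_primes T
  have h4 : c ≤ 2 ^ (T / 2 + 1) * Nat.sqrt M :=
    h1.trans (h2.trans (Nat.mul_le_mul_right _ (Nat.pow_le_pow_right (by norm_num) h3)))
  have h5 : 2 ^ (3 * T) ≤ M ^ 2 := by
    have : 3 * T ≤ Nat.log 2 (M ^ 2) := by
      rw [hT]
      unfold TT
      omega
    exact Nat.pow_le_of_le_log (by positivity) this
  have h6 : c ^ 6 ≤ 64 * M ^ 5 := by
    calc c ^ 6 ≤ (2 ^ (T / 2 + 1) * Nat.sqrt M) ^ 6 := Nat.pow_le_pow_left h4 6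
      _ = 2 ^ (6 * (T / 2)) * 64 * (Nat.sqrt M ^ 2) ^ 3 := by
        rw [mul_pow, ← pow_mul, ← pow_mul]
        have : (T / 2 + 1) * 6 = 6 * (T / 2) + 6 := by ring
        rw [this, pow_add]
        norm_num
      _ ≤ 2 ^ (3 * T) * 64 * M ^ 3 := by
        apply Nat.mul_le_mul
        · apply Nat.mul_le_mul_right
          apply Nat.pow_le_pow_right (by norm_num)
          omega
        · exact Nat.pow_le_pow_left (Nat.sqrt_le' M) 3
      _ ≤ M ^ 2 * 64 * M ^ 3 := Nat.mul_le_mul_right _ (Nat.mul_le_mul_right _ h5)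
      _ = 64 * M ^ 5 := by ring
  have hM2 : (2 : ℝ) ≤ M := by exact_mod_cast hM
  have hMpos : (0 : ℝ) < M := by linarith
  have hlog : 0 < Real.log M := Real.log_pos (by linarith)
  have h7 : Real.log M ^ 3 ≤ 27 * M := by
    set y := Real.log M / 3 with hy
    have e1 : 0 < y := by positivity
    have e2 : y ≤ Real.exp y := by linarith [Real.add_one_le_exp y]
    have e3 : y ^ 3 ≤ Real.exp y ^ 3 := pow_le_pow_left₀ e1.le e2 3
    have e4 : Real.exp y ^ 3 = M := by
      rw [← Real.exp_nat_mul]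
      have : ((3 : ℕ) : ℝ) * y = Real.log M := by
        rw [hy]
        push_cast
        ring
      rw [this, Real.exp_log hMpos]
    have e5 : Real.log M = 3 * y := by rw [hy]; ring
    rw [e5, mul_pow]
    nlinarith
  rw [le_div_iff₀ (Real.sqrt_pos.mpr hlog)]
  apply le_of_pow_le_pow_left₀ (n := 6) (by norm_num) (by positivity)
  have h8 : ((c : ℝ)) ^ 6 ≤ 64 * (M : ℝ) ^ 5 := by exact_mod_cast h6
  have h9 : √(Real.log M) ^ 6 = Real.log M ^ 3 := by
    have : √(Real.log M) ^ 6 = (√(Real.log M) ^ 2) ^ 3 := by ring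
    rw [this, Real.sq_sqrt hlog.le]
  rw [mul_pow, h9, mul_pow]
  calc (c : ℝ) ^ 6 * Real.log M ^ 3 ≤ (64 * (M : ℝ) ^ 5) * (27 * M) := by
        apply mul_le_mul h8 h7 (by positivity) (by positivity)
    _ = 1728 * (M : ℝ) ^ 6 := by ring
    _ ≤ 4 ^ 6 * (M : ℝ) ^ 6 := by
        apply mul_le_mul_of_nonneg_right (by norm_num) (by positivity)

end Jes95
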