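import Pool.Agent.LibJes95.Defs
namespace Jes95

private theorem w2_pow {P t : ℕ} (hP : P.Prime) (ht : 0 < t) (h : P ^ 2 ∣ t ^ (P - 1) - 1) :
    ((P ^ 2 : ℕ) : ℤ) ∣ (t : ℤ) ^ P - t := by
  have hpos : 1 ≤ t ^ (P - 1) := Nat.one_le_pow _ _ ht
  have h1 : ((P ^ 2 : ℕ) : ℤ) ∣ ((t ^ (P - 1) - 1 : ℕ) : ℤ) := Int.natCast_dvd_natCast.2 h
  rw [Nat.cast_sub hpos] at h1
  have h2 : (t : ℤ) ^ P - t = (((t ^ (P - 1) : ℕ) : ℤ) - ((1 : ℕ) : ℤ)) * t := by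
    have h3 : P = (P - 1) + 1 := (Nat.sub_add_cancel hP.one_le).symm
    rw [sub_mul, Nat.cast_pow, ← pow_succ, ← h3]
    simp
  rw [h2]
  exact h1.mul_right _

/-- Uniqueness of the lift: `t = 2mn`, `t' = 2mn'` are congruent mod `P` and satisfy
`t^P ≡ t`, `t'^P ≡ t' (mod P^2)`, while `t ≡ t' (mod P)` implies `t^P ≡ t'^P (mod P^2)`. -/
theorem wief_unique {P m n n' : ℕ} (hP : P.Prime) (hP2 : P ≠ 2) (hm : 0 < m) (hn : 0 < n)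
    (hn' : 0 < n') (hPm : ¬ P ∣ m) (h1 : n ≡ n' [MOD P])
    (hw : P ^ 2 ∣ (2 * m * n) ^ (P - 1) - 1) (hw' : P ^ 2 ∣ (2 * m * n') ^ (P - 1) - 1) :
    n ≡ n' [MOD P ^ 2] := by
  have e1 := w2_pow hP (by positivity) hw
  have e2 := w2_pow hP (by positivity) hw'
  have e3 : ((P : ℕ) : ℤ) ∣ ((2 * m * n : ℕ) : ℤ) - ((2 * m * n' : ℕ) : ℤ) := by
    have h2 : 2 * m * n ≡ 2 * m * n' [MOD P] := h1.mul_left _
    exact (Nat.modEq_iff_dvd.1 h2.symm)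
  have e4 := dvd_sub_pow_of_dvd_sub e3 1
  simp only [pow_one] at e4
  have e5 : ((P ^ 2 : ℕ) : ℤ) ∣ ((2 * m * n' : ℕ) : ℤ) - ((2 * m * n : ℕ) : ℤ) := by
    have h3 : ((2 * m * n' : ℕ) : ℤ) - ((2 * m * n : ℕ) : ℤ) =
        ((((2 * m * n : ℕ) : ℤ) ^ P - ((2 * m * n : ℕ) : ℤ)) -
          (((2 * m * n' : ℕ) : ℤ) ^ P - ((2 * m * n' : ℕ) : ℤ))) -
        (((2 * m * n : ℕ) : ℤ) ^ P - ((2 * m * n' : ℕ) : ℤ) ^ P) := by ring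
    rw [h3]
    refine dvd_sub (dvd_sub e1 e2) ?_
    have h4 : ((P ^ 2 : ℕ) : ℤ) = (P : ℤ) ^ (1 + 1) := by push_cast; norm_num
    rw [h4]
    exact e4
  have e6 : 2 * m * n ≡ 2 * m * n' [MOD P ^ 2] := Nat.modEq_iff_dvd.2 e5
  refine Nat.ModEq.cancel_left_of_coprime ?_ e6
  have h5 : (P ^ 2).Coprime (2 * m) := by
    apply Nat.Coprime.pow_left
    rw [hP.coprime_iff_not_dvd]
    intro h6
    rcases (hP.dvd_mul).1 h6 with h7 | h7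
    · exact hP2 ((Nat.prime_dvd_prime_iff_eq hP Nat.prime_two).1 h7)
    · exact hPm h7
  exact h5

end Jes95
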