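import Pool.Agent.LibJes95.G2
namespace Jes95

/-- Every solution with even exponents of the even leg and of the hypotenuse is `(2,2,2)`. -/
def EvenJes (m n : ℕ) : Prop :=
  ∀ x y z : ℕ, 0 < x → 0 < y → 0 < z → Even y → Even z →
    (m ^ 2 - n ^ 2) ^ x + (2 * m * n) ^ y = (m ^ 2 + n ^ 2) ^ z → x = 2 ∧ y = 2 ∧ z = 2

/-- A non-trivial solution with even `y`, `z` forces a rare divisibility. -/
theorem exc_of_not_evenJes {m n : ℕ} (h : Adm m n) (hne : ¬ EvenJes m n) :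
    ∃ δ : ℕ, 0 < δ ∧ 2 ^ δ < m ^ 2 ∧ (m + n) ^ 2 ∣ (2 * m * n) ^ (2 * δ) - 1 := by
  unfold EvenJes at hne
  push Not at hne
  obtain ⟨x, y, z, hx, hy, hz, ⟨Y, hY⟩, ⟨Z, hZ⟩, e, hne⟩ := hne
  obtain ⟨f1, f2, f3, f4, f5⟩ := adm_facts h
  have e' : (m ^ 2 - n ^ 2) ^ x + (2 * m * n) ^ (2 * Y) = (m ^ 2 + n ^ 2) ^ (2 * Z) := by
    rw [two_mul Y, two_mul Z, ← hY, ← hZ]; exact e
  have h4b : (2 : ℕ) ^ 2 ∣ 2 * m * n := by
    have := four_dvd f1 f2 f5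
    simpa using this
  obtain ⟨hn0, hnm, hco, hodd⟩ := h
  rcases core f1 f2 f3 f4 f5 hx (by omega : 0 < Y) (by omega : 0 < Z) e' 2 h4b with
    h1 | ⟨ha3, hx2, hZY, hord, h1, h2, h3⟩
  · exfalso
    apply hne <;> omega
  have hnn : n ^ 2 ≤ m ^ 2 := Nat.pow_le_pow_left hnm.le 2
  have ha_eq : (m ^ 2 - n ^ 2) + n ^ 2 = m ^ 2 := Nat.sub_add_cancel hnn
  have hvd : (m + n) ∣ m ^ 2 - n ^ 2 := by
    rw [Nat.sq_sub_sq]; exact Dvd.intro _ rfl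
  have hc0 : 0 < m ^ 2 + n ^ 2 := by positivity
  rcases lt_or_ge (m ^ 2 - n ^ 2) (2 * m * n) with hlt | hge
  · exfalso
    refine num1 ha3 hlt f5 hx2 (by omega : 0 < Y) ?_ ?_ h3
    · calc (m ^ 2 + n ^ 2) * (2 * m * n) ^ Y = (m ^ 2 + n ^ 2) ^ 1 * (2 * m * n) ^ Y := by ring
        _ ≤ (m ^ 2 + n ^ 2) ^ (Y - Z) * (2 * m * n) ^ Y := by
            apply Nat.mul_le_mul_right
            exact Nat.pow_le_pow_right hc0 (by omega)
        _ < (m ^ 2 + n ^ 2) ^ Y := h1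
    · refine le_trans (le_of_eq ?_) h2
      rw [pow_succ, pow_mul]; norm_num; ring
  · have hne' : 2 * m * n ≠ m ^ 2 - n ^ 2 := by
      intro hcon
      rw [hcon] at f4
      have := (Nat.coprime_self _).mp f4
      omega
    have hba : 2 * m * n < m ^ 2 - n ^ 2 := lt_of_le_of_ne hge hne'
    refine ⟨Y - Z, by omega, ?_, (pow_dvd_pow_of_dvd hvd 2).trans hord⟩
    obtain ⟨-, h4Y⟩ := large1 (c := 0) hn0 ha_eq (by omega) hba hx2 (by omega : 0 < Y) h2 h3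
    have hm2 : 2 ≤ m := by omega
    -- `2 ^ Y < m ^ 2`
    have h5 : Y < 2 ^ Y := Nat.lt_two_pow_self
    have h6 : (4 : ℕ) ^ Y = 2 ^ Y * 2 ^ Y := by
      rw [← mul_pow]; norm_num
    have h7 : 2 ^ Y * 2 ^ Y < m ^ 2 * 2 ^ Y := by
      rw [← h6]
      exact lt_of_le_of_lt h4Y (Nat.mul_lt_mul_of_pos_left h5 (by positivity))
    have h8 : 2 ^ Y < m ^ 2 := Nat.lt_of_mul_lt_mul_right h7
    exact lt_of_le_of_lt (Nat.pow_le_pow_right (by norm_num) (by omega)) h8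

end Jes95
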