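import Mathlib
namespace Jes95

/-- the case of a finite cyclic group -/
private theorem x2_cyclic {G : Type} [CommGroup G] [Finite G] [IsCyclic G] {k : ℕ} (hk : 0 < k) :
    Nat.card {u : G // u ^ k = 1} ≤ k := by
  classical
  have := Fintype.ofFinite G
  have h := IsCyclic.card_pow_eq_one_le (α := G) hk
  rw [Nat.card_eq_fintype_card, Fintype.card_subtype]
  exact h

/-- Roots of unity modulo an odd number: `#{u : u^k = 1} ≤ k^ω(q)`.  Induction over coprime
factors (`Nat.recOnPosPrimePosCoprime`, `ZMod.chineseRemainder`, `MulEquiv.prodUnits`); for an odd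
prime power the unit group is cyclic (`ZMod.isCyclic_units_of_prime_pow`) and
`IsCyclic.card_pow_eq_one_le` applies. -/
theorem card_roots_le {q k : ℕ} (hq : Odd q) (hk : 0 < k) :
    Nat.card {u : (ZMod q)ˣ // u ^ k = 1} ≤ k ^ q.primeFactors.card := by
  induction q using Nat.recOnPosPrimePosCoprime with
  | prime_pow p n hp hn =>
    have hp2 : p ≠ 2 := by
      rintro rfl
      have h1 : ¬ Odd (2 ^ n) := by
        rw [Nat.not_odd_iff_even]
        exact (even_two).pow_of_ne_zero hn.ne'
      exact h1 hq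
    have hc := ZMod.isCyclic_units_of_prime_pow p hp hp2 n
    have : NeZero (p ^ n) := ⟨(pow_pos hp.pos n).ne'⟩
    rw [Nat.primeFactors_prime_pow hn.ne' hp, Finset.card_singleton, pow_one]
    exact x2_cyclic hk
  | zero => exact absurd hq (by decide)
  | one =>
    have hs : Subsingleton {u : (ZMod 1)ˣ // u ^ k = 1} := inferInstance
    rw [Nat.primeFactors_one, Finset.card_empty, pow_zero]
    exact Finite.card_le_one_iff_subsingleton.mpr hs
  | coprime a b ha hb hab iha ihb =>
    have ho := Nat.odd_mul.mp hq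
    have h1 := iha ho.1
    have h2 := ihb ho.2
    have e : (ZMod (a * b))ˣ ≃* (ZMod a)ˣ × (ZMod b)ˣ :=
      (Units.mapEquiv (ZMod.chineseRemainder hab).toMulEquiv).trans MulEquiv.prodUnits
    have e1 : {u : (ZMod (a * b))ˣ // u ^ k = 1} ≃
        {x : (ZMod a)ˣ × (ZMod b)ˣ // x.1 ^ k = 1 ∧ x.2 ^ k = 1} := by
      refine e.toEquiv.subtypeEquiv fun u => ?_
      have h3 : (e u) ^ k = e (u ^ k) := (map_pow e u k).symm
      constructor
      · intro hu
        rw [hu, map_one] at h3
        have h4 := congrArg Prod.fst h3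
        have h5 := congrArg Prod.snd h3
        exact ⟨h4, h5⟩
      · rintro ⟨h4, h5⟩
        have h6 : (e u) ^ k = 1 := Prod.ext h4 h5
        rw [h6] at h3
        have h7 : e (u ^ k) = e 1 := by rw [map_one]; exact h3.symm
        exact e.injective h7
    have e2 : {x : (ZMod a)ˣ × (ZMod b)ˣ // x.1 ^ k = 1 ∧ x.2 ^ k = 1} ≃
        {u : (ZMod a)ˣ // u ^ k = 1} × {u : (ZMod b)ˣ // u ^ k = 1} :=
      Equiv.subtypeProdEquivProd (p := fun u : (ZMod a)ˣ => u ^ k = 1)
        (q := fun u : (ZMod b)ˣ => u ^ k = 1)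
    rw [Nat.card_congr (e1.trans e2), Nat.card_prod, hab.primeFactors_mul,
      Finset.card_union_of_disjoint hab.disjoint_primeFactors, pow_add]
    exact Nat.mul_le_mul h1 h2

end Jes95
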