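import Pool.Agent.LibJes95.X2
namespace Jes95

/-- For odd `v`: the number of `1 ≤ u < v` coprime to `v` with `u^(4δ) ≡ 4^δ (mod v^2)` is at most
`(4δ)^ω(v)` (a fibre of the power map on `(ZMod (v^2))ˣ` injects into its kernel). -/
theorem card_pow_fiber {v δ : ℕ} (hv : Odd v) (hδ : 0 < δ) :
    ({u : ℕ | u < v ∧ u.Coprime v ∧ (u : ZMod (v ^ 2)) ^ (4 * δ) = 4 ^ δ}).ncard
      ≤ (4 * δ) ^ v.primeFactors.card := by
  have hv0 : 0 < v := hv.pos
  have : NeZero (v ^ 2) := ⟨by positivity⟩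
  have hroots := card_roots_le (q := v ^ 2) (k := 4 * δ) (hv.pow) (by omega)
  rw [Nat.primeFactors_pow v (by norm_num)] at hroots
  refine le_trans ?_ hroots
  rcases Set.eq_empty_or_nonempty
    ({u : ℕ | u < v ∧ u.Coprime v ∧ (u : ZMod (v ^ 2)) ^ (4 * δ) = 4 ^ δ}) with hS | ⟨u0, hu0⟩
  · rw [hS, Set.ncard_empty]
    exact Nat.zero_le _
  · have hcop : ∀ u : ℕ, u.Coprime v → u.Coprime (v ^ 2) := fun u h => h.pow_right 2
    have key : ∀ u ∈ ({u : ℕ | u < v ∧ u.Coprime v ∧ (u : ZMod (v ^ 2)) ^ (4 * δ) = 4 ^ δ}),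
        ∃ w : (ZMod (v ^ 2))ˣ, (w : ZMod (v ^ 2)) = u ∧ (w : ZMod (v ^ 2)) ^ (4 * δ) = 4 ^ δ := by
      rintro u ⟨h1, h2, h3⟩
      exact ⟨ZMod.unitOfCoprime u (hcop u h2), ZMod.coe_unitOfCoprime u _, by
        rw [ZMod.coe_unitOfCoprime]; exact h3⟩
    choose! g hg1 hg2 using key
    rw [← Nat.card_coe_set_eq]
    let f : ({u : ℕ | u < v ∧ u.Coprime v ∧ (u : ZMod (v ^ 2)) ^ (4 * δ) = 4 ^ δ}) →
        {w : (ZMod (v ^ 2))ˣ // w ^ (4 * δ) = 1} := fun u =>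
      ⟨g u.1 * (g u0)⁻¹, by
        have e1 : (g u.1) ^ (4 * δ) = (g u0) ^ (4 * δ) := by
          apply Units.ext
          push_cast
          rw [hg2 u.1 u.2, hg2 u0 hu0]
        rw [mul_pow, inv_pow, e1, mul_inv_cancel]⟩
    apply Nat.card_le_card_of_injective f
    intro u u' h
    have h1 : g u.1 * (g u0)⁻¹ = g u'.1 * (g u0)⁻¹ := congrArg Subtype.val h
    have h2 : g u.1 = g u'.1 := mul_right_cancel h1
    have h3 : ((u.1 : ℕ) : ZMod (v ^ 2)) = ((u'.1 : ℕ) : ZMod (v ^ 2)) := by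
      rw [← hg1 u.1 u.2, ← hg1 u'.1 u'.2, h2]
    have h4 := (ZMod.natCast_eq_natCast_iff' _ _ _).mp h3
    have hlt : ∀ w : ℕ, w < v → w < v ^ 2 := fun w hw => lt_of_lt_of_le hw (by nlinarith)
    rw [Nat.mod_eq_of_lt (hlt _ u.2.1), Nat.mod_eq_of_lt (hlt _ u'.2.1)] at h4
    exact Subtype.ext h4

/-- For odd `v`: the number of admissible `(m, n)` with `m + n = v` and
`v^2 ∣ (2mn)^(2δ) - 1` is at most `(4δ)^ω(v)`: with `u = m - n`, `2·(2mn) = v^2 - u^2`. -/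
theorem card_antidiag {v δ : ℕ} (hv : Odd v) (hδ : 0 < δ) :
    ({n : ℕ | n < v - n ∧ 0 < n ∧ n.Coprime v ∧
        v ^ 2 ∣ (2 * (v - n) * n) ^ (2 * δ) - 1}).ncard ≤ (4 * δ) ^ v.primeFactors.card := by
  have hv0 : 0 < v := hv.pos
  have : NeZero (v ^ 2) := ⟨by positivity⟩
  refine le_trans ?_ (card_pow_fiber hv hδ)
  have hfin : ({u : ℕ | u < v ∧ u.Coprime v ∧
      (u : ZMod (v ^ 2)) ^ (4 * δ) = 4 ^ δ}).Finite :=
    (Set.finite_lt_nat v).subset (fun u hu => hu.1)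
  refine Set.ncard_le_ncard_of_injOn (fun n => v - 2 * n) ?_ ?_ hfin
  · rintro n ⟨h1, h2, h3, h4⟩
    refine ⟨by omega, ?_, ?_⟩
    · have h5 : (2 * n).Coprime v := Nat.Coprime.mul_left (Nat.coprime_two_left.mpr hv) h3
      have h6 : v - 2 * n + 2 * n = v := by omega
      have h7 : Nat.Coprime (v - 2 * n) (v - 2 * n + 2 * n) := by
        rw [Nat.coprime_self_add_right]
        have h8 : Nat.Coprime (v - 2 * n + 2 * n) (2 * n) := by rw [h6]; exact h5.symm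
        exact (Nat.coprime_add_self_left.mp h8)
      rw [h6] at h7
      exact h7
    · have hb1 : 1 ≤ (2 * (v - n) * n) ^ (2 * δ) := by
        apply Nat.one_le_pow
        have : 0 < v - n := by omega
        positivity
      have h5 : (((2 * (v - n) * n) ^ (2 * δ) : ℕ) : ZMod (v ^ 2)) = 1 := by
        have h6 : (((2 * (v - n) * n) ^ (2 * δ) - 1 : ℕ) : ZMod (v ^ 2)) = 0 :=
          (ZMod.natCast_eq_zero_iff _ _).mpr h4
        rw [Nat.cast_sub hb1] at h6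
        rw [Nat.cast_one] at h6
        exact sub_eq_zero.mp h6
      have h6 : 2 * (2 * (v - n) * n) + (v - 2 * n) ^ 2 = v ^ 2 := by
        obtain ⟨w, hw⟩ : ∃ w, v = 2 * n + w := ⟨v - 2 * n, by omega⟩
        have e1 : v - n = n + w := by omega
        have e2 : v - 2 * n = w := by omega
        rw [e1, e2, hw]; ring
      have h7 : (((v - 2 * n : ℕ) : ZMod (v ^ 2)) ^ 2) = - (2 * ((2 * (v - n) * n : ℕ) : ZMod (v ^ 2))) := by
        have h8 : ((2 * (2 * (v - n) * n) + (v - 2 * n) ^ 2 : ℕ) : ZMod (v ^ 2)) = 0 := by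
          rw [h6]
          exact ZMod.natCast_self _
        rw [Nat.cast_add, Nat.cast_pow, Nat.cast_mul 2] at h8
        have h9 := eq_neg_of_add_eq_zero_right h8
        rw [h9]
        norm_num
      change ((v - 2 * n : ℕ) : ZMod (v ^ 2)) ^ (4 * δ) = 4 ^ δ
      calc ((v - 2 * n : ℕ) : ZMod (v ^ 2)) ^ (4 * δ)
          = (((v - 2 * n : ℕ) : ZMod (v ^ 2)) ^ 2) ^ (2 * δ) := by
            rw [← pow_mul]; congr 1; ring
        _ = (2 * ((2 * (v - n) * n : ℕ) : ZMod (v ^ 2))) ^ (2 * δ) := by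
            rw [h7, Even.neg_pow (even_two_mul δ)]
        _ = 2 ^ (2 * δ) * (((2 * (v - n) * n : ℕ) : ZMod (v ^ 2)) ^ (2 * δ)) := by
            rw [mul_pow]
        _ = 4 ^ δ := by
            have h10 : (((2 * (v - n) * n : ℕ) : ZMod (v ^ 2)) ^ (2 * δ)) = 1 := by
              rw [← Nat.cast_pow]; exact h5
            rw [h10, mul_one, pow_mul]
            norm_num
  · rintro n ⟨h1, h2, -⟩ n' ⟨h1', h2', -⟩ h
    simp only at h
    omega

end Jes95
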