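import Mathlib
namespace Jes95

open Finset

/-- `(t+1)^ω(m)` as a sum over divisors -/
private theorem x4_div (t m : ℕ) (hm : m ≠ 0) :
    ((t + 1 : ℕ) : ℝ) ^ m.primeFactors.card ≤
      ∑ d ∈ m.divisors, (t : ℝ) ^ d.primeFactors.card := by
  classical
  have h1 : ((t + 1 : ℕ) : ℝ) ^ m.primeFactors.card =
      ∑ S ∈ m.primeFactors.powerset, (t : ℝ) ^ S.card := by
    have h := Finset.sum_pow_mul_eq_add_pow (t : ℝ) 1 m.primeFactors
    simp only [one_pow, mul_one] at h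
    rw [h]
    push_cast
    rfl
  have hpr : ∀ S ∈ m.primeFactors.powerset, ∀ p ∈ S, p.Prime := fun S hS p hp =>
    Nat.prime_of_mem_primeFactors (Finset.mem_powerset.mp hS hp)
  rw [h1]
  have hinj : Set.InjOn (fun S : Finset ℕ => ∏ p ∈ S, p) (m.primeFactors.powerset : Set (Finset ℕ)) := by
    intro S hS T hT hST
    have h2 := Nat.primeFactors_prod (hpr S hS)
    have h3 := Nat.primeFactors_prod (hpr T hT)
    simp only at hST
    rw [← h2, hST, h3]
  calc ∑ S ∈ m.primeFactors.powerset, (t : ℝ) ^ S.card =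
      ∑ S ∈ m.primeFactors.powerset, (t : ℝ) ^ (∏ p ∈ S, p).primeFactors.card := by
        refine Finset.sum_congr rfl fun S hS => ?_
        rw [Nat.primeFactors_prod (hpr S hS)]
    _ = ∑ d ∈ m.primeFactors.powerset.image (fun S : Finset ℕ => ∏ p ∈ S, p),
        (t : ℝ) ^ d.primeFactors.card :=
        (Finset.sum_image (f := fun d : ℕ => (t : ℝ) ^ d.primeFactors.card) hinj).symm
    _ ≤ _ := by
        refine Finset.sum_le_sum_of_subset_of_nonneg ?_ fun d _ _ => by positivity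
        intro d hd
        obtain ⟨S, hS, rfl⟩ := Finset.mem_image.mp hd
        rw [Nat.mem_divisors]
        refine ⟨?_, hm⟩
        have h2 : (∏ p ∈ S, p) ∣ ∏ p ∈ m.primeFactors, p :=
          Finset.prod_dvd_prod_of_subset _ _ _ (Finset.mem_powerset.mp hS)
        exact h2.trans (Nat.prod_primeFactors_dvd m)

/-- exchange of the summations -/
private theorem x4_swap (f : ℕ → ℝ) (X : ℕ) :
    ∑ m ∈ Finset.Icc 1 X, ∑ d ∈ m.divisors, f d =
      ∑ e ∈ Finset.Icc 1 X, ∑ d ∈ Finset.Icc 1 (X / e), f d := by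
  rw [Finset.sum_sigma', Finset.sum_sigma']
  refine Finset.sum_bij' (i := fun x _ => ⟨x.1 / x.2, x.2⟩) (j := fun x _ => ⟨x.1 * x.2, x.2⟩)
    ?_ ?_ ?_ ?_ ?_
  · rintro ⟨m, d⟩ h
    simp only [Finset.mem_sigma, Finset.mem_Icc, Nat.mem_divisors] at h ⊢
    obtain ⟨⟨h1, h2⟩, h3, h4⟩ := h
    have hd : 0 < d := Nat.pos_of_dvd_of_pos h3 (by omega)
    have hdm : d ≤ m := Nat.le_of_dvd (by omega) h3
    have hmd : 0 < m / d := Nat.div_pos hdm hd
    refine ⟨⟨hmd, (Nat.div_le_self _ _).trans h2⟩, hd, ?_⟩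
    rw [Nat.le_div_iff_mul_le hmd, Nat.mul_div_cancel' h3]
    exact h2
  · rintro ⟨e, d⟩ h
    simp only [Finset.mem_sigma, Finset.mem_Icc, Nat.mem_divisors] at h ⊢
    obtain ⟨⟨h1, h2⟩, h3, h4⟩ := h
    have he : 0 < e := h1
    rw [Nat.le_div_iff_mul_le he] at h4
    refine ⟨⟨Nat.mul_pos he h3, ?_⟩, Dvd.intro_left _ rfl, (Nat.mul_pos he h3).ne'⟩
    rw [Nat.mul_comm]
    exact h4
  · rintro ⟨m, d⟩ h
    simp only [Finset.mem_sigma, Finset.mem_Icc, Nat.mem_divisors] at h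
    simp only [Nat.div_mul_cancel h.2.1]
  · rintro ⟨e, d⟩ h
    simp only [Finset.mem_sigma, Finset.mem_Icc] at h
    have hd : 0 < d := h.2.1
    simp only [Nat.mul_div_cancel e hd]
  · rintro ⟨m, d⟩ _
    rfl

/-- `∑_{m ≤ X} t^ω(m) ≤ X (1 + log X)^(t-1)` by induction on `t`:
`t^ω(m) = ∑_{S ⊆ primeFactors m} (t-1)^|S| ≤ ∑_{d ∣ m} (t-1)^ω(d)` and
`∑_{m≤X} ∑_{d∣m} f(d) = ∑_{e ≤ X} ∑_{d ≤ X/e} f(d)`, `∑_{e≤X} 1/e ≤ 1 + log X`. -/
theorem sum_pow_omega (t : ℕ) (ht : 1 ≤ t) (X : ℕ) (hX : 1 ≤ X) :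
    ∑ m ∈ Finset.Icc 1 X, (t : ℝ) ^ m.primeFactors.card
      ≤ X * (1 + Real.log X) ^ (t - 1) := by
  induction t, ht using Nat.le_induction generalizing X with
  | base => simp
  | succ t ht ih =>
    have hlog : 0 ≤ Real.log X := Real.log_nonneg (by exact_mod_cast hX)
    have hharm : ∑ e ∈ Finset.Icc 1 X, (1 : ℝ) / e ≤ 1 + Real.log X := by
      have h1 := harmonic_le_one_add_log X
      rw [harmonic_eq_sum_Icc] at h1
      push_cast at h1
      simpa [one_div] using h1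
    calc ∑ m ∈ Finset.Icc 1 X, ((t + 1 : ℕ) : ℝ) ^ m.primeFactors.card
        ≤ ∑ m ∈ Finset.Icc 1 X, ∑ d ∈ m.divisors, (t : ℝ) ^ d.primeFactors.card := by
          refine Finset.sum_le_sum fun m hm => x4_div t m ?_
          have := (Finset.mem_Icc.mp hm).1
          omega
      _ = ∑ e ∈ Finset.Icc 1 X, ∑ d ∈ Finset.Icc 1 (X / e), (t : ℝ) ^ d.primeFactors.card :=
          x4_swap _ X
      _ ≤ ∑ e ∈ Finset.Icc 1 X, (X : ℝ) * (1 + Real.log X) ^ (t - 1) * (1 / e) := by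
          refine Finset.sum_le_sum fun e he => ?_
          obtain ⟨he1, he2⟩ := Finset.mem_Icc.mp he
          have hpos : 1 ≤ X / e := Nat.div_pos he2 he1
          refine (ih (X / e) hpos).trans ?_
          have h1 : ((X / e : ℕ) : ℝ) ≤ (X : ℝ) / e := Nat.cast_div_le
          have h2 : Real.log ((X / e : ℕ) : ℝ) ≤ Real.log X := by
            refine Real.log_le_log (by exact_mod_cast hpos) ?_
            exact_mod_cast Nat.div_le_self X e
          have h3 : 0 ≤ Real.log ((X / e : ℕ) : ℝ) := Real.log_nonneg (by exact_mod_cast hpos)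
          calc ((X / e : ℕ) : ℝ) * (1 + Real.log ((X / e : ℕ) : ℝ)) ^ (t - 1)
              ≤ ((X : ℝ) / e) * (1 + Real.log X) ^ (t - 1) := by
                refine mul_le_mul h1 ?_ (by positivity) (by positivity)
                exact pow_le_pow_left₀ (by linarith) (by linarith) _
            _ = _ := by ring
      _ = (X : ℝ) * (1 + Real.log X) ^ (t - 1) * ∑ e ∈ Finset.Icc 1 X, (1 : ℝ) / e := by
          rw [Finset.mul_sum]
      _ ≤ (X : ℝ) * (1 + Real.log X) ^ (t - 1) * (1 + Real.log X) :=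
          mul_le_mul_of_nonneg_left hharm (by positivity)
      _ = (X : ℝ) * (1 + Real.log X) ^ (t + 1 - 1) := by
          obtain ⟨s, rfl⟩ : ∃ s, t = s + 1 := ⟨t - 1, by omega⟩
          simp only [Nat.add_sub_cancel]
          rw [mul_assoc, ← pow_succ]

end Jes95
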