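import Pool.Agent.LibJes95.X3
import Pool.Agent.LibJes95.X4
import Pool.Agent.LibJes95.Defs
namespace Jes95

open Filter Asymptotics in
private theorem X5_eventually (θ c : ℝ) (hθ1 : θ < 1) (hc : 0 < c) :
    ∃ y₀ : ℝ, ∀ y : ℝ, y₀ ≤ y → 15 * y ^ θ * Real.log y ≤ c * y := by
  have hlog : Real.log =o[atTop] fun y : ℝ => y ^ (1 - θ) :=
    isLittleO_log_rpow_atTop (by linarith)
  have h2 : (fun y : ℝ => y ^ θ * Real.log y) =o[atTop] (fun y : ℝ => y ^ θ * y ^ (1 - θ)) :=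
    (isBigO_refl _ _).mul_isLittleO hlog
  have h3 : (fun y : ℝ => y ^ θ * y ^ (1 - θ)) =ᶠ[atTop] fun y => y := by
    filter_upwards [eventually_gt_atTop (0 : ℝ)] with y hy
    rw [← Real.rpow_add hy]
    simp
  have h4 : (fun y : ℝ => y ^ θ * Real.log y) =o[atTop] (fun y : ℝ => y) :=
    h2.trans_eventuallyEq h3
  have h5 := h4.def (show 0 < c / 15 by positivity)
  have h6 : ∀ᶠ y : ℝ in atTop, 15 * y ^ θ * Real.log y ≤ c * y := by
    filter_upwards [h5, eventually_gt_atTop (0 : ℝ)] with y hy hy0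
    rw [Real.norm_eq_abs, Real.norm_eq_abs, abs_of_pos hy0] at hy
    have := le_abs_self (y ^ θ * Real.log y)
    have h7 : y ^ θ * Real.log y ≤ c / 15 * y := this.trans hy
    calc 15 * y ^ θ * Real.log y = 15 * (y ^ θ * Real.log y) := by ring
      _ ≤ 15 * (c / 15 * y) := by linarith
      _ = c * y := by ring
  obtain ⟨y₀, h⟩ := eventually_atTop.mp h6
  exact ⟨y₀, fun y hy => h y hy⟩

private theorem X5_min_le {A B θ : ℝ} (hA : 0 < A) (hB : 0 ≤ B) (h0 : 0 ≤ θ) (h1 : θ ≤ 1) :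
    min A B ≤ A ^ (1 - θ) * B ^ θ := by
  have hm0 : 0 ≤ min A B := le_min hA.le hB
  rcases hm0.eq_or_lt with h | h
  · rw [← h]
    positivity
  · calc min A B = min A B ^ (1 - θ) * min A B ^ θ := by
          rw [← Real.rpow_add h]
          simp
      _ ≤ A ^ (1 - θ) * B ^ θ := by
          apply mul_le_mul
          · exact Real.rpow_le_rpow hm0 (min_le_left _ _) (by linarith)
          · exact Real.rpow_le_rpow hm0 (min_le_right _ _) h0
          · positivity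
          · positivity

private theorem X5_bound (θ : ℝ) (h0 : 0 < θ) (h1 : θ ≤ 1) (M : ℕ) (hM : 2 ≤ M) :
    ∑ v ∈ Finset.Icc 1 (2 * M), min (2 * M : ℝ)
      ((Nat.log 2 (M ^ 2) : ℝ) * (4 * (Nat.log 2 (M ^ 2) : ℝ)) ^ v.primeFactors.card)
      ≤ (2 * M : ℝ) ^ (1 - θ) * (2 * M) * (2 + Real.log M) ^ (15 * (2 + Real.log M) ^ θ) := by
  have hM0 : (0 : ℝ) < M := by
    have : 0 < M := by omega
    exact_mod_cast this
  have hM1 : (1 : ℝ) ≤ M := by
    have : 1 ≤ M := by omega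
    exact_mod_cast this
  have hL0 : 0 ≤ Real.log M := Real.log_nonneg hM1
  set J : ℝ := (Nat.log 2 (M ^ 2) : ℝ) with hJ
  set y : ℝ := 2 + Real.log M with hy
  have hy2 : 2 ≤ y := by linarith
  have hJ1 : 1 ≤ J := by
    rw [hJ]
    have : 1 ≤ Nat.log 2 (M ^ 2) := by
      apply Nat.le_log_of_pow_le (by norm_num)
      nlinarith
    exact_mod_cast this
  have hJy : J ≤ 3 * y := by
    have h2 : (2 : ℝ) ^ (Nat.log 2 (M ^ 2)) ≤ (M : ℝ) ^ 2 := by
      have h3 : 2 ^ (Nat.log 2 (M ^ 2)) ≤ M ^ 2 := Nat.pow_log_le_self 2 (by positivity)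
      exact_mod_cast h3
    have h3 : J * Real.log 2 ≤ 2 * Real.log M := by
      have h4 := Real.log_le_log (by positivity) h2
      rw [Real.log_pow, Real.log_pow] at h4
      exact_mod_cast h4
    have h5 : (0.69 : ℝ) < Real.log 2 := by
      have := Real.log_two_gt_d9
      linarith
    nlinarith
  have hyθ1 : 1 ≤ y ^ θ := Real.one_le_rpow (by linarith) h0.le
  -- the integer `t`
  set t : ℕ := ⌈(4 * J) ^ θ⌉₊ with ht
  have h4J : 0 < (4 * J) ^ θ := by positivity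
  have ht1 : 1 ≤ t := Nat.one_le_iff_ne_zero.mpr (Nat.ceil_pos.mpr h4J).ne'
  have htle : ((t - 1 : ℕ) : ℝ) ≤ 12 * y ^ θ := by
    have h2 : (t : ℝ) < (4 * J) ^ θ + 1 := Nat.ceil_lt_add_one h4J.le
    have h3 : (4 * J) ^ θ ≤ (12 * y) ^ θ := by
      apply Real.rpow_le_rpow (by positivity) _ h0.le
      linarith
    have h4 : (12 * y) ^ θ = 12 ^ θ * y ^ θ := Real.mul_rpow (by norm_num) (by linarith)
    have h5 : (12 : ℝ) ^ θ ≤ 12 := by
      calc (12 : ℝ) ^ θ ≤ 12 ^ (1 : ℝ) := Real.rpow_le_rpow_of_exponent_le (by norm_num) h1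
        _ = 12 := Real.rpow_one _
    have h6 : (12 : ℝ) ^ θ * y ^ θ ≤ 12 * y ^ θ := mul_le_mul_of_nonneg_right h5 (by linarith)
    rw [Nat.cast_sub ht1]
    push_cast
    linarith
  -- every term
  have hterm : ∀ v ∈ Finset.Icc 1 (2 * M), min (2 * M : ℝ) (J * (4 * J) ^ v.primeFactors.card) ≤
      (2 * M : ℝ) ^ (1 - θ) * J * (t : ℝ) ^ v.primeFactors.card := by
    intro v _
    refine (X5_min_le (by positivity) (by positivity) h0.le h1).trans ?_
    have hsplit : (J * (4 * J) ^ v.primeFactors.card) ^ θ =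
        J ^ θ * ((4 * J) ^ v.primeFactors.card) ^ θ :=
      Real.mul_rpow (by positivity) (by positivity)
    rw [hsplit, mul_assoc]
    apply mul_le_mul_of_nonneg_left _ (by positivity)
    apply mul_le_mul
    · calc J ^ θ ≤ J ^ (1 : ℝ) := Real.rpow_le_rpow_of_exponent_le hJ1 h1
        _ = J := Real.rpow_one _
    · rw [← Real.rpow_natCast, ← Real.rpow_mul (by positivity), mul_comm _ θ,
        Real.rpow_mul (by positivity), Real.rpow_natCast]
      apply pow_le_pow_left₀ h4J.le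
      exact Nat.le_ceil _
    · positivity
    · positivity
  refine (Finset.sum_le_sum hterm).trans ?_
  rw [← Finset.mul_sum]
  have hsum := sum_pow_omega t ht1 (2 * M) (by omega)
  have h2M : Real.log ((2 * M : ℕ) : ℝ) = Real.log 2 + Real.log M := by
    push_cast
    rw [Real.log_mul (by norm_num) hM0.ne']
  have hlog2 : Real.log 2 < 1 := by
    have := Real.log_two_lt_d9
    linarith
  have hlog20 : 0 < Real.log 2 := Real.log_pos (by norm_num)
  have hpow : (1 + Real.log ((2 * M : ℕ) : ℝ)) ^ (t - 1) ≤ y ^ (12 * y ^ θ) := by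
    calc (1 + Real.log ((2 * M : ℕ) : ℝ)) ^ (t - 1) ≤ y ^ (t - 1) := by
          apply pow_le_pow_left₀
          · rw [h2M]
            linarith
          · rw [h2M]
            linarith
      _ = y ^ ((t - 1 : ℕ) : ℝ) := (Real.rpow_natCast _ _).symm
      _ ≤ y ^ (12 * y ^ θ) := Real.rpow_le_rpow_of_exponent_le (by linarith) htle
  have hJ3 : J ≤ y ^ (3 : ℝ) := by
    have h2 : y ^ (3 : ℝ) = y ^ 3 := by
      rw [← Real.rpow_natCast]
      norm_num
    rw [h2]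
    nlinarith [mul_self_nonneg (y - 2)]
  have hfin : J * y ^ (12 * y ^ θ) ≤ y ^ (15 * y ^ θ) := by
    calc J * y ^ (12 * y ^ θ) ≤ y ^ (3 : ℝ) * y ^ (12 * y ^ θ) := by
          apply mul_le_mul_of_nonneg_right hJ3
          positivity
      _ = y ^ (3 + 12 * y ^ θ) := (Real.rpow_add (by linarith) _ _).symm
      _ ≤ y ^ (15 * y ^ θ) := by
          apply Real.rpow_le_rpow_of_exponent_le (by linarith)
          linarith
  calc (2 * M : ℝ) ^ (1 - θ) * J * ∑ v ∈ Finset.Icc 1 (2 * M), (t : ℝ) ^ v.primeFactors.card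
      ≤ (2 * M : ℝ) ^ (1 - θ) * J *
          (((2 * M : ℕ) : ℝ) * (1 + Real.log ((2 * M : ℕ) : ℝ)) ^ (t - 1)) := by
        apply mul_le_mul_of_nonneg_left hsum
        positivity
    _ ≤ (2 * M : ℝ) ^ (1 - θ) * J * (((2 * M : ℕ) : ℝ) * y ^ (12 * y ^ θ)) := by
        apply mul_le_mul_of_nonneg_left _ (by positivity)
        apply mul_le_mul_of_nonneg_left hpow (by positivity)
    _ = (2 * M : ℝ) ^ (1 - θ) * (2 * M) * (J * y ^ (12 * y ^ θ)) := by
        push_cast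
        ring
    _ ≤ (2 * M : ℝ) ^ (1 - θ) * (2 * M) * y ^ (15 * y ^ θ) := by
        apply mul_le_mul_of_nonneg_left hfin
        positivity

private theorem X5_large (ε : ℝ) (hε : 0 < ε) (hε1 : ε ≤ 1) : ∃ y₀ : ℝ, ∀ M : ℕ, 2 ≤ M →
    y₀ ≤ 2 + Real.log M →
    ∑ v ∈ Finset.Icc 1 (2 * M), min (2 * M : ℝ)
      ((Nat.log 2 (M ^ 2) : ℝ) * (4 * (Nat.log 2 (M ^ 2) : ℝ)) ^ v.primeFactors.card)
      ≤ 4 * Real.exp ε * (M : ℝ) ^ (1 + ε) := by
  obtain ⟨y₀, hy₀⟩ := X5_eventually (1 - ε / 2) (ε / 2) (by linarith) (by positivity)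
  refine ⟨y₀, fun M hM hy => ?_⟩
  refine (X5_bound (1 - ε / 2) (by linarith) (by linarith) M hM).trans ?_
  have hM0 : (0 : ℝ) < M := by
    have : 0 < M := by omega
    exact_mod_cast this
  have hM1 : (1 : ℝ) ≤ M := by
    have : 1 ≤ M := by omega
    exact_mod_cast this
  have hL0 : 0 ≤ Real.log M := Real.log_nonneg hM1
  have h1 : (2 + Real.log M) ^ (15 * (2 + Real.log M) ^ (1 - ε / 2)) ≤
      Real.exp ε * (M : ℝ) ^ (ε / 2) := by
    rw [Real.rpow_def_of_pos (by linarith), Real.rpow_def_of_pos hM0, ← Real.exp_add]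
    apply Real.exp_le_exp.mpr
    have h2 := hy₀ _ hy
    calc Real.log (2 + Real.log M) * (15 * (2 + Real.log M) ^ (1 - ε / 2))
        = 15 * (2 + Real.log M) ^ (1 - ε / 2) * Real.log (2 + Real.log M) := by ring
      _ ≤ ε / 2 * (2 + Real.log M) := h2
      _ = ε + Real.log M * (ε / 2) := by ring
  have h2 : (2 * M : ℝ) ^ (1 - (1 - ε / 2)) * (2 * M) ≤ 4 * (M : ℝ) ^ (1 + ε / 2) := by
    have h3 : (2 * M : ℝ) ^ (1 - (1 - ε / 2)) = 2 ^ (ε / 2) * (M : ℝ) ^ (ε / 2) := by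
      rw [show 1 - (1 - ε / 2) = ε / 2 by ring]
      exact Real.mul_rpow (by norm_num) hM0.le
    have h4 : (M : ℝ) ^ (1 + ε / 2) = M * (M : ℝ) ^ (ε / 2) := by
      rw [Real.rpow_add hM0, Real.rpow_one]
    have h5 : (2 : ℝ) ^ (ε / 2) ≤ 2 := by
      calc (2 : ℝ) ^ (ε / 2) ≤ 2 ^ (1 : ℝ) :=
            Real.rpow_le_rpow_of_exponent_le (by norm_num) (by linarith)
        _ = 2 := Real.rpow_one _
    rw [h3, h4]
    have h6 : 0 ≤ (M : ℝ) ^ (ε / 2) * (2 * M) := by positivity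
    calc (2 : ℝ) ^ (ε / 2) * (M : ℝ) ^ (ε / 2) * (2 * M)
        = 2 ^ (ε / 2) * ((M : ℝ) ^ (ε / 2) * (2 * M)) := by ring
      _ ≤ 2 * ((M : ℝ) ^ (ε / 2) * (2 * M)) := mul_le_mul_of_nonneg_right h5 h6
      _ = 4 * (M * (M : ℝ) ^ (ε / 2)) := by ring
  calc (2 * M : ℝ) ^ (1 - (1 - ε / 2)) * (2 * M) *
        (2 + Real.log M) ^ (15 * (2 + Real.log M) ^ (1 - ε / 2))
      ≤ (4 * (M : ℝ) ^ (1 + ε / 2)) * (Real.exp ε * (M : ℝ) ^ (ε / 2)) := by
        apply mul_le_mul h2 h1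
        · exact Real.rpow_nonneg (by linarith) _
        · positivity
    _ = 4 * Real.exp ε * (M : ℝ) ^ (1 + ε) := by
        rw [show (1 + ε : ℝ) = (1 + ε / 2) + ε / 2 by ring, Real.rpow_add hM0 (1 + ε / 2)]
        ring

/-- Truncated sum: with `J = Nat.log 2 (M^2)` (so `2^δ < M^2` gives `δ ≤ J`),
`∑_{v ≤ 2M} min (2M) (J (4J)^ω(v)) ≤ K_ε M^(1+ε)`: `min(A,B) ≤ A^(1-θ) B^θ`, `t = ⌈(4J)^θ⌉`,
`sum_pow_omega`, and `(1 + log 2M)^t = exp(O((log M)^θ log log M)) ≤ K M^(ε/2)`, `θ = 1 - ε/2`. -/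
theorem trunc_sum (ε : ℝ) (hε : 0 < ε) : ∃ K : ℝ, 0 < K ∧ ∀ M : ℕ, 2 ≤ M →
    ∑ v ∈ Finset.Icc 1 (2 * M), min (2 * M : ℝ)
      ((Nat.log 2 (M ^ 2) : ℝ) * (4 * (Nat.log 2 (M ^ 2) : ℝ)) ^ v.primeFactors.card)
      ≤ K * (M : ℝ) ^ (1 + ε) := by
  obtain ⟨y₀, hy₀⟩ := X5_large (min ε 1) (lt_min hε one_pos) (min_le_right _ _)
  refine ⟨4 * Real.exp (min ε 1) + 4 * Real.exp y₀, by positivity, fun M hM => ?_⟩
  have hM0 : (0 : ℝ) < M := by
    have : 0 < M := by omega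
    exact_mod_cast this
  have hM1 : (1 : ℝ) ≤ M := by
    have : 1 ≤ M := by omega
    exact_mod_cast this
  have hpow : (M : ℝ) ^ (1 + min ε 1) ≤ (M : ℝ) ^ (1 + ε) :=
    Real.rpow_le_rpow_of_exponent_le hM1 (by linarith [min_le_left ε 1])
  have hMle : (M : ℝ) ≤ (M : ℝ) ^ (1 + ε) := by
    calc (M : ℝ) = (M : ℝ) ^ (1 : ℝ) := (Real.rpow_one _).symm
      _ ≤ (M : ℝ) ^ (1 + ε) := Real.rpow_le_rpow_of_exponent_le hM1 (by linarith)
  have hP : 0 < (M : ℝ) ^ (1 + ε) := by positivity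
  rcases le_total y₀ (2 + Real.log M) with h | h
  · refine (hy₀ M hM h).trans ?_
    calc 4 * Real.exp (min ε 1) * (M : ℝ) ^ (1 + min ε 1)
        ≤ 4 * Real.exp (min ε 1) * (M : ℝ) ^ (1 + ε) :=
          mul_le_mul_of_nonneg_left hpow (by positivity)
      _ ≤ (4 * Real.exp (min ε 1) + 4 * Real.exp y₀) * (M : ℝ) ^ (1 + ε) := by
          apply mul_le_mul_of_nonneg_right _ hP.le
          have : 0 < Real.exp y₀ := Real.exp_pos _
          linarith
  · -- trivial bound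
    have hMy : (M : ℝ) ≤ Real.exp y₀ := by
      rw [← Real.log_le_iff_le_exp hM0]
      linarith
    calc ∑ v ∈ Finset.Icc 1 (2 * M), min (2 * M : ℝ)
          ((Nat.log 2 (M ^ 2) : ℝ) * (4 * (Nat.log 2 (M ^ 2) : ℝ)) ^ v.primeFactors.card)
        ≤ ∑ v ∈ Finset.Icc 1 (2 * M), (2 * M : ℝ) := Finset.sum_le_sum (fun v _ => min_le_left _ _)
      _ = 4 * M * M := by
          rw [Finset.sum_const, Nat.card_Icc, nsmul_eq_mul]
          push_cast [Nat.add_sub_cancel]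
          ring
      _ ≤ 4 * Real.exp y₀ * (M : ℝ) ^ (1 + ε) := by
          apply mul_le_mul _ hMle hM0.le (by positivity)
          linarith
      _ ≤ (4 * Real.exp (min ε 1) + 4 * Real.exp y₀) * (M : ℝ) ^ (1 + ε) := by
          apply mul_le_mul_of_nonneg_right _ hP.le
          have : 0 < Real.exp (min ε 1) := Real.exp_pos _
          linarith

end Jes95
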